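import Pool.Agent.H26.CogrowthFinal

set_option linter.unusedSectionVars false

namespace Pool.Agent.H26.Cogrowth

open Finset Filter
open scoped commutatorElement

section Abelian

variable {m : ℕ} {Γ : Type*} [CommGroup Γ]

/-- total mass as a linear map -/
noncomputable def tot : (Γ →₀ ℝ) →ₗ[ℝ] ℝ := Finsupp.lsum ℝ (fun _ => LinearMap.id)

lemma tot_eq (f : Γ →₀ ℝ) (s : Finset Γ) (h : f.support ⊆ s) : tot f = ∑ x ∈ s, f x := by
  unfold tot
  rw [Finsupp.lsum_apply]
  rw [Finsupp.sum_of_support_subset f h]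
  · rfl
  · intro i _; rfl

lemma tot_single (x : Γ) (c : ℝ) : tot (Finsupp.single x c) = c := by
  unfold tot; simp

lemma tot_Lt (g : Γ) (f : Γ →₀ ℝ) : tot (Lt g f) = tot f := by
  unfold tot Lt
  rw [Finsupp.lmapDomain_apply, Finsupp.lsum_apply, Finsupp.lsum_apply]
  rw [Finsupp.sum_mapDomain_index]
  · intro b; simp
  · intro b c d; simp

lemma tot_Pw {ι : Type*} [Fintype ι] (e : ι → Γ) (f : Γ →₀ ℝ) :
    tot (Pw e (fun _ => 1) f) = Fintype.card ι * tot f := by
  rw [Pw_apply, map_sum]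
  have : ∀ b ∈ (Finset.univ : Finset ι), tot ((1:ℝ) • Lt (e b) f) = tot f := by
    intro b _
    rw [one_smul, tot_Lt]
  rw [Finset.sum_congr rfl this]
  simp

lemma tot_pow {ι : Type*} [Fintype ι] (e : ι → Γ) (n : ℕ) :
    tot (((Pw e (fun _ => 1)) ^ n) (Finsupp.single 1 1)) = (Fintype.card ι : ℝ) ^ n := by
  induction n with
  | zero => simp [tot_single]
  | succ n ih => rw [pow_succ', Module.End.mul_apply, tot_Pw, ih]; ring

/-- the box -/
noncomputable def box [DecidableEq Γ] (π : FreeGroup (Fin m) →* Γ) (n : ℕ) : Finset Γ :=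
  (Fintype.piFinset (fun _ : Fin m => Finset.Icc (-(n:ℤ)) n)).image
    (fun k => ∏ i, (π (FreeGroup.of i)) ^ (k i))

lemma card_box [DecidableEq Γ] (π : FreeGroup (Fin m) →* Γ) (n : ℕ) :
    (box π n).card ≤ (2 * n + 1) ^ m := by
  unfold box
  refine Finset.card_image_le.trans (le_of_eq ?_)
  rw [Fintype.card_piFinset]
  simp only [Int.card_Icc, Finset.prod_const, Finset.card_univ, Fintype.card_fin]
  congr 1
  omega

lemma eL_mul_box [DecidableEq Γ] (π : FreeGroup (Fin m) →* Γ) (n : ℕ) (b : Fin m × Bool) (x : Γ)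
    (hx : x ∈ box π n) : eL π b * x ∈ box π (n+1) := by
  unfold box at hx ⊢
  rw [Finset.mem_image] at hx ⊢
  obtain ⟨k, hk, rfl⟩ := hx
  rw [Fintype.mem_piFinset] at hk
  obtain ⟨i, s⟩ := b
  set d : ℤ := if s then 1 else -1 with hd
  have he : eL π (i, s) = (π (FreeGroup.of i)) ^ d := by
    unfold eL
    cases s with
    | true => simp [hd]; rfl
    | false =>
      simp only [hd, Bool.false_eq_true, if_false, zpow_neg, zpow_one]
      rw [← _root_.map_inv]
      rfl
  refine ⟨fun j => k j + (if j = i then d else 0), ?_, ?_⟩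
  · rw [Fintype.mem_piFinset]
    intro j
    have h1 := hk j
    rw [Finset.mem_Icc] at h1 ⊢
    have h2 : -1 ≤ d ∧ d ≤ 1 := by rw [hd]; cases s <;> simp
    push_cast
    split_ifs <;> omega
  · have : ∀ j, (π (FreeGroup.of j)) ^ (k j + (if j = i then d else 0)) =
        (if j = i then (π (FreeGroup.of j)) ^ d else 1) * (π (FreeGroup.of j)) ^ (k j) := by
      intro j
      by_cases h : j = i
      · rw [if_pos h, if_pos h, zpow_add, mul_comm]
      · rw [if_neg h, if_neg h, add_zero, one_mul]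
    rw [Finset.prod_congr rfl (fun j _ => this j), Finset.prod_mul_distrib, Finset.prod_ite_eq',
      if_pos (Finset.mem_univ _), he]

lemma supp_box [DecidableEq Γ] (π : FreeGroup (Fin m) →* Γ) (n : ℕ) :
    (((Pw (eL π) (fun _ => 1)) ^ n) (Finsupp.single 1 1)).support ⊆ box π n := by
  induction n with
  | zero =>
    intro x hx
    rw [pow_zero, Module.End.one_apply] at hx
    have h1 := Finsupp.support_single_subset hx
    rw [Finset.mem_singleton] at h1
    subst h1
    unfold box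
    rw [Finset.mem_image]
    exact ⟨fun _ => 0, by simp, by simp⟩
  | succ n ih =>
    intro x hx
    rw [pow_succ', Module.End.mul_apply, Finsupp.mem_support_iff, Pw_apply_apply] at hx
    obtain ⟨b, _, hb⟩ := Finset.exists_ne_zero_of_sum_ne_zero hx
    rw [one_mul] at hb
    have h1 := ih (Finsupp.mem_support_iff.2 hb)
    have h2 := eL_mul_box π n b _ h1
    rwa [mul_inv_cancel_left] at h2

theorem almostInv_comm (hm : 1 ≤ m) (π : FreeGroup (Fin m) →* Γ) : AlmostInv (eL π) := by
  classical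
  by_contra hcon
  obtain ⟨c, hcM, hc0, hc⟩ := gap_of_not hcon
  set M : ℝ := (Fintype.card (Fin m × Bool) : ℝ) with hM
  have hM0 : 0 < M := by
    rw [hM]
    have : 0 < Fintype.card (Fin m × Bool) := by simp; omega
    exact_mod_cast this
  have key : ∀ n : ℕ, (M ^ 2) ^ n ≤ ((2 * n + 1 : ℕ) : ℝ) ^ m * c ^ n := by
    intro n
    set T := ((Pw (eL π) (fun _ => 1)) ^ n) (Finsupp.single 1 1) with hT
    have h1 := tot_pow (eL π) n
    rw [← hT, tot_eq T (box π n) (supp_box π n), ← hM] at h1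
    have h2 := ret_upper hc0 hc n
    rw [← hT, ip_eq T T (box π n) (supp_box π n)] at h2
    have h3 : (∑ x ∈ box π n, T x) ^ 2 ≤ (box π n).card * ∑ x ∈ box π n, (T x) ^ 2 := by
      have := sq_sum_le_card_mul_sum_sq (s := box π n) (f := fun x => T x)
      exact this
    calc (M ^ 2) ^ n = (M ^ n) ^ 2 := by rw [← pow_mul, ← pow_mul, mul_comm]
      _ = (∑ x ∈ box π n, T x) ^ 2 := by rw [h1]
      _ ≤ (box π n).card * ∑ x ∈ box π n, (T x) ^ 2 := h3
      _ ≤ ((2 * n + 1 : ℕ) : ℝ) ^ m * c ^ n := by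
          apply mul_le_mul
          · exact_mod_cast card_box π n
          · refine le_trans (le_of_eq ?_) h2
            exact Finset.sum_congr rfl fun x _ => pow_two _
          · exact Finset.sum_nonneg fun x _ => sq_nonneg _
          · positivity
  set ρ : ℝ := c / M ^ 2 with hρ
  have hρ0 : 0 ≤ ρ := by positivity
  have hρ1 : ρ < 1 := by rw [hρ, div_lt_one (by positivity)]; exact hcM
  have hlim := tendsto_pow_const_mul_const_pow_of_abs_lt_one m (r := ρ) (by
    rw [abs_of_nonneg hρ0]; exact hρ1)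
  have hlim2 : Tendsto (fun n : ℕ => (3:ℝ) ^ m * ((n:ℝ) ^ m * ρ ^ n)) atTop (nhds (3 ^ m * 0)) :=
    hlim.const_mul _
  rw [mul_zero] at hlim2
  have hev := (hlim2.eventually (eventually_lt_nhds (one_pos))).and (eventually_ge_atTop 1)
  obtain ⟨n, hn1, hn2⟩ := hev.exists
  have h4 := key n
  have h5 : ((2 * n + 1 : ℕ) : ℝ) ^ m ≤ (3 * (n:ℝ)) ^ m := by
    apply pow_le_pow_left₀ (by positivity)
    push_cast
    have : (1:ℝ) ≤ n := by exact_mod_cast hn2
    linarith
  have h6 : (M ^ 2) ^ n ≤ (3 * (n:ℝ)) ^ m * c ^ n :=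
    h4.trans (mul_le_mul_of_nonneg_right h5 (pow_nonneg hc0 n))
  have h7 : c ^ n = ρ ^ n * (M ^ 2) ^ n := by
    rw [hρ, div_pow, div_mul_cancel₀]
    positivity
  rw [h7, mul_pow] at h6
  have h8 : 0 < (M ^ 2) ^ n := by positivity
  have h9 : (M ^ 2) ^ n ≤ (3 ^ m * ((n:ℝ) ^ m * ρ ^ n)) * (M ^ 2) ^ n := by
    calc _ ≤ _ := h6
      _ = _ := by ring
  nlinarith

end Abelian

/-- The multivariate cogrowth of a subgroup containing the commutator subgroup. -/
theorem psi_eq_of_commutator_le {m : ℕ} (hm : 2 ≤ m) (N : Subgroup (FreeGroup (Fin m)))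
    (hN : commutator (FreeGroup (Fin m)) ≤ N) (r : Fin m → ℝ) (hr : r ∈ stdSimplex ℝ (Fin m)) :
    psi N r = psi ⊤ r := by
  have hnorm : N.Normal := by
    constructor
    intro n hn g
    have h1 : g * n * g⁻¹ = ⁅g, n⁆ * n := by rw [commutatorElement_def]; group
    rw [h1]
    apply N.mul_mem _ hn
    apply hN
    rw [commutator_def]
    exact Subgroup.commutator_mem_commutator (Subgroup.mem_top _) (Subgroup.mem_top _)
  have hcomm : ∀ x y : FreeGroup (Fin m) ⧸ N, x * y = y * x := by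
    intro x y
    obtain ⟨a, rfl⟩ := QuotientGroup.mk'_surjective N x
    obtain ⟨b, rfl⟩ := QuotientGroup.mk'_surjective N y
    rw [← _root_.map_mul, ← _root_.map_mul, QuotientGroup.mk'_eq_mk']
    refine ⟨⁅b⁻¹, a⁻¹⁆, hN ?_, ?_⟩
    · rw [commutator_def]
      exact Subgroup.commutator_mem_commutator (Subgroup.mem_top _) (Subgroup.mem_top _)
    · rw [commutatorElement_def]; group
  let inst : CommGroup (FreeGroup (Fin m) ⧸ N) :=
    { (inferInstance : Group (FreeGroup (Fin m) ⧸ N)) with mul_comm := hcomm }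
  exact psi_eq_of_almostInv hm N (almostInv_comm (by omega) (QuotientGroup.mk' N)) r hr

end Pool.Agent.H26.Cogrowth
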