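import Mathlib

/-!
Multivariate growth and cogrowth of subgroups of a free group of finite rank:
the definitions of problem MP_dc78ae_al.
-/

namespace Pool.Agent.H26.Cogrowth

open Filter

/-- The vector `(number of letters a_i or a_i⁻¹ in the reduced word of w)_i`, as a vector in
`ℝ^m`. -/
noncomputable def wp {m : ℕ} (w : FreeGroup (Fin m)) : Fin m → ℝ :=
  fun i => ((w.toWord.countP (fun x => decide (x.1 = i)) : ℕ) : ℝ)

/-- The `ℓ¹` norm on `ℝ^m`. -/
noncomputable def l1 {m : ℕ} (x : Fin m → ℝ) : ℝ := ∑ i, |x i|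

/-- The counting measure of a subgroup `H`: `nu H s` is the number of `w ∈ H` with `wp w ∈ s`. -/
noncomputable def nu {m : ℕ} (H : Subgroup (FreeGroup (Fin m))) (s : Set (Fin m → ℝ)) :
    ENNReal :=
  ((Set.encard {w : FreeGroup (Fin m) | w ∈ H ∧ wp w ∈ s} : ENat) : ENNReal)

/-- The exponential growth rate of `H` in the set `C`, an extended real number
(with `log 0 = -∞`). -/
noncomputable def tau {m : ℕ} (H : Subgroup (FreeGroup (Fin m))) (C : Set (Fin m → ℝ)) : EReal :=
  limsup (fun R : ℝ => ENNReal.log (nu H ({x | R ≤ l1 x ∧ l1 x < R + 1} ∩ C)) / (R : EReal)) atTop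

/-- Open cones in `ℝ^m`: open sets stable under multiplication by positive scalars. -/
def IsOpenCone {m : ℕ} (C : Set (Fin m → ℝ)) : Prop :=
  IsOpen C ∧ ∀ x ∈ C, ∀ c : ℝ, 0 < c → c • x ∈ C

/-- The multivariate cogrowth `psi H r` of `H` in the direction `r`: the infimum of `tau H C`
over all open cones `C` containing `r`. -/
noncomputable def psi {m : ℕ} (H : Subgroup (FreeGroup (Fin m))) (r : Fin m → ℝ) : EReal :=
  ⨅ (C : Set (Fin m → ℝ)) (_ : IsOpenCone C ∧ r ∈ C), tau H C

end Pool.Agent.H26.Cogrowth
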