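import Mathlib

set_option linter.unusedSectionVars false

namespace Pool.Agent.H26.Cogrowth

section IP

variable {X : Type*}

/-- the standard inner product of finitely supported functions -/
noncomputable def ip (f g : X →₀ ℝ) : ℝ := f.sum fun x c => c * g x

lemma ip_eq (f g : X →₀ ℝ) (s : Finset X) (h : f.support ⊆ s) : ip f g = ∑ x ∈ s, f x * g x := by
  unfold ip
  rw [Finsupp.sum_of_support_subset f h]
  intro i _
  simp

lemma ip_comm (f g : X →₀ ℝ) : ip f g = ip g f := by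
  classical
  rw [ip_eq f g (f.support ∪ g.support) Finset.subset_union_left,
    ip_eq g f (f.support ∪ g.support) Finset.subset_union_right]
  exact Finset.sum_congr rfl fun x _ => mul_comm _ _

lemma ip_self_nonneg (f : X →₀ ℝ) : 0 ≤ ip f f := by
  rw [ip_eq f f f.support subset_rfl]
  exact Finset.sum_nonneg fun x _ => mul_self_nonneg _

lemma ip_self_pos (f : X →₀ ℝ) (hf : f ≠ 0) : 0 < ip f f := by
  rw [ip_eq f f f.support subset_rfl]
  obtain ⟨x, hx⟩ := Finsupp.support_nonempty_iff.2 hf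
  apply Finset.sum_pos
  · intro y hy
    exact mul_self_pos.2 (Finsupp.mem_support_iff.1 hy)
  · exact ⟨x, hx⟩

lemma ip_cs (f g : X →₀ ℝ) : (ip f g) ^ 2 ≤ ip f f * ip g g := by
  classical
  rw [ip_eq f g (f.support ∪ g.support) Finset.subset_union_left,
    ip_eq f f (f.support ∪ g.support) Finset.subset_union_left,
    ip_eq g g (f.support ∪ g.support) Finset.subset_union_right]
  have := Finset.sum_mul_sq_le_sq_mul_sq (f.support ∪ g.support) (fun x => f x) (fun x => g x)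
  simpa [pow_two] using this

lemma ip_add_left (f g h : X →₀ ℝ) : ip (f + g) h = ip f h + ip g h := by
  unfold ip
  classical
  rw [Finsupp.sum_add_index']
  · intro a; simp
  · intro a b c; ring

lemma ip_smul_left (c : ℝ) (f h : X →₀ ℝ) : ip (c • f) h = c * ip f h := by
  unfold ip
  rw [Finsupp.sum_smul_index (by intro i; simp)]
  rw [Finsupp.mul_sum]
  exact Finsupp.sum_congr fun x _ => by ring

/-- `ip` as a linear map in the first variable -/
noncomputable def ipL (h : X →₀ ℝ) : (X →₀ ℝ) →ₗ[ℝ] ℝ where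
  toFun f := ip f h
  map_add' f g := ip_add_left f g h
  map_smul' c f := ip_smul_left c f h

lemma ip_sum_left {ι : Type*} (s : Finset ι) (f : ι → (X →₀ ℝ)) (h : X →₀ ℝ) :
    ip (∑ i ∈ s, f i) h = ∑ i ∈ s, ip (f i) h := map_sum (ipL h) f s

lemma ip_sum_right {ι : Type*} (s : Finset ι) (f : ι → (X →₀ ℝ)) (h : X →₀ ℝ) :
    ip h (∑ i ∈ s, f i) = ∑ i ∈ s, ip h (f i) := by
  rw [ip_comm, ip_sum_left]
  exact Finset.sum_congr rfl fun i _ => ip_comm _ _

lemma ip_smul_right (c : ℝ) (f h : X →₀ ℝ) : ip f (c • h) = c * ip f h := by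
  rw [ip_comm, ip_smul_left, ip_comm]

lemma ip_single_left (x : X) (c : ℝ) (h : X →₀ ℝ) : ip (Finsupp.single x c) h = c * h x := by
  unfold ip
  rw [Finsupp.sum_single_index]; simp

lemma ip_single_right (x : X) (c : ℝ) (h : X →₀ ℝ) : ip h (Finsupp.single x c) = c * h x := by
  rw [ip_comm, ip_single_left]

lemma ip_mapDomain {Z : Type*} (φ : X → Z) (hφ : Function.Injective φ) (f g : X →₀ ℝ) :
    ip (Finsupp.mapDomain φ f) (Finsupp.mapDomain φ g) = ip f g := by
  unfold ip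
  rw [Finsupp.sum_mapDomain_index (by intro b; simp) (by intro b c d; ring)]
  exact Finsupp.sum_congr fun x _ => by rw [Finsupp.mapDomain_apply hφ]

end IP

section Walk

variable {G : Type*} [Group G] {ι : Type*} [Fintype ι]

/-- left translation of finitely supported functions -/
noncomputable def Lt (g : G) : (G →₀ ℝ) →ₗ[ℝ] (G →₀ ℝ) := Finsupp.lmapDomain ℝ ℝ (fun x => g * x)

/-- right translation of finitely supported functions -/
noncomputable def Rt (g : G) : (G →₀ ℝ) →ₗ[ℝ] (G →₀ ℝ) := Finsupp.lmapDomain ℝ ℝ (fun x => x * g)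

lemma Lt_apply (g : G) (f : G →₀ ℝ) (x : G) : Lt g f x = f (g⁻¹ * x) := by
  have : x = g * (g⁻¹ * x) := by group
  unfold Lt
  rw [Finsupp.lmapDomain_apply]
  conv_lhs => rw [this]
  rw [Finsupp.mapDomain_apply (mul_right_injective g)]

lemma Lt_single (g x : G) (c : ℝ) : Lt g (Finsupp.single x c) = Finsupp.single (g * x) c := by
  unfold Lt
  rw [Finsupp.lmapDomain_apply, Finsupp.mapDomain_single]

lemma Rt_single (g x : G) (c : ℝ) : Rt g (Finsupp.single x c) = Finsupp.single (x * g) c := by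
  unfold Rt
  rw [Finsupp.lmapDomain_apply, Finsupp.mapDomain_single]

lemma Lt_Lt_inv (g : G) (f : G →₀ ℝ) : Lt g (Lt g⁻¹ f) = f := by
  ext x
  rw [Lt_apply, Lt_apply]; congr 1; group

lemma ip_Lt_Lt (g : G) (f h : G →₀ ℝ) : ip (Lt g f) (Lt g h) = ip f h :=
  ip_mapDomain _ (mul_right_injective g) f h

lemma ip_Rt_Rt (g : G) (f h : G →₀ ℝ) : ip (Rt g f) (Rt g h) = ip f h :=
  ip_mapDomain _ (mul_left_injective g) f h

lemma ip_Lt_left (g : G) (f h : G →₀ ℝ) : ip (Lt g f) h = ip f (Lt g⁻¹ h) := by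
  conv_lhs => rw [← Lt_Lt_inv g h]
  rw [ip_Lt_Lt]

lemma Lt_Rt (g h : G) (f : G →₀ ℝ) : Lt g (Rt h f) = Rt h (Lt g f) := by
  unfold Lt Rt
  simp only [Finsupp.lmapDomain_apply]
  rw [← Finsupp.mapDomain_comp, ← Finsupp.mapDomain_comp]
  congr 1
  funext x
  simp [mul_assoc]

/-- the walk operator -/
noncomputable def Pw (e : ι → G) (t : ι → ℝ) : (G →₀ ℝ) →ₗ[ℝ] (G →₀ ℝ) := ∑ b, t b • Lt (e b)

lemma Pw_apply (e : ι → G) (t : ι → ℝ) (f : G →₀ ℝ) : Pw e t f = ∑ b, t b • Lt (e b) f := by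
  unfold Pw
  simp [LinearMap.sum_apply, LinearMap.smul_apply]

lemma Pw_apply_apply (e : ι → G) (t : ι → ℝ) (f : G →₀ ℝ) (x : G) :
    Pw e t f x = ∑ b, t b * f ((e b)⁻¹ * x) := by
  rw [Pw_apply, Finsupp.finsetSum_apply]
  exact Finset.sum_congr rfl fun b _ => by rw [Finsupp.smul_apply, Lt_apply]; rfl

lemma Pw_Rt (e : ι → G) (t : ι → ℝ) (h : G) (f : G →₀ ℝ) : Pw e t (Rt h f) = Rt h (Pw e t f) := by
  rw [Pw_apply, Pw_apply, map_sum]
  exact Finset.sum_congr rfl fun b _ => by rw [Lt_Rt, map_smul]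

lemma Pw_pow_Rt (e : ι → G) (t : ι → ℝ) (h : G) (n : ℕ) (f : G →₀ ℝ) :
    ((Pw e t) ^ n) (Rt h f) = Rt h (((Pw e t) ^ n) f) := by
  induction n generalizing f with
  | zero => simp
  | succ n ih => rw [pow_succ, Module.End.mul_apply, Module.End.mul_apply, Pw_Rt, ih]

lemma ip_Pw_Pw (e : ι → G) (t : ι → ℝ) (f : G →₀ ℝ) :
    ip (Pw e t f) (Pw e t f) = ∑ b, ∑ b', t b * t b' * ip (Lt (e b) f) (Lt (e b') f) := by
  rw [Pw_apply, ip_sum_left]
  refine Finset.sum_congr rfl fun b _ => ?_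
  rw [ip_smul_left, ip_sum_right, Finset.mul_sum]
  exact Finset.sum_congr rfl fun b' _ => by rw [ip_smul_right]; ring

/-- symmetry hypotheses -/
structure Sym (e : ι → G) (t : ι → ℝ) (σ : ι ≃ ι) : Prop where
  inv : ∀ b, e (σ b) = (e b)⁻¹
  wt : ∀ b, t (σ b) = t b

lemma ip_Pw_left {e : ι → G} {t : ι → ℝ} {σ : ι ≃ ι} (hs : Sym e t σ) (f g : G →₀ ℝ) :
    ip (Pw e t f) g = ip f (Pw e t g) := by
  rw [Pw_apply, Pw_apply, ip_sum_left, ip_sum_right]
  rw [← Equiv.sum_comp σ (fun b => ip f (t b • Lt (e b) g))]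
  refine Finset.sum_congr rfl fun b _ => ?_
  rw [ip_smul_left, ip_smul_right, ip_Lt_left, hs.inv, hs.wt]

lemma ip_Pw_pow_left {e : ι → G} {t : ι → ℝ} {σ : ι ≃ ι} (hs : Sym e t σ) (n : ℕ)
    (f g : G →₀ ℝ) : ip (((Pw e t) ^ n) f) g = ip f (((Pw e t) ^ n) g) := by
  induction n generalizing f g with
  | zero => simp
  | succ n ih =>
    rw [pow_succ, Module.End.mul_apply, ih, ip_Pw_left hs, ← Module.End.mul_apply, ← pow_succ',
      pow_succ]

lemma ip_pow_single {e : ι → G} {t : ι → ℝ} (n : ℕ) (x : G) :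
    ip (((Pw e t) ^ n) (Finsupp.single x 1)) (((Pw e t) ^ n) (Finsupp.single x 1)) =
      ip (((Pw e t) ^ n) (Finsupp.single 1 1)) (((Pw e t) ^ n) (Finsupp.single 1 1)) := by
  have : (Finsupp.single x (1:ℝ)) = Rt x (Finsupp.single 1 1) := by
    rw [Rt_single, one_mul]
  rw [this, Pw_pow_Rt, ip_Rt_Rt]

/-- ℓ¹ mass -/
noncomputable def mass (f : G →₀ ℝ) : ℝ := ∑ x ∈ f.support, |f x|

lemma norm_pow_le {e : ι → G} {t : ι → ℝ} (n : ℕ) (f : G →₀ ℝ) :
    ip (((Pw e t) ^ n) f) (((Pw e t) ^ n) f) ≤ (mass f) ^ 2 *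
      ip (((Pw e t) ^ n) (Finsupp.single 1 1)) (((Pw e t) ^ n) (Finsupp.single 1 1)) := by
  set T := (Pw e t) ^ n with hT
  set a := ip (T (Finsupp.single 1 1)) (T (Finsupp.single 1 1)) with ha
  have ha0 : 0 ≤ a := ip_self_nonneg _
  have hcs : ∀ x y : G, |ip (T (Finsupp.single x 1)) (T (Finsupp.single y 1))| ≤ a := by
    intro x y
    have h1 := ip_cs (T (Finsupp.single x 1)) (T (Finsupp.single y 1))
    rw [hT, ip_pow_single n x, ip_pow_single n y, ← hT, ← ha, ← pow_two] at h1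
    exact abs_le_of_sq_le_sq h1 ha0 |> fun h => abs_le.2 ⟨by linarith [(abs_le.1 (abs_le_of_sq_le_sq' h1 ha0 |> fun h => abs_le.2 h)).1], (abs_le_of_sq_le_sq' h1 ha0).2⟩
  have hf : f = ∑ x ∈ f.support, f x • Finsupp.single x (1:ℝ) := by
    conv_lhs => rw [← Finsupp.sum_single f]
    unfold Finsupp.sum
    exact Finset.sum_congr rfl fun x _ => by rw [Finsupp.smul_single]; simp
  have hTf : T f = ∑ x ∈ f.support, f x • T (Finsupp.single x (1:ℝ)) := by
    conv_lhs => rw [hf]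
    rw [map_sum]
    exact Finset.sum_congr rfl fun x _ => by rw [map_smul]
  rw [hTf, ip_sum_left]
  have : ∀ x ∈ f.support, ip (f x • T (Finsupp.single x (1:ℝ)))
      (∑ y ∈ f.support, f y • T (Finsupp.single y (1:ℝ))) ≤ ∑ y ∈ f.support, |f x| * |f y| * a := by
    intro x _
    rw [ip_sum_right]
    refine Finset.sum_le_sum fun y _ => ?_
    rw [ip_smul_left, ip_smul_right]
    calc f x * (f y * ip (T (Finsupp.single x 1)) (T (Finsupp.single y 1)))
        ≤ |f x * (f y * ip (T (Finsupp.single x 1)) (T (Finsupp.single y 1)))| := le_abs_self _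
      _ = |f x| * |f y| * |ip (T (Finsupp.single x 1)) (T (Finsupp.single y 1))| := by
          rw [abs_mul, abs_mul]; ring
      _ ≤ |f x| * |f y| * a := by
          apply mul_le_mul_of_nonneg_left (hcs x y) (by positivity)
  refine (Finset.sum_le_sum this).trans (le_of_eq ?_)
  unfold mass
  rw [pow_two, Finset.sum_mul_sum, Finset.sum_mul]
  exact Finset.sum_congr rfl fun x _ => by rw [Finset.sum_mul]

/-- doubling -/
lemma moment_double {e : ι → G} {t : ι → ℝ} {σ : ι ≃ ι} (hs : Sym e t σ) (f : G →₀ ℝ) (κ : ℝ)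
    (hκ : 1 ≤ κ) (h : κ * ip f f ≤ ip (Pw e t f) (Pw e t f)) (j : ℕ) :
    ip f f ≤ ip (((Pw e t) ^ (2 ^ j)) f) (((Pw e t) ^ (2 ^ j)) f) := by
  by_cases hf : f = 0
  · subst hf; simp
  have h0 := ip_self_pos f hf
  induction j with
  | zero =>
    simp only [pow_zero, pow_one]
    nlinarith
  | succ j ih =>
    set k := 2 ^ j with hk
    have h2 : 2 ^ (j+1) = k + k := by rw [hk, pow_succ]; ring
    rw [h2]
    have e1 : ip (((Pw e t) ^ k) f) (((Pw e t) ^ k) f) = ip f (((Pw e t) ^ (k + k)) f) := by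
      rw [ip_Pw_pow_left hs, ← Module.End.mul_apply, ← pow_add]
    have h3 := ip_cs f (((Pw e t) ^ (k + k)) f)
    rw [← e1] at h3
    set A := ip (((Pw e t) ^ k) f) (((Pw e t) ^ k) f)
    set B := ip (((Pw e t) ^ (k+k)) f) (((Pw e t) ^ (k+k)) f)
    nlinarith

end Walk

end Pool.Agent.H26.Cogrowth
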