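import Pool.Agent.H26.CogrowthWord
import Pool.Agent.H26.CogrowthWalk

set_option linter.unusedSectionVars false

namespace Pool.Agent.H26.Cogrowth

open FreeGroup Finset

section General

variable {G : Type*} [Group G] {ι : Type*} [Fintype ι]

/-- almost invariant vectors for all the products of two letters -/
def AlmostInv (e : ι → G) : Prop :=
  ∀ δ : ℝ, 0 < δ → ∃ f : G →₀ ℝ, f ≠ 0 ∧
    ∀ b b', (1 - δ) * ip f f ≤ ip (Lt (e b) f) (Lt (e b') f)

lemma Pw_nonneg {e : ι → G} {t : ι → ℝ} (ht : ∀ b, 0 ≤ t b) {f : G →₀ ℝ} (hf : ∀ x, 0 ≤ f x)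
    (x : G) : 0 ≤ Pw e t f x := by
  rw [Pw_apply_apply]
  exact Finset.sum_nonneg fun b _ => mul_nonneg (ht b) (hf _)

lemma Pw_pow_nonneg {e : ι → G} {t : ι → ℝ} (ht : ∀ b, 0 ≤ t b) (n : ℕ) {f : G →₀ ℝ}
    (hf : ∀ x, 0 ≤ f x) (x : G) : 0 ≤ ((Pw e t) ^ n) f x := by
  induction n generalizing f x with
  | zero => simpa using hf x
  | succ n ih =>
    rw [pow_succ, Module.End.mul_apply]
    exact ih (Pw_nonneg ht hf) x

lemma single_one_nonneg (x : G) : 0 ≤ (Finsupp.single (1:G) (1:ℝ)) x := by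
  classical
  rw [Finsupp.single_apply]; split_ifs <;> norm_num

lemma ret_lower {e : ι → G} {t : ι → ℝ} {σ : ι ≃ ι} (hs : Sym e t σ) (ht : ∀ b, 0 ≤ t b)
    (hsum : 1 < ∑ b, t b) (hai : AlmostInv e) :
    ∃ c₀ : ℝ, 0 < c₀ ∧ ∀ j : ℕ, c₀ ≤ ((Pw e t) ^ (2 ^ (j+1))) (Finsupp.single 1 1) 1 := by
  set s := ∑ b, t b with hsdef
  have hs2 : 1 < s ^ 2 := by nlinarith
  obtain ⟨f, hf0, hf⟩ := hai (1 - 1 / s ^ 2) (by
    have : 1 / s ^ 2 < 1 := by rw [div_lt_one (by positivity)]; exact hs2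
    linarith)
  have hff := ip_self_pos f hf0
  have h1 : (1:ℝ) * ip f f ≤ ip (Pw e t f) (Pw e t f) := by
    rw [ip_Pw_Pw]
    have : ∀ b b', t b * t b' * ((1 / s ^ 2) * ip f f) ≤
        t b * t b' * ip (Lt (e b) f) (Lt (e b') f) := by
      intro b b'
      apply mul_le_mul_of_nonneg_left _ (mul_nonneg (ht b) (ht b'))
      have := hf b b'
      simpa using this
    calc (1:ℝ) * ip f f = ∑ b, ∑ b', t b * t b' * ((1 / s ^ 2) * ip f f) := by
          have e1 : ∀ b, ∑ b', t b * t b' * ((1 / s ^ 2) * ip f f) =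
              t b * (s * ((1 / s ^ 2) * ip f f)) := by
            intro b
            rw [hsdef, Finset.sum_mul, Finset.mul_sum]
            exact Finset.sum_congr rfl fun b' _ => by ring
          rw [Finset.sum_congr rfl fun b _ => e1 b, ← Finset.sum_mul, ← hsdef]
          have : s ≠ 0 := by nlinarith
          field_simp
      _ ≤ _ := Finset.sum_le_sum fun b _ => Finset.sum_le_sum fun b' _ => this b b'
  have hmass : 0 < mass f := by
    unfold mass
    obtain ⟨x, hx⟩ := Finsupp.support_nonempty_iff.2 hf0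
    apply Finset.sum_pos
    · intro y hy
      exact abs_pos.2 (Finsupp.mem_support_iff.1 hy)
    · exact ⟨x, hx⟩
  refine ⟨ip f f / (mass f) ^ 2, by positivity, fun j => ?_⟩
  have h2 := moment_double hs f 1 le_rfl h1 j
  have h3 := norm_pow_le (e := e) (t := t) (2 ^ j) f
  have h4 : ip (((Pw e t) ^ (2 ^ j)) (Finsupp.single 1 1)) (((Pw e t) ^ (2 ^ j))
      (Finsupp.single 1 1)) = ((Pw e t) ^ (2 ^ (j+1))) (Finsupp.single 1 1) 1 := by
    rw [← ip_Pw_pow_left hs, ← Module.End.mul_apply, ← pow_add, ip_single_right, one_mul,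
      show 2 ^ j + 2 ^ j = 2 ^ (j+1) by rw [pow_succ]; ring]
  rw [h4] at h3
  rw [div_le_iff₀ (by positivity)]
  calc ip f f ≤ _ := h2
    _ ≤ _ := h3
    _ = _ := by ring

lemma ret_sum_unbounded {e : ι → G} {t : ι → ℝ} {σ : ι ≃ ι} (hs : Sym e t σ)
    (ht : ∀ b, 0 ≤ t b) (hsum : 1 < ∑ b, t b) (hai : AlmostInv e) (C : ℝ) :
    ∃ n : ℕ, C < ∑ k ∈ range (n+1), ((Pw e t) ^ k) (Finsupp.single 1 1) 1 := by
  obtain ⟨c₀, hc₀, h⟩ := ret_lower hs ht hsum hai
  obtain ⟨J, hJ⟩ := exists_nat_gt (C / c₀)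
  refine ⟨2 ^ (J+1), ?_⟩
  have hsub : (range J).image (fun j => 2 ^ (j+1)) ⊆ range (2 ^ (J+1) + 1) := by
    intro k hk
    rw [mem_image] at hk
    obtain ⟨j, hj, rfl⟩ := hk
    rw [mem_range] at hj ⊢
    have : 2 ^ (j+1) ≤ 2 ^ (J+1) := Nat.pow_le_pow_right (by norm_num) (by omega)
    omega
  calc C < J * c₀ := by rwa [div_lt_iff₀ hc₀] at hJ
    _ = ∑ j ∈ range J, c₀ := by simp
    _ ≤ ∑ j ∈ range J, ((Pw e t) ^ (2 ^ (j+1))) (Finsupp.single 1 1) 1 :=
        Finset.sum_le_sum fun j _ => h j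
    _ = ∑ k ∈ (range J).image (fun j => 2 ^ (j+1)), ((Pw e t) ^ k) (Finsupp.single 1 1) 1 := by
        rw [Finset.sum_image]
        intro a _ b _ hab
        have := Nat.pow_right_injective (le_refl 2) hab
        omega
    _ ≤ _ := Finset.sum_le_sum_of_subset_of_nonneg hsub
        fun k _ _ => Pw_pow_nonneg ht k single_one_nonneg 1

/-- If there are no almost invariant vectors, the norm is small. -/
lemma gap_of_not {e : ι → G} (h : ¬ AlmostInv e) :
    ∃ c : ℝ, c < (Fintype.card ι : ℝ) ^ 2 ∧ 0 ≤ c ∧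
      ∀ f : G →₀ ℝ, ip (Pw e (fun _ => 1) f) (Pw e (fun _ => 1) f) ≤ c * ip f f := by
  classical
  unfold AlmostInv at h
  push Not at h
  obtain ⟨δ, hδ, h⟩ := h
  have key : ∀ f : G →₀ ℝ, ip (Pw e (fun _ => 1) f) (Pw e (fun _ => 1) f) ≤
      ((Fintype.card ι : ℝ) ^ 2 - δ) * ip f f := by
    intro f
    by_cases hf : f = 0
    · subst hf; simp [ip]
    obtain ⟨b₀, b₀', hb⟩ := h f hf
    rw [ip_Pw_Pw]
    simp only [one_mul]
    have hle : ∀ b b', ip (Lt (e b) f) (Lt (e b') f) ≤ ip f f := by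
      intro b b'
      have := ip_cs (Lt (e b) f) (Lt (e b') f)
      rw [ip_Lt_Lt, ip_Lt_Lt, ← pow_two] at this
      exact (abs_le_of_sq_le_sq' this (ip_self_nonneg f)).2
    have h2 : ∀ b b', ip (Lt (e b) f) (Lt (e b') f) ≤
        ip f f - (if b = b₀ then (if b' = b₀' then δ * ip f f else 0) else 0) := by
      intro b b'
      by_cases h1 : b = b₀
      · by_cases h2 : b' = b₀'
        · subst h1; subst h2
          simp only [if_true]
          linarith
        · rw [if_pos h1, if_neg h2]; simpa using hle b b'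
      · rw [if_neg h1]; simpa using hle b b'
    refine (Finset.sum_le_sum fun b _ => Finset.sum_le_sum fun b' _ => h2 b b').trans (le_of_eq ?_)
    simp only [Finset.sum_sub_distrib, Finset.sum_const, Finset.card_univ, nsmul_eq_mul]
    rw [Finset.sum_comm]
    simp
    ring
  refine ⟨(Fintype.card ι : ℝ) ^ 2 - δ, by linarith, ?_, key⟩
  have h1 := key (Finsupp.single 1 1)
  have h2 := ip_self_nonneg (Pw e (fun _ => 1) (Finsupp.single (1:G) (1:ℝ)))
  have h3 : ip (Finsupp.single (1:G) (1:ℝ)) (Finsupp.single 1 1) = 1 := by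
    rw [ip_single_left]; simp
  rw [h3] at h1
  linarith

lemma ret_upper {e : ι → G} {c : ℝ} (hc : 0 ≤ c)
    (h : ∀ f : G →₀ ℝ, ip (Pw e (fun _ => 1) f) (Pw e (fun _ => 1) f) ≤ c * ip f f) (n : ℕ) :
    ip (((Pw e (fun _ => 1)) ^ n) (Finsupp.single 1 1))
      (((Pw e (fun _ => 1)) ^ n) (Finsupp.single 1 1)) ≤ c ^ n := by
  induction n with
  | zero => simp [ip_single_left]
  | succ n ih =>
    rw [pow_succ', Module.End.mul_apply]
    refine (h _).trans ?_
    rw [pow_succ']
    exact mul_le_mul_of_nonneg_left ih hc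

lemma ret_upper' {e : ι → G} {c : ℝ} (hc : 0 ≤ c)
    (h : ∀ f : G →₀ ℝ, ip (Pw e (fun _ => 1) f) (Pw e (fun _ => 1) f) ≤ c * ip f f) (n : ℕ) :
    ((Pw e (fun _ => 1)) ^ n) (Finsupp.single 1 1) 1 ≤ (Real.sqrt c) ^ n := by
  have h1 := ret_upper hc h n
  have h2 := ip_cs (((Pw e (fun _ => 1)) ^ n) (Finsupp.single 1 1)) (Finsupp.single (1:G) (1:ℝ))
  rw [ip_single_right, one_mul] at h2
  have h3 : ip (Finsupp.single (1:G) (1:ℝ)) (Finsupp.single 1 1) = 1 := by
    rw [ip_single_left]; simp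
  rw [h3, mul_one] at h2
  have h4 : (((Pw e (fun _ => 1)) ^ n) (Finsupp.single (1:G) (1:ℝ)) 1) ^ 2 ≤
      ((Real.sqrt c) ^ n) ^ 2 := by
    rw [← pow_mul, mul_comm n 2, pow_mul, Real.sq_sqrt hc]
    exact h2.trans h1
  exact (abs_le_of_sq_le_sq' h4 (by positivity)).2

lemma Pw_const (e : ι → G) (t : ℝ) : Pw e (fun _ => t) = t • Pw e (fun _ => 1) := by
  unfold Pw
  rw [Finset.smul_sum]
  simp

lemma Pw_const_pow (e : ι → G) (t : ℝ) (n : ℕ) (f : G →₀ ℝ) (x : G) :
    ((Pw e (fun _ => t)) ^ n) f x = t ^ n * ((Pw e (fun _ => 1)) ^ n) f x := by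
  rw [Pw_const, smul_pow]
  simp

end General

section Free

variable {α : Type*} [DecidableEq α] [Fintype α] {Γ : Type*} [Group Γ] [DecidableEq Γ]

/-- the letters as elements of a group `Γ` via `π` -/
def eL (π : FreeGroup α →* Γ) (b : α × Bool) : Γ := π (FreeGroup.mk [b])

lemma sym_eL (π : FreeGroup α →* Γ) (t : α → ℝ) :
    Sym (eL π) (fun b : α × Bool => t b.1) invEquiv where
  inv b := by
    show π (FreeGroup.mk [inv b]) = (π (FreeGroup.mk [b]))⁻¹
    rw [← _root_.map_inv, mk_inv]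
  wt b := rfl

/-- partial Green function on the free group -/
noncomputable def Gr (t : α → ℝ) (n : ℕ) : FreeGroup α →₀ ℝ :=
  ∑ k ∈ range (n+1), ((Pw (eL (MonoidHom.id (FreeGroup α))) (fun b => t b.1)) ^ k)
    (Finsupp.single 1 1)

lemma Pw_free_apply (t : α → ℝ) (f : FreeGroup α →₀ ℝ) (w : FreeGroup α) :
    Pw (eL (MonoidHom.id (FreeGroup α))) (fun b => t b.1) f w =
      ∑ b : α × Bool, t b.1 * f (FreeGroup.mk [b] * w) := by
  rw [Pw_apply_apply]
  rw [← Equiv.sum_comp invEquiv]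
  refine Finset.sum_congr rfl fun b _ => ?_
  have : (eL (MonoidHom.id (FreeGroup α)) (invEquiv b))⁻¹ = FreeGroup.mk [b] := by
    show (FreeGroup.mk [inv b])⁻¹ = _
    rw [mk_inv, inv_inv]
  rw [this]
  rfl

lemma Gr_zero (t : α → ℝ) : Gr t 0 = Finsupp.single 1 1 := by
  unfold Gr; simp

lemma Gr_succ (t : α → ℝ) (n : ℕ) (w : FreeGroup α) :
    Gr t (n+1) w = (if w = 1 then 1 else 0) +
      ∑ b : α × Bool, t b.1 * Gr t n (FreeGroup.mk [b] * w) := by
  rw [← Pw_free_apply]
  have key : Pw (eL (MonoidHom.id (FreeGroup α))) (fun b => t b.1) (Gr t n) =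
      ∑ k ∈ range (n+1), ((Pw (eL (MonoidHom.id (FreeGroup α))) (fun b => t b.1)) ^ (k+1))
        (Finsupp.single 1 1) := by
    unfold Gr
    rw [_root_.map_sum]
    refine Finset.sum_congr rfl fun k _ => ?_
    rw [pow_succ', Module.End.mul_apply]
  rw [key]
  unfold Gr
  rw [Finset.sum_range_succ', Finsupp.add_apply, pow_zero, Module.End.one_apply, add_comm]
  congr 1
  rw [Finsupp.single_apply]; simp [eq_comm]

lemma mapDomain_Pw (π : FreeGroup α →* Γ) (t : α → ℝ) (f : FreeGroup α →₀ ℝ) :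
    Finsupp.mapDomain π (Pw (eL (MonoidHom.id (FreeGroup α))) (fun b => t b.1) f) =
      Pw (eL π) (fun b => t b.1) (Finsupp.mapDomain π f) := by
  rw [Pw_apply, Pw_apply, Finsupp.mapDomain_finsetSum]
  refine Finset.sum_congr rfl fun b _ => ?_
  rw [Finsupp.mapDomain_smul]
  congr 1
  unfold Lt
  rw [Finsupp.lmapDomain_apply, Finsupp.lmapDomain_apply, ← Finsupp.mapDomain_comp,
    ← Finsupp.mapDomain_comp]
  congr 1
  funext x
  simp [eL]

lemma mapDomain_Pw_pow (π : FreeGroup α →* Γ) (t : α → ℝ) (n : ℕ) (f : FreeGroup α →₀ ℝ) :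
    Finsupp.mapDomain π (((Pw (eL (MonoidHom.id (FreeGroup α))) (fun b => t b.1)) ^ n) f) =
      ((Pw (eL π) (fun b => t b.1)) ^ n) (Finsupp.mapDomain π f) := by
  induction n generalizing f with
  | zero => simp
  | succ n ih =>
    rw [pow_succ, Module.End.mul_apply, ih, mapDomain_Pw, ← Module.End.mul_apply, ← pow_succ]

lemma mapDomain_Gr (π : FreeGroup α →* Γ) (t : α → ℝ) (n : ℕ) :
    Finsupp.mapDomain π (Gr t n) =
      ∑ k ∈ range (n+1), ((Pw (eL π) (fun b => t b.1)) ^ k) (Finsupp.single 1 1) := by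
  unfold Gr
  rw [Finsupp.mapDomain_finsetSum]
  refine Finset.sum_congr rfl fun k _ => ?_
  rw [mapDomain_Pw_pow, Finsupp.mapDomain_single, _root_.map_one]

lemma mapDomain_apply_one (π : FreeGroup α →* Γ) (f : FreeGroup α →₀ ℝ) :
    (Finsupp.mapDomain π f) 1 = ∑ w ∈ f.support.filter (fun w => π w = 1), f w := by
  classical
  unfold Finsupp.mapDomain Finsupp.sum
  rw [Finsupp.finsetSum_apply, Finset.sum_filter]
  refine Finset.sum_congr rfl fun w _ => ?_
  rw [Finsupp.single_apply]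

lemma Gr_nonneg {t : α → ℝ} (ht : ∀ i, 0 ≤ t i) (n : ℕ) (w : FreeGroup α) : 0 ≤ Gr t n w := by
  unfold Gr
  rw [Finsupp.finsetSum_apply]
  refine Finset.sum_nonneg fun k _ => ?_
  exact Pw_pow_nonneg (e := eL (MonoidHom.id (FreeGroup α))) (t := fun b : α × Bool => t b.1)
    (fun b => ht b.1) k (f := Finsupp.single 1 1) single_one_nonneg w

/-- supersolution bound -/
lemma Gr_le {t y : α → ℝ} {K : ℝ} (ht : ∀ i, 0 ≤ t i) (hy : ∀ i, 0 < y i) (hK : 1 ≤ K)
    (h1 : ∀ i, t i / y i - t i * y i + 2 * ∑ j, t j * y j ≤ 1)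
    (h2 : 1 + K * (2 * ∑ j, t j * y j) ≤ K) (n : ℕ) (w : FreeGroup α) :
    Gr t n w ≤ K * mon y w := by
  induction n generalizing w with
  | zero =>
    rw [Gr_zero, Finsupp.single_apply]
    have := mon_pos hy w
    split_ifs with h
    · rw [← h]; simpa using hK
    · positivity
  | succ n ih =>
    rw [Gr_succ]
    have hsum : ∑ b : α × Bool, t b.1 * Gr t n (FreeGroup.mk [b] * w) ≤
        K * ∑ b : α × Bool, t b.1 * mon y (FreeGroup.mk [b] * w) := by
      rw [Finset.mul_sum]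
      refine Finset.sum_le_sum fun b _ => ?_
      have := mul_le_mul_of_nonneg_left (ih (FreeGroup.mk [b] * w)) (ht b.1)
      linarith
    by_cases hw : w = 1
    · subst hw
      rw [if_pos rfl]
      have : ∑ b : α × Bool, t b.1 * mon y (FreeGroup.mk [b] * 1) = 2 * ∑ j, t j * y j := by
        rw [← sum_letters (fun i => t i * y i)]
        exact Finset.sum_congr rfl fun b _ => by rw [mon_letter_one]
      rw [this] at hsum
      rw [mon_one]
      linarith
    · rw [if_neg hw]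
      obtain ⟨hd, tl, h⟩ := mk_letter_ne_one w hw
      rw [sum_mon t y (fun i => (hy i).ne') w h] at hsum
      have hm := mon_pos hy w
      have : (t hd.1 / y hd.1 - t hd.1 * y hd.1 + 2 * ∑ i, t i * y i) * mon y w ≤ 1 * mon y w :=
        mul_le_mul_of_nonneg_right (h1 hd.1) hm.le
      nlinarith

/-- Divergence of the weighted cogrowth series. -/
theorem divergence (π : FreeGroup α →* Γ) (hai : AlmostInv (eL π)) (y : α → ℝ)
    (hy0 : ∀ i, 0 < y i) (hy1 : ∀ i, y i < 1) (hy : 1 < ∑ i, 2 * y i / (1 + y i)) (C : ℝ) :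
    ∃ A : Finset (FreeGroup α), (∀ w ∈ A, π w = 1) ∧ C < ∑ w ∈ A, mon y w := by
  set V : ℝ := ∑ j, 2 * (y j) ^ 2 / (1 - (y j) ^ 2) with hV
  have hden : ∀ i, 0 < 1 - (y i) ^ 2 := by
    intro i
    have := hy0 i; have := hy1 i; nlinarith
  have hV0 : 0 ≤ V := Finset.sum_nonneg fun j _ => div_nonneg (by positivity) (hden j).le
  set t : α → ℝ := fun i => y i / ((1 - (y i) ^ 2) * (1 + V)) with ht
  have ht0 : ∀ i, 0 ≤ t i := fun i => div_nonneg (hy0 i).le (mul_nonneg (hden i).le (by linarith))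
  have hU : 2 * ∑ j, t j * y j = V / (1 + V) := by
    rw [hV, Finset.mul_sum, Finset.sum_div]
    refine Finset.sum_congr rfl fun j _ => ?_
    rw [← hV]
    simp only [ht]
    have := (hden j).ne'
    have : (1 + V) ≠ 0 := by linarith
    field_simp
  have h1 : ∀ i, t i / y i - t i * y i + 2 * ∑ j, t j * y j ≤ 1 := by
    intro i
    rw [hU]
    apply le_of_eq
    simp only [ht]
    have h3 := (hden i).ne'
    have h4 : (1 + V) ≠ 0 := by linarith
    have h5 := (hy0 i).ne'
    field_simp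
  have h2 : 1 + (1 + V) * (2 * ∑ j, t j * y j) ≤ 1 + V := by
    rw [hU]
    apply le_of_eq
    have h4 : (1 + V) ≠ 0 := by linarith
    field_simp
  have hsum : 1 < ∑ b : α × Bool, t b.1 := by
    rw [sum_letters t]
    have e1 : ∑ i, 2 * y i / (1 - (y i) ^ 2) = 2 * (∑ i, t i) * (1 + V) := by
      rw [Finset.mul_sum, Finset.sum_mul]
      refine Finset.sum_congr rfl fun j _ => ?_
      simp only [ht]
      have h3 := (hden j).ne'
      have h4 : (1 + V) ≠ 0 := by linarith
      field_simp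
    have e2 : ∑ i, 2 * y i / (1 - (y i) ^ 2) = ∑ i, 2 * y i / (1 + y i) + V := by
      rw [hV, ← Finset.sum_add_distrib]
      refine Finset.sum_congr rfl fun j _ => ?_
      have h3 := (hden j).ne'
      have h5 := hy0 j
      have h6 : (1 + y j) ≠ 0 := by positivity
      have h7 : 1 - (y j)^2 = (1 - y j) * (1 + y j) := by ring
      have h8 : (1 - y j) ≠ 0 := by have := hy1 j; linarith
      rw [h7]
      field_simp
      ring
    have e3 : 1 + V < 2 * (∑ i, t i) * (1 + V) := by rw [← e1, e2]; linarith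
    by_contra hcon
    push Not at hcon
    nlinarith
  obtain ⟨n, hn⟩ := ret_sum_unbounded (sym_eL π t) (fun b => ht0 b.1) hsum hai ((1 + V) * C)
  have hmap := congrArg (fun f => f 1) (mapDomain_Gr π t n)
  simp only [mapDomain_apply_one, Finsupp.finsetSum_apply] at hmap
  rw [← hmap] at hn
  refine ⟨(Gr t n).support.filter (fun w => π w = 1), fun w hw => (Finset.mem_filter.1 hw).2, ?_⟩
  have hle : ∑ w ∈ (Gr t n).support.filter (fun w => π w = 1), Gr t n w ≤
      (1 + V) * ∑ w ∈ (Gr t n).support.filter (fun w => π w = 1), mon y w := by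
    rw [Finset.mul_sum]
    exact Finset.sum_le_sum fun w _ => Gr_le ht0 hy0 (by linarith) h1 h2 n w
  have : (1 + V) * C < (1 + V) * ∑ w ∈ (Gr t n).support.filter (fun w => π w = 1), mon y w :=
    lt_of_lt_of_le hn hle
  exact lt_of_mul_lt_mul_left this (by linarith)

/-- exact asymptotics of the uniform Green function -/
lemma Gr_lower {t y z K ρ : ℝ} (ht : 0 ≤ t) (hy : 0 < y) (hyz : y ≤ z) (hz1 : z ≤ 1)
    (hK : 0 ≤ K) (hρ : 0 ≤ ρ)
    (h1 : t / y - t * y + 2 * (Fintype.card α * (t * y)) = 1)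
    (h2 : 1 + K * (2 * (Fintype.card α * (t * y))) = K)
    (h3 : t / z - t * z + 2 * (Fintype.card α * (t * z)) ≤ ρ) (n : ℕ) (w : FreeGroup α) :
    K * mon (fun _ => y) w - Gr (fun _ => t) n w ≤ K * ρ ^ n * mon (fun _ => z) w := by
  have hz : 0 < z := lt_of_lt_of_le hy hyz
  induction n generalizing w with
  | zero =>
    have e1 : 0 ≤ Gr (fun _ : α => t) 0 w := Gr_nonneg (fun _ => ht) 0 w
    have e2 : mon (fun _ : α => y) w ≤ mon (fun _ => z) w := by
      unfold mon
      simp only [List.map_const', List.prod_replicate]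
      exact pow_le_pow_left₀ hy.le hyz _
    have e3 := mul_le_mul_of_nonneg_left e2 hK
    simp only [pow_zero, mul_one]
    linarith
  | succ n ih =>
    rw [Gr_succ]
    have hsum : K * ∑ b : α × Bool, t * mon (fun _ => y) (FreeGroup.mk [b] * w) -
        ∑ b : α × Bool, t * Gr (fun _ => t) n (FreeGroup.mk [b] * w) ≤
        K * ρ ^ n * ∑ b : α × Bool, t * mon (fun _ => z) (FreeGroup.mk [b] * w) := by
      rw [Finset.mul_sum, Finset.mul_sum, ← Finset.sum_sub_distrib]
      refine Finset.sum_le_sum fun b _ => ?_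
      have := mul_le_mul_of_nonneg_left (ih (FreeGroup.mk [b] * w)) ht
      linarith
    by_cases hw : w = 1
    · subst hw
      rw [if_pos rfl]
      have hy' : ∀ u : ℝ, ∑ b : α × Bool, t * mon (fun _ => u) (FreeGroup.mk [b] * 1) =
          2 * (Fintype.card α * (t * u)) := by
        intro u
        have : ∑ i : α, t * u = Fintype.card α * (t * u) := by simp
        rw [← this, ← sum_letters (fun _ : α => t * u)]
        exact Finset.sum_congr rfl fun b _ => by rw [mon_letter_one]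
      rw [hy', hy'] at hsum
      rw [mon_one, mon_one]
      have h4 : 2 * (Fintype.card α * (t * z)) ≤ ρ := by
        have : 0 ≤ t / z - t * z := by
          rw [div_eq_mul_inv, ← mul_sub]
          apply mul_nonneg ht
          have : 1 ≤ z⁻¹ := (one_le_inv₀ hz).2 hz1
          linarith
        linarith
      have h5 : K * ρ ^ n * (2 * (Fintype.card α * (t * z))) ≤ K * ρ ^ n * ρ :=
        mul_le_mul_of_nonneg_left h4 (mul_nonneg hK (pow_nonneg hρ n))
      rw [pow_succ]
      linarith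
    · rw [if_neg hw]
      obtain ⟨hd, tl, h⟩ := mk_letter_ne_one w hw
      have hy' : ∀ u : ℝ, 0 < u → ∑ b : α × Bool, t * mon (fun _ => u) (FreeGroup.mk [b] * w) =
          (t / u - t * u + 2 * (Fintype.card α * (t * u))) * mon (fun _ => u) w := by
        intro u hu
        rw [sum_mon (fun _ => t) (fun _ => u) (fun _ => hu.ne') w h]
        simp
      rw [hy' y hy, hy' z hz, h1] at hsum
      have hm := mon_pos (fun _ : α => hz) w
      have h5 : K * ρ ^ n * ((t / z - t * z + 2 * (Fintype.card α * (t * z))) *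
          mon (fun _ => z) w) ≤ K * ρ ^ n * (ρ * mon (fun _ => z) w) := by
        apply mul_le_mul_of_nonneg_left _ (mul_nonneg hK (pow_nonneg hρ n))
        exact mul_le_mul_of_nonneg_right h3 hm.le
      rw [pow_succ]
      linarith

/-- If the cogrowth is maximal there are almost invariant vectors. -/
theorem almostInv_of_cogrowth (hcard : 2 ≤ Fintype.card α) (π : FreeGroup α →* Γ)
    (h : ∀ y : ℝ, 1 / (2 * (Fintype.card α : ℝ) - 1) < y → ∀ C : ℝ,
      ∃ A : Finset (FreeGroup α), (∀ w ∈ A, π w = 1) ∧ C < ∑ w ∈ A, mon (fun _ => y) w) :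
    AlmostInv (eL π) := by
  by_contra hcon
  obtain ⟨c, hcM, hc0, hc⟩ := gap_of_not hcon
  set M : ℝ := (Fintype.card (α × Bool) : ℝ) with hM
  have hM2 : M = 2 * Fintype.card α := by rw [hM]; simp [mul_comm]
  have hM4 : 4 ≤ M := by
    rw [hM2]
    have : (2:ℝ) ≤ Fintype.card α := by exact_mod_cast hcard
    linarith
  have hsc : Real.sqrt c < M := by
    rw [Real.sqrt_lt' (by linarith)]
    exact hcM
  -- choose y
  have hcont : ContinuousAt (fun y : ℝ => y / (1 + (M - 1) * y ^ 2) * Real.sqrt c) (1 / (M - 1)) := by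
    apply ContinuousAt.mul _ continuousAt_const
    apply ContinuousAt.div continuousAt_id (by fun_prop)
    have : 0 ≤ (M - 1) * (1 / (M-1)) ^ 2 := mul_nonneg (by linarith) (by positivity)
    linarith
  have hval : (fun y : ℝ => y / (1 + (M - 1) * y ^ 2) * Real.sqrt c) (1 / (M - 1)) < 1 := by
    have h1 : M - 1 ≠ 0 := by linarith
    have h2 : (1 / (M-1)) / (1 + (M - 1) * (1 / (M-1)) ^ 2) = 1 / M := by
      have h3 : M ≠ 0 := by linarith
      have h4 : 1 + (M - 1) * (1 / (M-1)) ^ 2 = M / (M - 1) := by field_simp; ring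
      rw [h4]; field_simp
    simp only [h2]
    rw [div_mul_eq_mul_div, one_mul, div_lt_one (by linarith)]
    exact hsc
  have hev : ∀ᶠ y in nhdsWithin (1 / (M - 1)) (Set.Ioi (1 / (M-1))),
      y / (1 + (M - 1) * y ^ 2) * Real.sqrt c < 1 ∧ y < 1 / 2 ∧ y < 2 / (M - 1) ∧ 1 / (M-1) < y := by
    have e1 := (hcont.eventually_lt continuousAt_const hval).filter_mono
      (nhdsWithin_le_nhds (s := Set.Ioi (1 / (M-1))))
    have e2 : ∀ᶠ y in nhdsWithin (1 / (M - 1)) (Set.Ioi (1 / (M-1))), y < 1 / 2 := by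
      apply (eventually_lt_nhds (b := (1:ℝ)/2) _).filter_mono nhdsWithin_le_nhds
      rw [div_lt_div_iff₀ (by linarith) (by norm_num)]; linarith
    have e3 : ∀ᶠ y in nhdsWithin (1 / (M - 1)) (Set.Ioi (1 / (M-1))), y < 2 / (M - 1) := by
      apply (eventually_lt_nhds (b := 2 / (M-1)) _).filter_mono nhdsWithin_le_nhds
      rw [div_lt_div_iff_of_pos_right (by linarith)]; norm_num
    filter_upwards [e1, e2, e3, self_mem_nhdsWithin] with y h1 h2 h3 h4
    exact ⟨h1, h2, h3, h4⟩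
  obtain ⟨y, hy1, hy2, hy3, hy4⟩ := hev.exists
  have hy0 : 0 < y := lt_trans (by apply div_pos one_pos; linarith) hy4
  set t : ℝ := y / (1 + (M - 1) * y ^ 2) with ht
  have hd0 : 0 < 1 + (M - 1) * y ^ 2 := by nlinarith [sq_nonneg y]
  have ht0 : 0 < t := div_pos hy0 hd0
  set K : ℝ := (1 + (M - 1) * y ^ 2) / (1 - y ^ 2) with hK
  have hd1 : 0 < 1 - y ^ 2 := by nlinarith
  have hK0 : 0 < K := div_pos hd0 hd1
  have hcardM : ∀ u : ℝ, 2 * (Fintype.card α * u) = M * u := by intro u; rw [hM2]; ring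
  set ρ : ℝ := t / (1/2) - t * (1/2) + 2 * (Fintype.card α * (t * (1/2))) with hρ
  have h1 : t / y - t * y + 2 * (Fintype.card α * (t * y)) = 1 := by
    have hne := hd0.ne'
    have e1 : t / y - t * y + M * (t * y) = t * (1 + (M - 1) * y ^ 2) / y := by
      field_simp; ring
    rw [hcardM, e1, ht, div_mul_cancel₀ _ hne, div_self hy0.ne']
  have h2 : 1 + K * (2 * (Fintype.card α * (t * y))) = K := by
    have hne := hd0.ne'
    have e1 : t * (1 + (M - 1) * y ^ 2) = y := by rw [ht, div_mul_cancel₀ _ hne]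
    have e2 : K * (1 - y ^ 2) = 1 + (M - 1) * y ^ 2 := by rw [hK, div_mul_cancel₀ _ hd1.ne']
    have e3 : K * (1 - y ^ 2) * t = y := by rw [e2, mul_comm]; exact e1
    rw [hcardM]
    have e4 : (1 + K * (M * (t * y)) - K) * (1 - y ^ 2) = 0 := by
      have : (1 + K * (M * (t * y)) - K) * (1 - y ^ 2) =
        (1 - y ^ 2) + M * y * (K * (1 - y ^ 2) * t) - K * (1 - y ^ 2) := by ring
      rw [this, e3, e2]; ring
    have e5 := (mul_eq_zero.1 e4).resolve_right hd1.ne'
    linarith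
  have hρ0 : 0 ≤ ρ := by
    rw [hρ, hcardM]; nlinarith
  have hρ1 : ρ < 1 := by
    have h1' := h1
    rw [hcardM] at h1'
    rw [hρ, hcardM]
    have e8 : t / y = t * (1 / y) := by ring
    have h3 : t / (1/2) = t * 2 := by ring
    rw [e8] at h1'
    rw [h3]
    have key : 2 + (M - 1) * (1/2) < 1 / y + (M - 1) * y := by
      have h5 : (M - 1) * y < 2 := by
        rw [lt_div_iff₀ (by linarith)] at hy3; linarith
      have h6 : 1 / y + (M - 1) * y - (2 + (M - 1) * (1/2)) =
          (1/2 - y) * (2 - (M - 1) * y) / y := by field_simp; ring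
      have h7 : 0 < (1/2 - y) * (2 - (M - 1) * y) / y :=
        div_pos (mul_pos (by linarith) (by linarith)) hy0
      linarith
    nlinarith
  -- the return sums are bounded
  have hq : t * Real.sqrt c < 1 := hy1
  have hq0 : 0 ≤ t * Real.sqrt c := mul_nonneg ht0.le (Real.sqrt_nonneg c)
  have hbound : ∀ n, ∑ w ∈ (Gr (fun _ : α => t) n).support.filter (fun w => π w = 1),
      Gr (fun _ => t) n w ≤ 1 / (1 - t * Real.sqrt c) := by
    intro n
    rw [← mapDomain_apply_one, mapDomain_Gr, Finsupp.finsetSum_apply]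
    have : ∀ k ∈ range (n+1), (((Pw (eL π) (fun b : α × Bool => t)) ^ k)
        (Finsupp.single 1 1)) 1 ≤ (t * Real.sqrt c) ^ k := by
      intro k _
      rw [Pw_const_pow, mul_pow]
      exact mul_le_mul_of_nonneg_left (ret_upper' hc0 hc k) (pow_nonneg ht0.le k)
    refine (Finset.sum_le_sum this).trans ?_
    rw [one_div, ← tsum_geometric_of_lt_one hq0 hq]
    exact (summable_geometric_of_lt_one hq0 hq).sum_le_tsum _ (fun k _ => pow_nonneg hq0 k)
  -- contradiction
  obtain ⟨A, hA1, hA2⟩ := h y (by rw [← hM2]; exact hy4) (1 / (1 - t * Real.sqrt c) / K)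
  have hfin : ∀ n, K * ∑ w ∈ A, mon (fun _ => y) w ≤ 1 / (1 - t * Real.sqrt c) +
      ρ ^ n * (K * ∑ w ∈ A, mon (fun _ => 1/2) w) := by
    intro n
    have e1 : K * ∑ w ∈ A, mon (fun _ => y) w ≤ ∑ w ∈ A, Gr (fun _ => t) n w +
        ρ ^ n * (K * ∑ w ∈ A, mon (fun _ => 1/2) w) := by
      rw [Finset.mul_sum, Finset.mul_sum, Finset.mul_sum, ← Finset.sum_add_distrib]
      refine Finset.sum_le_sum fun w _ => ?_
      have := Gr_lower (α := α) ht0.le hy0 hy2.le (by norm_num) hK0.le hρ0 h1 h2 le_rfl n w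
      linarith
    have e2 : ∑ w ∈ A, Gr (fun _ => t) n w ≤
        ∑ w ∈ (Gr (fun _ : α => t) n).support.filter (fun w => π w = 1),
          Gr (fun _ => t) n w := by
      rw [← Finset.sum_filter_add_sum_filter_not A (fun w => w ∈ (Gr (fun _ : α => t) n).support)]
      have e3 : ∑ w ∈ A.filter (fun w => w ∉ (Gr (fun _ : α => t) n).support),
          Gr (fun _ => t) n w = 0 := by
        apply Finset.sum_eq_zero
        intro w hw
        rw [Finset.mem_filter] at hw
        exact Finsupp.notMem_support_iff.1 hw.2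
      rw [e3, add_zero]
      apply Finset.sum_le_sum_of_subset_of_nonneg
      · intro w hw
        rw [Finset.mem_filter] at hw ⊢
        exact ⟨hw.2, hA1 w hw.1⟩
      · intro w _ _
        exact Gr_nonneg (fun _ => ht0.le) n w
    linarith [hbound n]
  have hlim : Filter.Tendsto (fun n : ℕ => 1 / (1 - t * Real.sqrt c) +
      ρ ^ n * (K * ∑ w ∈ A, mon (fun _ => 1/2) w)) Filter.atTop
      (nhds (1 / (1 - t * Real.sqrt c) + 0 * (K * ∑ w ∈ A, mon (fun _ => 1/2) w))) :=
    ((tendsto_pow_atTop_nhds_zero_of_lt_one hρ0 hρ1).mul_const _).const_add _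
  have hle := ge_of_tendsto' hlim hfin
  rw [zero_mul, add_zero] at hle
  rw [div_lt_iff₀ hK0] at hA2
  linarith

end Free

end Pool.Agent.H26.Cogrowth
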