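import Pool.Agent.H26.CogrowthMain

set_option linter.unusedSectionVars false

namespace Pool.Agent.H26.Cogrowth

open Finset Filter

variable {m : ℕ}

/-- Almost invariant vectors imply equality in all directions. -/
theorem psi_eq_of_almostInv (hm : 2 ≤ m) (N : Subgroup (FreeGroup (Fin m))) [N.Normal]
    (hai : AlmostInv (eL (QuotientGroup.mk' N))) (r : Fin m → ℝ)
    (hr : r ∈ stdSimplex ℝ (Fin m)) : psi N r = psi ⊤ r := by
  classical
  apply psi_eq_of_div hm N _ r hr
  intro y hy0 hy1 hy C
  obtain ⟨A, hA1, hA2⟩ := divergence (QuotientGroup.mk' N) hai y hy0 hy1 hy C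
  refine ⟨A, fun w hw => ?_, hA2⟩
  have := hA1 w hw
  rwa [QuotientGroup.mk'_apply, QuotientGroup.eq_one_iff] at this

/-- Maximal cogrowth in some direction gives almost invariant vectors. -/
theorem almostInv_of_psi (hm : 2 ≤ m) (N : Subgroup (FreeGroup (Fin m))) [N.Normal]
    (r : Fin m → ℝ) (h : ((Real.log (2 * m - 1) : ℝ) : EReal) ≤ psi N r) :
    AlmostInv (eL (QuotientGroup.mk' N)) := by
  classical
  apply almostInv_of_cogrowth (by simpa using hm)
  intro y hy C
  by_contra hcon
  push Not at hcon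
  rw [Fintype.card_fin] at hy
  have hm2 : (2:ℝ) ≤ m := by exact_mod_cast hm
  have hden : (0:ℝ) < 2 * m - 1 := by linarith
  set z : ℝ := min y (2/3) with hz
  have hz1 : 1 / (2 * (m:ℝ) - 1) < z := by
    rw [hz, lt_min_iff]
    refine ⟨hy, ?_⟩
    rw [div_lt_div_iff₀ hden (by norm_num)]; linarith
  have hz0 : 0 < z := lt_trans (by positivity) hz1
  have hzy : z ≤ y := min_le_left _ _
  have hzl : z ≤ 2/3 := min_le_right _ _
  have hbd : ∀ A : Finset (FreeGroup (Fin m)), (∀ w ∈ A, w ∈ N) →
      ∑ w ∈ A, mon (fun _ => z) w ≤ C := by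
    intro A hA
    refine le_trans (Finset.sum_le_sum fun w _ => ?_) (hcon A fun w hw => ?_)
    · unfold mon
      simp only [List.map_const', List.prod_replicate]
      exact pow_le_pow_left₀ hz0.le hzy _
    · rw [QuotientGroup.mk'_apply, QuotientGroup.eq_one_iff]; exact hA w hw
  set a : ℝ := -Real.log z with ha
  have ha0 : 0 < a := by
    rw [ha]
    have := Real.log_neg hz0 (by linarith)
    linarith
  have hmon : ∀ w : FreeGroup (Fin m), mon (fun _ => z) w = Real.exp (-(a * w.toWord.length)) := by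
    intro w
    unfold mon
    simp only [List.map_const', List.prod_replicate]
    rw [ha, neg_mul, neg_neg, mul_comm, Real.exp_nat_mul, Real.exp_log hz0]
  have htau : tau N Set.univ ≤ a := by
    apply tau_le N Set.univ a ((|C| + 1) * Real.exp a) (by positivity)
    intro R hR A hA
    have h1 := hbd A (fun w hw => (hA w hw).1)
    have h2 : ∀ w ∈ A, Real.exp (-(a * (R + 1))) ≤ mon (fun _ => z) w := by
      intro w hw
      rw [hmon, Real.exp_le_exp]
      have := (hA w hw).2.2.1
      nlinarith
    have h3 : (A.card : ℝ) * Real.exp (-(a * (R + 1))) ≤ |C| + 1 := by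
      have h4 := Finset.card_nsmul_le_sum A _ _ h2
      rw [nsmul_eq_mul] at h4
      have := le_abs_self C
      linarith
    rw [Real.exp_neg, ← div_eq_mul_inv, div_le_iff₀ (Real.exp_pos _)] at h3
    rw [mul_assoc, ← Real.exp_add]
    have : a + a * R = a * (R + 1) := by ring
    rw [this]
    exact h3
  have hcone : IsOpenCone (Set.univ : Set (Fin m → ℝ)) := ⟨isOpen_univ, fun _ _ _ _ => trivial⟩
  have h5 : psi N r ≤ tau N Set.univ := iInf₂_le _ ⟨hcone, Set.mem_univ r⟩
  have h6 : ((Real.log (2 * m - 1) : ℝ) : EReal) ≤ (a : EReal) := h.trans (h5.trans htau)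
  have h7 : Real.log (2 * m - 1) ≤ a := by exact_mod_cast h6
  have h8 : a < Real.log (2 * m - 1) := by
    rw [ha, ← Real.log_inv]
    apply Real.log_lt_log (by positivity)
    rw [one_div] at hz1
    exact inv_lt_of_inv_lt₀ hden hz1
  linarith

end Pool.Agent.H26.Cogrowth
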