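import Pool.Agent.H26.CogrowthTau
import Pool.Agent.H26.CogrowthDiv

set_option linter.unusedSectionVars false

namespace Pool.Agent.H26.Cogrowth

open Finset Filter

variable {m : ℕ}

lemma sum_le_geom {q K : ℝ} (hq0 : 0 < q) (hq1 : q < 1) (hK : 0 ≤ K)
    (g : FreeGroup (Fin m) → ℝ) (P : FreeGroup (Fin m) → Prop)
    (h : ∀ n : ℕ, ∀ B : Finset (FreeGroup (Fin m)),
      (∀ w ∈ B, P w ∧ w.toWord.length = n) → ∑ w ∈ B, g w ≤ K * q ^ n)
    (A : Finset (FreeGroup (Fin m))) (hA : ∀ w ∈ A, P w) : ∑ w ∈ A, g w ≤ K / (1 - q) := by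
  have h1 : ∑ w ∈ A, g w = ∑ n ∈ A.image (fun w => w.toWord.length),
      ∑ w ∈ A.filter (fun w => w.toWord.length = n), g w := by
    rw [Finset.sum_fiberwise_of_maps_to]
    intro w hw
    exact Finset.mem_image_of_mem _ hw
  rw [h1]
  calc _ ≤ ∑ n ∈ A.image (fun w => w.toWord.length), K * q ^ n := by
        refine Finset.sum_le_sum fun n _ => h n _ ?_
        intro w hw
        rw [Finset.mem_filter] at hw
        exact ⟨hA w hw.1, hw.2⟩
    _ = K * ∑ n ∈ A.image (fun w => w.toWord.length), q ^ n := by rw [Finset.mul_sum]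
    _ ≤ K * ∑' n : ℕ, q ^ n := by
        apply mul_le_mul_of_nonneg_left _ hK
        exact (summable_geometric_of_lt_one hq0.le hq1).sum_le_tsum _
          (fun n _ => pow_nonneg hq0.le n)
    _ = K / (1 - q) := by rw [tsum_geometric_of_lt_one hq0.le hq1]; rfl

lemma perturb (z : Fin m → ℝ) (hz : ∀ i, 0 < z i) (v : Fin m → ℝ)
    (hv : ∑ j, v j * (2 * z j / (1 + z j) ^ 2) < 0) :
    ∃ η : ℝ, 0 < η ∧ hfun (fun j => z j * Real.exp (η * v j)) ≤ hfun z := by
  set D := ∑ j, v j * (2 * z j / (1 + z j) ^ 2) with hD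
  set f : ℝ → ℝ := fun η => hfun (fun j => z j * Real.exp (η * v j)) with hf
  have hd : HasDerivAt f D 0 := by
    rw [hf, hD]
    unfold hfun
    apply HasDerivAt.fun_sum
    intro j _
    have h0 : HasDerivAt (fun η : ℝ => Real.exp (η * v j)) (Real.exp (0 * v j) * (1 * v j)) 0 :=
      ((hasDerivAt_id (0:ℝ)).mul_const (v j)).exp
    have h1 : HasDerivAt (fun η : ℝ => z j * Real.exp (η * v j))
        (z j * (Real.exp (0 * v j) * (1 * v j))) 0 := h0.const_mul (z j)
    have h2 := (h1.const_mul 2).div (h1.const_add 1) (by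
      have := hz j
      positivity)
    refine h2.congr_deriv ?_
    have := hz j
    have h3 : 1 + z j ≠ 0 := by positivity
    simp only [zero_mul, Real.exp_zero, mul_one, one_mul]
    field_simp
    ring
  have h1 := hasDerivAt_iff_tendsto_slope.1 hd
  have h2 : ∀ᶠ η in nhdsWithin (0:ℝ) {0}ᶜ, slope f 0 η < 0 := h1.eventually (eventually_lt_nhds hv)
  have h3 : ∀ᶠ η in nhdsWithin (0:ℝ) (Set.Ioi 0), slope f 0 η < 0 := by
    apply h2.filter_mono
    apply nhdsWithin_mono
    intro x hx
    simp only [Set.mem_Ioi] at hx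
    exact hx.ne'
  have h4 := h3.and self_mem_nhdsWithin
  obtain ⟨η, hη1, hη2⟩ := h4.exists
  have hη2 : 0 < η := hη2
  refine ⟨η, hη2, ?_⟩
  rw [slope_def_field, sub_zero, div_lt_iff₀ hη2, zero_mul] at hη1
  have hf0 : f 0 = hfun z := by
    rw [hf]; simp
  have : f η ≤ f 0 := by linarith
  rw [hf0] at this
  exact this

/-- Lower bound in interior directions. -/
theorem tau_ge_interior (hm : 2 ≤ m) (N : Subgroup (FreeGroup (Fin m))) (lam r : Fin m → ℝ)
    (κ : ℝ) (hκ : 0 < κ) (hlam : ∀ i, 0 < lam i)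
    (hz1 : hfun (fun i => Real.exp (-lam i)) = 1)
    (hrκ : ∀ i, κ * r i = 2 * Real.exp (-lam i) / (1 + Real.exp (-lam i)) ^ 2)
    (hr : ∑ i, r i = 1)
    (hdiv : ∀ y : Fin m → ℝ, (∀ i, 0 < y i) → (∀ i, y i < 1) → 1 < ∑ i, 2 * y i / (1 + y i) →
      ∀ C : ℝ, ∃ A : Finset (FreeGroup (Fin m)), (∀ w ∈ A, w ∈ N) ∧ C < ∑ w ∈ A, mon y w)
    (C : Set (Fin m → ℝ)) (hC : IsOpenCone C) (hrC : r ∈ C) :
    ((∑ i, lam i * r i : ℝ) : EReal) ≤ tau N C := by
  set L : ℝ := ∑ i, lam i * r i with hL
  by_contra hcon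
  push Not at hcon
  obtain ⟨a, ha1, ha2⟩ := EReal.lt_iff_exists_real_btwn.1 hcon
  have ha2 : a < L := by exact_mod_cast ha2
  set ε : ℝ := (L - a) / 2 with hε
  have hε0 : 0 < ε := by rw [hε]; linarith
  obtain ⟨n₁, hn₁⟩ := eventually_card_le N C a ha1
  set n₀ := max n₁ 1 with hn₀
  have hm0 : (0:ℝ) < m := by exact_mod_cast (by omega : 0 < m)
  have : Nonempty (Fin m) := ⟨⟨0, by omega⟩⟩
  -- the neighbourhood
  have hU : IsOpen (C ∩ {x | L - ε < ∑ i, lam i * x i}) := by
    apply hC.1.inter
    apply isOpen_lt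
    · fun_prop
    · fun_prop
  have hrU : r ∈ C ∩ {x | L - ε < ∑ i, lam i * x i} := ⟨hrC, by
    simp only [Set.mem_ofPred_eq, ← hL]; linarith⟩
  obtain ⟨ρ, hρ, hball⟩ := Metric.isOpen_iff.1 hU r hrU
  set δ : ℝ := ρ / m with hδ
  have hδ0 : 0 < δ := by positivity
  have hmδ : m * δ = ρ := by rw [hδ]; field_simp
  have hgood : ∀ w : FreeGroup (Fin m), 0 < w.toWord.length →
      (∀ i, wp w i < (r i + δ) * w.toWord.length) →
      wp w ∈ C ∧ (L - ε) * w.toWord.length < ∑ i, lam i * wp w i := by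
    intro w hw hlt
    set n : ℝ := (w.toWord.length : ℝ) with hn
    have hn0 : 0 < n := by rw [hn]; exact_mod_cast hw
    set x : Fin m → ℝ := n⁻¹ • wp w with hx
    have hxi : ∀ i, x i - r i < δ := by
      intro i
      have := hlt i
      simp only [hx, Pi.smul_apply, smul_eq_mul]
      rw [inv_mul_eq_div, sub_lt_iff_lt_add, div_lt_iff₀ hn0]
      linarith
    have hsum : ∑ i, (x i - r i) = 0 := by
      rw [Finset.sum_sub_distrib, hr]
      simp only [hx, Pi.smul_apply, smul_eq_mul]
      rw [← Finset.mul_sum, sum_wp, ← hn, inv_mul_cancel₀ hn0.ne', sub_self]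
    have hxball : x ∈ Metric.ball r ρ := by
      rw [Metric.mem_ball, dist_pi_lt_iff hρ]
      intro i
      rw [Real.dist_eq, abs_lt]
      constructor
      · have h1 := Finset.add_sum_erase Finset.univ (fun i => x i - r i) (Finset.mem_univ i)
        simp only [hsum] at h1
        have h2 : ∑ j ∈ Finset.univ.erase i, (x j - r j) ≤ ∑ j ∈ Finset.univ.erase i, δ :=
          Finset.sum_le_sum fun j _ => (hxi j).le
        rw [Finset.sum_const, nsmul_eq_mul, Finset.card_erase_of_mem (Finset.mem_univ i),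
          Finset.card_univ, Fintype.card_fin, Nat.cast_sub (by omega)] at h2
        simp only [Nat.cast_one] at h2
        have : (m - 1 : ℝ) * δ < ρ := by rw [← hmδ]; linarith
        linarith
      · have h1 := hxi i
        have h2 : δ ≤ ρ := by
          rw [← hmδ]
          have : (1:ℝ) ≤ m := by exact_mod_cast (by omega : 1 ≤ m)
          nlinarith
        linarith
    obtain ⟨hxC, hxL⟩ := hball hxball
    have hwx : wp w = n • x := by rw [hx, smul_smul, mul_inv_cancel₀ hn0.ne', one_smul]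
    constructor
    · rw [hwx]; exact hC.2 x hxC n hn0
    · simp only [Set.mem_ofPred_eq] at hxL
      have : ∑ i, lam i * wp w i = n * ∑ i, lam i * x i := by
        rw [Finset.mul_sum]
        refine Finset.sum_congr rfl fun i _ => ?_
        rw [hwx]; simp only [Pi.smul_apply, smul_eq_mul]; ring
      rw [this]
      nlinarith
  -- perturbations
  have hpert : ∀ i : Fin m, ∃ η : ℝ, 0 < η ∧ hfun (fun j => Real.exp (-lam j) *
      Real.exp (η * ((if j = i then 1 else 0) - (r i + δ / 2)))) ≤ 1 := by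
    intro i
    obtain ⟨η, h1, h2⟩ := perturb (fun j => Real.exp (-lam j)) (fun j => Real.exp_pos _)
      (fun j => (if j = i then 1 else 0) - (r i + δ / 2)) (by
        have e1 : ∀ j, ((if j = i then (1:ℝ) else 0) - (r i + δ / 2)) *
            (2 * Real.exp (-lam j) / (1 + Real.exp (-lam j)) ^ 2) =
            (if j = i then κ * r j else 0) - (r i + δ / 2) * κ * r j := by
          intro j
          rw [← hrκ j]
          split_ifs <;> ring
        rw [Finset.sum_congr rfl (fun j _ => e1 j), Finset.sum_sub_distrib, Finset.sum_ite_eq',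
          if_pos (Finset.mem_univ _), ← Finset.mul_sum, hr]
        nlinarith)
    exact ⟨η, h1, h2.trans hz1.le⟩
  choose η hη0 hη using hpert
  have hbad : ∀ (i : Fin m) (n : ℕ) (B : Finset (FreeGroup (Fin m))),
      (∀ w ∈ B, w.toWord.length = n ∧ (r i + δ) * n ≤ wp w i) →
      ∑ w ∈ B, mon (fun i => Real.exp (-lam i)) w ≤ 2 * Real.exp (-(η i * δ / 2) * n) := by
    intro i n B hB
    have e0 : (fun j => Real.exp (-lam j) *
        Real.exp (η i * ((if j = i then 1 else 0) - (r i + δ / 2)))) =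
        fun j => Real.exp (-(lam j - η i * ((if j = i then 1 else 0) - (r i + δ / 2)))) := by
      funext j
      rw [← Real.exp_add]; congr 1; ring
    have h1 := hη i
    rw [e0] at h1
    have h2 := sphere_bound (z := fun j => Real.exp (-(lam j - η i *
      ((if j = i then 1 else 0) - (r i + δ / 2))))) (fun j => Real.exp_pos _) h1 n B
      (fun w hw => (hB w hw).1)
    have h3 : ∀ w ∈ B, mon (fun i => Real.exp (-lam i)) w ≤ Real.exp (-(η i * δ / 2) * n) *
        mon (fun j => Real.exp (-(lam j - η i * ((if j = i then 1 else 0) - (r i + δ / 2))))) w := by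
      intro w hw
      obtain ⟨hw1, hw2⟩ := hB w hw
      rw [mon_exp, mon_exp (fun j => lam j - η i * ((if j = i then 1 else 0) - (r i + δ / 2))),
        ← Real.exp_add, Real.exp_le_exp]
      have e1 : ∑ j, (lam j - η i * ((if j = i then 1 else 0) - (r i + δ / 2))) * wp w j =
          ∑ j, lam j * wp w j - η i * (wp w i - (r i + δ / 2) * n) := by
        have : ∀ j, (lam j - η i * ((if j = i then 1 else 0) - (r i + δ / 2))) * wp w j =
            lam j * wp w j - (if j = i then η i * wp w j else 0) +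
              η i * (r i + δ / 2) * wp w j := by
          intro j; split_ifs <;> ring
        rw [Finset.sum_congr rfl (fun j _ => this j), Finset.sum_add_distrib,
          Finset.sum_sub_distrib, Finset.sum_ite_eq', if_pos (Finset.mem_univ _),
          ← Finset.mul_sum, sum_wp, hw1]
        ring
      rw [e1]
      have := hη0 i
      nlinarith
    calc _ ≤ ∑ w ∈ B, Real.exp (-(η i * δ / 2) * n) *
        mon (fun j => Real.exp (-(lam j - η i * ((if j = i then 1 else 0) - (r i + δ / 2))))) w :=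
          Finset.sum_le_sum h3
      _ ≤ _ := by
          rw [← Finset.mul_sum, mul_comm]
          exact mul_le_mul_of_nonneg_right h2 (Real.exp_pos _).le
  -- the constants
  set θ : ℝ := min ε (min (Finset.univ.inf' Finset.univ_nonempty (fun i => η i * δ / 2))
    (Finset.univ.inf' Finset.univ_nonempty lam)) with hθ
  have hθ0 : 0 < θ := by
    rw [hθ, lt_min_iff, lt_min_iff]
    refine ⟨hε0, ?_, ?_⟩
    · rw [Finset.lt_inf'_iff]
      intro i _
      have := hη0 i
      positivity
    · rw [Finset.lt_inf'_iff]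
      intro i _
      exact hlam i
  have hθε : θ ≤ ε := min_le_left _ _
  have hθη : ∀ i, θ ≤ η i * δ / 2 := fun i =>
    (min_le_right _ _).trans ((min_le_left _ _).trans (Finset.inf'_le _ (Finset.mem_univ i)))
  have hθlam : ∀ i, θ ≤ lam i := fun i =>
    (min_le_right _ _).trans ((min_le_right _ _).trans (Finset.inf'_le _ (Finset.mem_univ i)))
  set σ : ℝ := θ / 2 with hσ
  have hσ0 : 0 < σ := by positivity
  set y : Fin m → ℝ := fun i => Real.exp (-(lam i - σ)) with hy
  have hy0 : ∀ i, 0 < y i := fun i => Real.exp_pos _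
  have hy1 : ∀ i, y i < 1 := by
    intro i
    rw [hy]
    simp only
    rw [Real.exp_lt_one_iff]
    have := hθlam i
    linarith
  have hyh : 1 < ∑ i, 2 * y i / (1 + y i) := by
    refine lt_of_eq_of_lt hz1.symm ?_
    unfold hfun
    apply Finset.sum_lt_sum_of_nonempty Finset.univ_nonempty
    intro i _
    have h1 : Real.exp (-lam i) < y i := by
      rw [hy]; simp only; rw [Real.exp_lt_exp]; linarith
    have h2 := Real.exp_pos (-lam i)
    rw [div_lt_div_iff₀ (by positivity) (by linarith [hy0 i])]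
    nlinarith
  have hmony : ∀ w : FreeGroup (Fin m), mon y w =
      Real.exp (σ * w.toWord.length) * mon (fun i => Real.exp (-lam i)) w := by
    intro w
    rw [hy, mon_exp (fun i => lam i - σ), mon_exp, ← Real.exp_add]
    congr 1
    rw [← sum_wp, Finset.mul_sum, ← Finset.sum_neg_distrib, ← Finset.sum_neg_distrib,
      ← Finset.sum_add_distrib]
    exact Finset.sum_congr rfl fun i _ => by ring
  set q : ℝ := Real.exp (-(θ - σ)) with hq
  have hq0 : 0 < q := Real.exp_pos _
  have hq1 : q < 1 := by rw [hq, Real.exp_lt_one_iff]; linarith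
  have hqn : ∀ n : ℕ, q ^ n = Real.exp (-(θ - σ) * n) := by
    intro n; rw [hq, ← Real.exp_nat_mul]; congr 1; ring
  set K : ℝ := (1 + 2 * m) + 2 * Real.exp (θ * n₀) with hK
  have hK0 : 0 ≤ K := by positivity
  have hmain : ∀ n : ℕ, ∀ B : Finset (FreeGroup (Fin m)),
      (∀ w ∈ B, w ∈ N ∧ w.toWord.length = n) → ∑ w ∈ B, mon y w ≤ K * q ^ n := by
    intro n B hB
    have e1 : ∑ w ∈ B, mon y w =
        Real.exp (σ * n) * ∑ w ∈ B, mon (fun i => Real.exp (-lam i)) w := by
      rw [Finset.mul_sum]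
      refine Finset.sum_congr rfl fun w hw => ?_
      rw [hmony, (hB w hw).2]
    by_cases hn : n < n₀
    · have h2 := sphere_bound (z := fun j => Real.exp (-lam j)) (fun j => Real.exp_pos _) hz1.le n B
        (fun w hw => (hB w hw).2)
      rw [e1]
      calc _ ≤ Real.exp (σ * n) * 2 := mul_le_mul_of_nonneg_left h2 (Real.exp_pos _).le
        _ ≤ (2 * Real.exp (θ * n₀)) * q ^ n := by
            rw [hqn, mul_assoc, ← Real.exp_add, mul_comm]
            apply mul_le_mul_of_nonneg_left _ (by norm_num)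
            rw [Real.exp_le_exp]
            have : (n:ℝ) ≤ n₀ := by exact_mod_cast hn.le
            nlinarith
        _ ≤ K * q ^ n := by
            apply mul_le_mul_of_nonneg_right _ (by positivity)
            rw [hK]; linarith
    · push Not at hn
      have hn1 : 1 ≤ n := le_trans (le_max_right _ _) hn
      have hnn : n₁ ≤ n := le_trans (le_max_left _ _) hn
      classical
      set Gd := B.filter (fun w => ∀ i, wp w i < (r i + δ) * n) with hGd
      have hsplit : ∑ w ∈ B, mon (fun i => Real.exp (-lam i)) w ≤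
          ∑ w ∈ Gd, mon (fun i => Real.exp (-lam i)) w +
          ∑ i, ∑ w ∈ B.filter (fun w => (r i + δ) * n ≤ wp w i),
            mon (fun i => Real.exp (-lam i)) w := by
        have e2 : ∑ i, ∑ w ∈ B.filter (fun w => (r i + δ) * n ≤ wp w i),
            mon (fun i => Real.exp (-lam i)) w = ∑ w ∈ B, ∑ i, if (r i + δ) * n ≤ wp w i then
              mon (fun i => Real.exp (-lam i)) w else 0 := by
          rw [Finset.sum_comm]
          exact Finset.sum_congr rfl fun i _ => by rw [Finset.sum_filter]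
        rw [e2, hGd, Finset.sum_filter, ← Finset.sum_add_distrib]
        refine Finset.sum_le_sum fun w hw => ?_
        have hpos := (mon_pos (fun i => Real.exp_pos (-lam i)) w).le
        have hnonneg : ∀ i ∈ Finset.univ, 0 ≤ (if (r i + δ) * n ≤ wp w i then
              mon (fun i => Real.exp (-lam i)) w else 0) := by
          intro i _; split_ifs <;> simp [hpos]
        by_cases hg : ∀ i, wp w i < (r i + δ) * n
        · rw [if_pos hg]
          have := Finset.sum_nonneg hnonneg
          linarith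
        · rw [if_neg hg]
          push Not at hg
          obtain ⟨i, hi⟩ := hg
          have := Finset.single_le_sum hnonneg (Finset.mem_univ i)
          rw [if_pos hi] at this
          linarith
      have hG : ∑ w ∈ Gd, mon (fun i => Real.exp (-lam i)) w ≤ Real.exp (-ε * n) := by
        have hcard : (Gd.card : ℝ) ≤ Real.exp (a * n) := by
          apply hn₁ n hnn
          intro w hw
          rw [hGd, Finset.mem_filter] at hw
          obtain ⟨hwB, hwg⟩ := hw
          obtain ⟨hwN, hwl⟩ := hB w hwB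
          refine ⟨hwN, hwl, (hgood w (by omega) (by rw [hwl]; exact hwg)).1⟩
        have hle : ∀ w ∈ Gd, mon (fun i => Real.exp (-lam i)) w ≤ Real.exp (-(L - ε) * n) := by
          intro w hw
          rw [hGd, Finset.mem_filter] at hw
          obtain ⟨hwB, hwg⟩ := hw
          obtain ⟨hwN, hwl⟩ := hB w hwB
          have := (hgood w (by omega) (by rw [hwl]; exact hwg)).2
          rw [hwl] at this
          rw [mon_exp, Real.exp_le_exp]
          linarith
        calc _ ≤ ∑ w ∈ Gd, Real.exp (-(L - ε) * n) := Finset.sum_le_sum hle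
          _ = Gd.card * Real.exp (-(L - ε) * n) := by rw [Finset.sum_const, nsmul_eq_mul]
          _ ≤ Real.exp (a * n) * Real.exp (-(L - ε) * n) :=
              mul_le_mul_of_nonneg_right hcard (Real.exp_pos _).le
          _ = Real.exp (-ε * n) := by
              rw [← Real.exp_add]; congr 1
              rw [hε]; ring
      have hBd : ∑ i, ∑ w ∈ B.filter (fun w => (r i + δ) * n ≤ wp w i),
            mon (fun i => Real.exp (-lam i)) w ≤ 2 * m * Real.exp (-θ * n) := by
        calc _ ≤ ∑ i : Fin m, 2 * Real.exp (-θ * n) := by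
              refine Finset.sum_le_sum fun i _ => ?_
              refine (hbad i n _ ?_).trans ?_
              · intro w hw
                rw [Finset.mem_filter] at hw
                exact ⟨(hB w hw.1).2, hw.2⟩
              · apply mul_le_mul_of_nonneg_left _ (by norm_num)
                rw [Real.exp_le_exp]
                have := hθη i
                have hn' : (0:ℝ) ≤ n := by positivity
                nlinarith
          _ = _ := by
              rw [Finset.sum_const, Finset.card_univ, Fintype.card_fin, nsmul_eq_mul]; ring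
      have hE : Real.exp (-ε * n) ≤ Real.exp (-θ * n) := by
        rw [Real.exp_le_exp]
        have hn' : (0:ℝ) ≤ n := by positivity
        nlinarith
      rw [e1]
      calc _ ≤ Real.exp (σ * n) * ((1 + 2 * m) * Real.exp (-θ * n)) := by
            apply mul_le_mul_of_nonneg_left _ (Real.exp_pos _).le
            refine hsplit.trans ?_
            linarith
        _ = (1 + 2 * m) * q ^ n := by
            rw [hqn, mul_left_comm, ← Real.exp_add]
            congr 2; ring
        _ ≤ K * q ^ n := by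
            apply mul_le_mul_of_nonneg_right _ (by positivity)
            rw [hK]
            have := Real.exp_pos (θ * n₀)
            linarith
  obtain ⟨A, hA1, hA2⟩ := hdiv y hy0 hy1 hyh (K / (1 - q))
  have := sum_le_geom hq0 hq1 hK0 (fun w => mon y w) (fun w => w ∈ N) hmain A hA1
  linarith

/-- Parametrisation of the interior directions. -/
theorem exists_param (hm : 2 ≤ m) (r : Fin m → ℝ) (hr0 : ∀ i, 0 < r i) (hr : ∑ i, r i = 1) :
    ∃ (lam : Fin m → ℝ) (κ : ℝ), 0 < κ ∧ (∀ i, 0 < lam i) ∧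
      hfun (fun i => Real.exp (-lam i)) = 1 ∧
      ∀ i, κ * r i = 2 * Real.exp (-lam i) / (1 + Real.exp (-lam i)) ^ 2 := by
  have : Nonempty (Fin m) := ⟨⟨0, by omega⟩⟩
  obtain ⟨i₀, hi₀⟩ := Finite.exists_max r
  set κ₁ : ℝ := 1 / (2 * r i₀) with hκ₁
  have hκ₁0 : 0 < κ₁ := by have := hr0 i₀; positivity
  set g : ℝ → ℝ := fun κ => ∑ i, (1 - Real.sqrt (1 - 2 * κ * r i)) with hg
  have hgc : ContinuousOn g (Set.Icc 0 κ₁) := by
    apply Continuous.continuousOn
    rw [hg]
    fun_prop
  have hg0 : g 0 = 0 := by rw [hg]; simp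
  have hg1 : 1 ≤ g κ₁ := by
    have h1 : (1 - Real.sqrt (1 - 2 * κ₁ * r i₀)) = 1 := by
      have : 1 - 2 * κ₁ * r i₀ = 0 := by
        rw [hκ₁]; have := (hr0 i₀).ne'; field_simp; ring
      rw [this, Real.sqrt_zero, sub_zero]
    rw [← h1]
    apply Finset.single_le_sum (f := fun i => (1 - Real.sqrt (1 - 2 * κ₁ * r i)))
    · intro i _
      have : Real.sqrt (1 - 2 * κ₁ * r i) ≤ 1 := by
        rw [Real.sqrt_le_iff]
        have := hr0 i
        exact ⟨by norm_num, by nlinarith⟩
      linarith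
    · exact Finset.mem_univ i₀
  obtain ⟨κ, hκmem, hκ⟩ := intermediate_value_Icc hκ₁0.le hgc (show (1:ℝ) ∈ Set.Icc (g 0) (g κ₁) from
    ⟨by rw [hg0]; norm_num, hg1⟩)
  have hκ0 : 0 < κ := by
    rcases hκmem.1.lt_or_eq with h | h
    · exact h
    · rw [← h, hg0] at hκ; norm_num at hκ
  set u : Fin m → ℝ := fun i => 1 - Real.sqrt (1 - 2 * κ * r i) with hu
  have harg : ∀ i, 0 ≤ 1 - 2 * κ * r i := by
    intro i
    have h1 : κ * r i ≤ κ₁ * r i₀ := mul_le_mul hκmem.2 (hi₀ i) (hr0 i).le hκ₁0.le
    have h2 : κ₁ * r i₀ = 1 / 2 := by rw [hκ₁]; have := (hr0 i₀).ne'; field_simp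
    linarith
  have hu0 : ∀ i, 0 < u i := by
    intro i
    have : Real.sqrt (1 - 2 * κ * r i) < 1 := by
      rw [Real.sqrt_lt' one_pos]
      have := mul_pos hκ0 (hr0 i)
      linarith
    rw [hu]; simp only; linarith
  have husum : ∑ i, u i = 1 := hκ
  have hu1 : ∀ i, u i < 1 := by
    intro i
    -- there is another index
    obtain ⟨j, hj⟩ : ∃ j : Fin m, j ≠ i := by
      have : Nontrivial (Fin m) := Fin.nontrivial_iff_two_le.2 hm
      exact exists_ne i
    have h1 : u i + u j ≤ ∑ k, u k := by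
      have := Finset.add_sum_erase Finset.univ u (Finset.mem_univ i)
      have h2 : u j ≤ ∑ k ∈ Finset.univ.erase i, u k :=
        Finset.single_le_sum (fun k _ => (hu0 k).le) (Finset.mem_erase.2 ⟨hj, Finset.mem_univ j⟩)
      linarith
    have := hu0 j
    linarith
  have hκr : ∀ i, κ * r i = u i * (2 - u i) / 2 := by
    intro i
    have h1 := Real.sq_sqrt (harg i)
    rw [hu]; simp only
    nlinarith
  refine ⟨fun i => -Real.log (u i / (2 - u i)), κ, hκ0, ?_, ?_, ?_⟩
  · intro i
    have h1 := hu0 i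
    have h2 := hu1 i
    rw [Left.neg_pos_iff]
    apply Real.log_neg
    · apply div_pos h1; linarith
    · rw [div_lt_one (by linarith)]; linarith
  · unfold hfun
    refine Eq.trans (Finset.sum_congr rfl fun i _ => ?_) husum
    have h1 := hu0 i
    have h2 := hu1 i
    have h3 : 0 < 2 - u i := by linarith
    beta_reduce
    rw [neg_neg, Real.exp_log (div_pos h1 h3)]
    have : 1 + u i / (2 - u i) = 2 / (2 - u i) := by field_simp; ring
    rw [this]
    field_simp
  · intro i
    have h1 := hu0 i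
    have h2 := hu1 i
    have h3 : 0 < 2 - u i := by linarith
    rw [neg_neg, Real.exp_log (div_pos h1 h3), hκr i]
    have : 1 + u i / (2 - u i) = 2 / (2 - u i) := by field_simp; ring
    rw [this]
    field_simp

lemma tau_mono {H K : Subgroup (FreeGroup (Fin m))} (h : H ≤ K) (C : Set (Fin m → ℝ)) :
    tau H C ≤ tau K C := by
  unfold tau
  apply limsup_le_limsup
  · filter_upwards [eventually_gt_atTop 0] with R hR
    apply EReal.div_le_div_right_of_nonneg (by exact_mod_cast hR.le)
    apply ENNReal.log_le_log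
    unfold nu
    have : Set.encard {w : FreeGroup (Fin m) | w ∈ H ∧ wp w ∈ {x | R ≤ l1 x ∧ l1 x < R + 1} ∩ C} ≤
        Set.encard {w : FreeGroup (Fin m) | w ∈ K ∧ wp w ∈ {x | R ≤ l1 x ∧ l1 x < R + 1} ∩ C} :=
      Set.encard_le_encard fun w hw => ⟨h hw.1, hw.2⟩
    exact_mod_cast this
  · isBoundedDefault
  · isBoundedDefault

lemma psi_mono {H K : Subgroup (FreeGroup (Fin m))} (h : H ≤ K) (r : Fin m → ℝ) :
    psi H r ≤ psi K r := by
  unfold psi
  exact iInf₂_mono fun C _ => tau_mono h C

/-- Main theorem from the divergence property. -/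
theorem psi_eq_of_div (hm : 2 ≤ m) (N : Subgroup (FreeGroup (Fin m)))
    (hdiv : ∀ y : Fin m → ℝ, (∀ i, 0 < y i) → (∀ i, y i < 1) → 1 < ∑ i, 2 * y i / (1 + y i) →
      ∀ C : ℝ, ∃ A : Finset (FreeGroup (Fin m)), (∀ w ∈ A, w ∈ N) ∧ C < ∑ w ∈ A, mon y w)
    (r : Fin m → ℝ) (hr : r ∈ stdSimplex ℝ (Fin m)) : psi N r = psi ⊤ r := by
  apply le_antisymm (psi_mono le_top r)
  unfold psi
  apply le_iInf₂
  intro C hC
  change psi ⊤ r ≤ tau N C
  have hm0 : (0:ℝ) < m := by exact_mod_cast (by omega : 0 < m)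
  -- interior points near r
  set c : Fin m → ℝ := fun _ => 1 / m with hc
  have hcsum : ∑ i, c i = 1 := by rw [hc]; simp; field_simp
  have key : ∀ θ : ℝ, 0 < θ → θ < 1 → (1 - θ) • r + θ • c ∈ C →
      ∃ lam : Fin m → ℝ, (∀ i, 0 < lam i) ∧ hfun (fun i => Real.exp (-lam i)) = 1 ∧
        (((1 - θ) * ∑ i, lam i * r i : ℝ) : EReal) ≤ tau N C := by
    intro θ h0 h1 hmem
    set r' := (1 - θ) • r + θ • c with hr'
    have hr'i : ∀ i, r' i = (1 - θ) * r i + θ * (1 / m) := by
      intro i; rw [hr']; simp [hc]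
    have hr'0 : ∀ i, 0 < r' i := by
      intro i
      rw [hr'i]
      have := hr.1 i
      have : 0 ≤ (1 - θ) * r i := mul_nonneg (by linarith) this
      positivity
    have hr'sum : ∑ i, r' i = 1 := by
      rw [Finset.sum_congr rfl (fun i _ => hr'i i), Finset.sum_add_distrib, ← Finset.mul_sum,
        hr.2]
      simp
      field_simp
      ring
    obtain ⟨lam, κ, hκ, hlam, hz1, hrκ⟩ := exists_param hm r' hr'0 hr'sum
    refine ⟨lam, hlam, hz1, ?_⟩
    refine le_trans ?_ (tau_ge_interior hm N lam r' κ hκ hlam hz1 hrκ hr'sum hdiv C hC.1 hmem)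
    rw [EReal.coe_le_coe_iff, Finset.mul_sum]
    refine Finset.sum_le_sum fun i _ => ?_
    rw [hr'i]
    have := hlam i
    have h2 : 0 ≤ lam i * (θ * (1 / m)) := by positivity
    nlinarith
  -- r' tends to r
  have hcont : Tendsto (fun θ : ℝ => (1 - θ) • r + θ • c) (nhdsWithin 0 (Set.Ioi 0))
      (nhds r) := by
    have h1 : Tendsto (fun θ : ℝ => (1 - θ) • r + θ • c) (nhds 0)
        (nhds ((1 - (0:ℝ)) • r + (0:ℝ) • c)) := by
      apply Continuous.tendsto
      fun_prop
    simp only [sub_zero, one_smul, zero_smul, add_zero] at h1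
    exact h1.mono_left nhdsWithin_le_nhds
  have hevC : ∀ᶠ θ : ℝ in nhdsWithin 0 (Set.Ioi 0), (1 - θ) • r + θ • c ∈ C :=
    hcont.eventually (hC.1.1.mem_nhds hC.2)
  have hev1 : ∀ᶠ θ : ℝ in nhdsWithin 0 (Set.Ioi 0), θ < 1 :=
    (eventually_lt_nhds one_pos).filter_mono nhdsWithin_le_nhds
  by_contra hcon
  push Not at hcon
  obtain ⟨q, hq1, hq2⟩ := EReal.lt_iff_exists_real_btwn.1 hcon
  have hev2 : ∀ᶠ θ : ℝ in nhdsWithin 0 (Set.Ioi 0), 0 < θ := self_mem_nhdsWithin
  have hev : ∀ᶠ θ : ℝ in nhdsWithin 0 (Set.Ioi 0), (1 - θ) * q ≤ (tau N C).toReal ∧ 0 ≤ tau N C := by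
    filter_upwards [hevC, hev1, hev2] with θ h1 h2 h3
    obtain ⟨lam, hlam, hz1, hle⟩ := key θ h3 h2 h1
    have h4 := psi_top_le lam hz1.le r hr
    have h5 : q < ∑ i, lam i * r i := by exact_mod_cast lt_of_lt_of_le hq2 h4
    have h6 : 0 ≤ ∑ i, lam i * r i := Finset.sum_nonneg fun i _ => mul_nonneg (hlam i).le (hr.1 i)
    have h7 : (0 : EReal) ≤ tau N C := by
      refine le_trans ?_ hle
      have : (0:ℝ) ≤ (1 - θ) * ∑ i, lam i * r i := mul_nonneg (by linarith) h6
      exact_mod_cast this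
    refine ⟨?_, h7⟩
    have h8 : tau N C ≠ ⊤ := ne_top_of_lt hq1
    have h9 : tau N C ≠ ⊥ := by
      intro h; rw [h] at h7; simp at h7
    have h10 : (1 - θ) * ∑ i, lam i * r i ≤ (tau N C).toReal := by
      rw [← EReal.coe_le_coe_iff, EReal.coe_toReal h8 h9]
      exact hle
    nlinarith
  obtain ⟨θ₀, hθ₀⟩ := hev.exists
  have h7 := hθ₀.2
  have h8 : tau N C ≠ ⊤ := ne_top_of_lt hq1
  have h9 : tau N C ≠ ⊥ := by
    intro h; rw [h] at h7; simp at h7
  have hlim : Tendsto (fun θ : ℝ => (1 - θ) * q) (nhdsWithin 0 (Set.Ioi 0)) (nhds q) := by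
    have h1 : Tendsto (fun θ : ℝ => (1 - θ) * q) (nhds 0) (nhds ((1 - (0:ℝ)) * q)) := by
      apply Continuous.tendsto
      fun_prop
    simp only [sub_zero, one_mul] at h1
    exact h1.mono_left nhdsWithin_le_nhds
  have h10 : q ≤ (tau N C).toReal := le_of_tendsto hlim (hev.mono fun θ h => h.1)
  have h11 : (q : EReal) ≤ tau N C := by
    rw [← EReal.coe_toReal h8 h9]; exact_mod_cast h10
  exact absurd hq1 (not_lt.2 h11)

end Pool.Agent.H26.Cogrowth
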