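import Mathlib

namespace Pool.Agent.H26.Cogrowth

open FreeGroup

section Words

variable {α : Type*} [DecidableEq α]

/-- inverse letter -/
def inv (x : α × Bool) : α × Bool := (x.1, !x.2)

@[simp] lemma inv_inv (x : α × Bool) : inv (inv x) = x := by simp [inv]

@[simp] lemma inv_fst (x : α × Bool) : (inv x).1 = x.1 := rfl

lemma mk_inv (x : α × Bool) : (FreeGroup.mk [x])⁻¹ = FreeGroup.mk [inv x] := by
  simp [FreeGroup.inv_mk, FreeGroup.invRev, inv]

/-- the involution of letters -/
def invEquiv : (α × Bool) ≃ (α × Bool) where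
  toFun := inv
  invFun := inv
  left_inv := inv_inv
  right_inv := inv_inv

lemma toWord_letter_mul (b : α × Bool) (w : FreeGroup α) :
    (FreeGroup.mk [b] * w).toWord =
      List.casesOn w.toWord [b] fun hd tl =>
        if b.1 = hd.1 ∧ b.2 = not hd.2 then tl else b :: hd :: tl := by
  rw [FreeGroup.toWord_mul]
  have : (FreeGroup.mk [b]).toWord = [b] := by simp [FreeGroup.toWord_mk]
  rw [this, List.singleton_append, FreeGroup.reduce.cons, FreeGroup.reduce_toWord]

lemma toWord_letter_mul_nil (b : α × Bool) (w : FreeGroup α) (h : w.toWord = []) :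
    (FreeGroup.mk [b] * w).toWord = [b] := by
  rw [toWord_letter_mul, h]

lemma toWord_letter_mul_cons (b : α × Bool) (w : FreeGroup α) {hd : α × Bool}
    {tl : List (α × Bool)} (h : w.toWord = hd :: tl) :
    (FreeGroup.mk [b] * w).toWord = if b = inv hd then tl else b :: w.toWord := by
  rw [toWord_letter_mul, h]
  have : (b.1 = hd.1 ∧ b.2 = not hd.2) ↔ b = inv hd := by
    rw [Prod.ext_iff]; rfl
  simp only [this]

/-- the monomial of a reduced word -/
noncomputable def mon (y : α → ℝ) (w : FreeGroup α) : ℝ := (w.toWord.map (fun x => y x.1)).prod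

lemma mon_nonneg {y : α → ℝ} (hy : ∀ i, 0 ≤ y i) (w : FreeGroup α) : 0 ≤ mon y w := by
  unfold mon
  apply List.prod_nonneg
  intro a ha
  rw [List.mem_map] at ha
  obtain ⟨x, _, rfl⟩ := ha
  exact hy _

lemma mon_pos {y : α → ℝ} (hy : ∀ i, 0 < y i) (w : FreeGroup α) : 0 < mon y w := by
  unfold mon
  apply List.prod_pos
  intro a ha
  rw [List.mem_map] at ha
  obtain ⟨x, _, rfl⟩ := ha
  exact hy _

@[simp] lemma mon_one (y : α → ℝ) : mon y (1 : FreeGroup α) = 1 := by simp [mon]

lemma mon_letter_one (y : α → ℝ) (b : α × Bool) : mon y (FreeGroup.mk [b] * 1) = y b.1 := by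
  unfold mon
  rw [toWord_letter_mul_nil b 1 FreeGroup.toWord_one]
  simp

lemma sum_letters [Fintype α] (t : α → ℝ) :
    ∑ b : α × Bool, t b.1 = 2 * ∑ i, t i := by
  rw [Fintype.sum_prod_type]
  simp [Finset.mul_sum, two_mul, Finset.sum_add_distrib]

/-- the basic sum identity -/
lemma sum_mon [Fintype α] (t y : α → ℝ) (hy : ∀ i, y i ≠ 0) (w : FreeGroup α) {hd : α × Bool}
    {tl : List (α × Bool)} (h : w.toWord = hd :: tl) :
    ∑ b : α × Bool, t b.1 * mon y (FreeGroup.mk [b] * w) =
      (t hd.1 / y hd.1 - t hd.1 * y hd.1 + 2 * ∑ i, t i * y i) * mon y w := by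
  have h1 : ∀ b : α × Bool, t b.1 * mon y (FreeGroup.mk [b] * w) =
      (if b = inv hd then (t b.1 / y b.1 - t b.1 * y b.1) * mon y w else 0) +
        t b.1 * y b.1 * mon y w := by
    intro b
    by_cases hb : b = inv hd
    · rw [if_pos hb]
      have : mon y w = y b.1 * mon y (FreeGroup.mk [b] * w) := by
        unfold mon
        rw [toWord_letter_mul_cons b w h, if_pos hb, h, hb]
        simp
      rw [this]
      have := hy b.1
      field_simp
      ring
    · rw [if_neg hb, zero_add]
      have : mon y (FreeGroup.mk [b] * w) = y b.1 * mon y w := by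
        unfold mon
        rw [toWord_letter_mul_cons b w h, if_neg hb]
        simp
      rw [this]; ring
  rw [Finset.sum_congr rfl (fun b _ => h1 b), Finset.sum_add_distrib, Finset.sum_ite_eq' ,
    if_pos (Finset.mem_univ _), ← Finset.sum_mul]
  rw [sum_letters (fun i => t i * y i)]
  simp only [inv_fst]
  ring

lemma mk_letter_ne_one (w : FreeGroup α) (h : w ≠ 1) : ∃ hd tl, w.toWord = hd :: tl := by
  have : w.toWord ≠ [] := by
    intro h'; exact h (FreeGroup.toWord_eq_nil_iff.1 h')
  exact List.exists_cons_of_ne_nil this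

end Words

end Pool.Agent.H26.Cogrowth
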