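import Pool.Agent.H26.CogrowthDefs
import Pool.Agent.H26.CogrowthWord

set_option linter.unusedSectionVars false

namespace Pool.Agent.H26.Cogrowth

open Finset

section Sphere

variable {α : Type*} [DecidableEq α] [Fintype α]

/-- weight of a list of letters -/
noncomputable def lwt (z : α → ℝ) (l : List (α × Bool)) : ℝ := (l.map (fun x => z x.1)).prod

lemma lwt_cons (z : α → ℝ) (x : α × Bool) (l : List (α × Bool)) :
    lwt z (x :: l) = z x.1 * lwt z l := by simp [lwt]

lemma lwt_nonneg {z : α → ℝ} (hz : ∀ i, 0 < z i) (l : List (α × Bool)) : 0 ≤ lwt z l := by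
  unfold lwt
  apply List.prod_nonneg
  intro a ha
  rw [List.mem_map] at ha
  obtain ⟨x, _, rfl⟩ := ha
  exact (hz _).le

lemma z_le_one {z : α → ℝ} (hz : ∀ i, 0 < z i) (hh : ∑ i, 2 * z i / (1 + z i) ≤ 1) (i : α) :
    z i ≤ 1 := by
  have h1 : 2 * z i / (1 + z i) ≤ ∑ i, 2 * z i / (1 + z i) :=
    Finset.single_le_sum (f := fun i => 2 * z i / (1 + z i))
      (fun j _ => div_nonneg (by linarith [hz j]) (by linarith [hz j])) (Finset.mem_univ i)
  have h2 := h1.trans hh
  have := hz i
  rw [div_le_one (by linarith)] at h2
  linarith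

lemma list_bound {z : α → ℝ} (hz : ∀ i, 0 < z i) (hh : ∑ i, 2 * z i / (1 + z i) ≤ 1) (n : ℕ) :
    ∀ (x : α × Bool) (A : Finset (List (α × Bool))),
      (∀ l ∈ A, l.length = n + 1 ∧ FreeGroup.IsReduced l ∧ l.head? = some x) →
      ∑ l ∈ A, lwt z l ≤ 2 * (z x.1 / (1 + z x.1)) := by
  induction n with
  | zero =>
    intro x A hA
    have hsub : A ⊆ {[x]} := by
      intro l hl
      obtain ⟨h1, _, h3⟩ := hA l hl
      rw [Finset.mem_singleton]
      obtain ⟨a, rfl⟩ := List.length_eq_one_iff.1 h1
      simpa using h3
    have h1 := hz x.1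
    have h2 := z_le_one hz hh x.1
    calc ∑ l ∈ A, lwt z l ≤ ∑ l ∈ ({[x]} : Finset (List (α × Bool))), lwt z l :=
          Finset.sum_le_sum_of_subset_of_nonneg hsub (fun l _ _ => lwt_nonneg hz l)
      _ = z x.1 := by simp [lwt]
      _ ≤ 2 * (z x.1 / (1 + z x.1)) := by
          rw [← mul_div_assoc, le_div_iff₀ (by linarith)]
          nlinarith
  | succ n ih =>
    intro x A hA
    have hzx := hz x.1
    -- split by the second letter
    have hsplit : ∑ l ∈ A, lwt z l =
        ∑ y : α × Bool, ∑ l ∈ A.filter (fun l => l.tail.head? = some y), lwt z l := by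
      have : ∀ l ∈ A, lwt z l = ∑ y : α × Bool, if l.tail.head? = some y then lwt z l else 0 := by
        intro l hl
        obtain ⟨h1, _, _⟩ := hA l hl
        match l, h1 with
        | a :: b :: l', _ =>
          simp only [List.tail_cons, List.head?_cons, Option.some.injEq]
          rw [Finset.sum_ite_eq, if_pos (Finset.mem_univ _)]
      rw [Finset.sum_congr rfl this, Finset.sum_comm]
      exact Finset.sum_congr rfl fun y _ => by rw [Finset.sum_filter]
    rw [hsplit]
    have hterm : ∀ y : α × Bool, ∑ l ∈ A.filter (fun l => l.tail.head? = some y), lwt z l ≤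
        z x.1 * (if y = inv x then 0 else 2 * (z y.1 / (1 + z y.1))) := by
      intro y
      by_cases hy : y = inv x
      · rw [if_pos hy, mul_zero]
        apply le_of_eq
        apply Finset.sum_eq_zero
        intro l hl
        exfalso
        rw [Finset.mem_filter] at hl
        obtain ⟨hl1, hl2⟩ := hl
        obtain ⟨h1, h2, h3⟩ := hA l hl1
        match l, h1, h2, h3, hl2 with
        | a :: b :: l', _, h2, h3, hl2 =>
          simp only [List.head?_cons, Option.some.injEq, List.tail_cons] at h3 hl2
          rw [FreeGroup.isReduced_cons_cons] at h2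
          subst h3; subst hl2; subst hy
          have := h2.1 rfl
          simp [inv] at this
      · rw [if_neg hy]
        have hinj : Set.InjOn List.tail
            (A.filter (fun l => l.tail.head? = some y) : Set (List (α × Bool))) := by
          intro l hl l' hl' heq
          rw [Finset.mem_coe, Finset.mem_filter] at hl hl'
          obtain ⟨h1, _, h3⟩ := hA l hl.1
          obtain ⟨h1', _, h3'⟩ := hA l' hl'.1
          match l, l', h1, h1', h3, h3', heq with
          | a :: k, a' :: k', _, _, h3, h3', heq =>
            simp only [List.head?_cons, Option.some.injEq, List.tail_cons] at h3 h3' heq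
            subst h3; subst h3'; subst heq; rfl
        have e1 : ∑ l ∈ A.filter (fun l => l.tail.head? = some y), lwt z l =
            z x.1 * ∑ l' ∈ (A.filter (fun l => l.tail.head? = some y)).image List.tail,
              lwt z l' := by
          rw [Finset.sum_image hinj, Finset.mul_sum]
          refine Finset.sum_congr rfl fun l hl => ?_
          rw [Finset.mem_filter] at hl
          obtain ⟨h1, _, h3⟩ := hA l hl.1
          match l, h1, h3 with
          | a :: k, _, h3 =>
            simp only [List.head?_cons, Option.some.injEq] at h3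
            subst h3
            rw [lwt_cons, List.tail_cons]
        rw [e1]
        apply mul_le_mul_of_nonneg_left _ hzx.le
        apply ih y
        intro l' hl'
        rw [Finset.mem_image] at hl'
        obtain ⟨l, hl, rfl⟩ := hl'
        rw [Finset.mem_filter] at hl
        obtain ⟨h1, h2, h3⟩ := hA l hl.1
        match l, h1, h2, h3, hl.2 with
        | a :: k, h1, h2, h3, h4 =>
          refine ⟨by simpa using h1, ?_, h4⟩
          exact h2.tail
    refine (Finset.sum_le_sum fun y _ => hterm y).trans ?_
    rw [← Finset.mul_sum]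
    have hs : ∑ y : α × Bool, (if y = inv x then (0:ℝ) else 2 * (z y.1 / (1 + z y.1))) =
        2 * ((∑ i, 2 * z i / (1 + z i)) - z x.1 / (1 + z x.1)) := by
      have : ∀ y : α × Bool, (if y = inv x then (0:ℝ) else 2 * (z y.1 / (1 + z y.1))) =
          2 * (z y.1 / (1 + z y.1)) - (if y = inv x then 2 * (z y.1 / (1 + z y.1)) else 0) := by
        intro y; split_ifs <;> ring
      rw [Finset.sum_congr rfl (fun y _ => this y), Finset.sum_sub_distrib, Finset.sum_ite_eq',
        if_pos (Finset.mem_univ _), sum_letters (fun i => 2 * (z i / (1 + z i)))]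
      simp only [inv_fst]
      have : ∑ i, 2 * (z i / (1 + z i)) = ∑ i, 2 * z i / (1 + z i) :=
        Finset.sum_congr rfl fun i _ => by ring
      rw [this]; ring
    rw [hs]
    have h5 : z x.1 * (2 * (1 - z x.1 / (1 + z x.1))) = 2 * (z x.1 / (1 + z x.1)) := by
      have : 1 + z x.1 ≠ 0 := by linarith
      field_simp
      ring
    rw [← h5]
    apply mul_le_mul_of_nonneg_left _ hzx.le
    linarith

/-- Total weight of a sphere in the free group. -/
theorem sphere_bound {z : α → ℝ} (hz : ∀ i, 0 < z i) (hh : ∑ i, 2 * z i / (1 + z i) ≤ 1) (n : ℕ)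
    (A : Finset (FreeGroup α)) (hA : ∀ w ∈ A, w.toWord.length = n) :
    ∑ w ∈ A, mon z w ≤ 2 := by
  cases n with
  | zero =>
    have hsub : A ⊆ {1} := by
      intro w hw
      rw [Finset.mem_singleton]
      have := hA w hw
      rw [List.length_eq_zero_iff, FreeGroup.toWord_eq_nil_iff] at this
      exact this
    calc ∑ w ∈ A, mon z w ≤ ∑ w ∈ ({1} : Finset (FreeGroup α)), mon z w :=
          Finset.sum_le_sum_of_subset_of_nonneg hsub (fun w _ _ => (mon_pos hz w).le)
      _ ≤ 2 := by simp
  | succ n =>
    have e1 : ∑ w ∈ A, mon z w = ∑ l ∈ A.image FreeGroup.toWord, lwt z l := by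
      rw [Finset.sum_image (fun a _ b _ h => FreeGroup.toWord_injective h)]
      rfl
    rw [e1]
    set B := A.image FreeGroup.toWord with hB
    have hBprop : ∀ l ∈ B, l.length = n + 1 ∧ FreeGroup.IsReduced l := by
      intro l hl
      rw [hB, Finset.mem_image] at hl
      obtain ⟨w, hw, rfl⟩ := hl
      exact ⟨hA w hw, FreeGroup.isReduced_toWord⟩
    have hsplit : ∑ l ∈ B, lwt z l =
        ∑ y : α × Bool, ∑ l ∈ B.filter (fun l => l.head? = some y), lwt z l := by
      have : ∀ l ∈ B, lwt z l = ∑ y : α × Bool, if l.head? = some y then lwt z l else 0 := by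
        intro l hl
        obtain ⟨h1, _⟩ := hBprop l hl
        match l, h1 with
        | a :: l', _ =>
          simp only [List.head?_cons, Option.some.injEq]
          rw [Finset.sum_ite_eq, if_pos (Finset.mem_univ _)]
      rw [Finset.sum_congr rfl this, Finset.sum_comm]
      exact Finset.sum_congr rfl fun y _ => by rw [Finset.sum_filter]
    rw [hsplit]
    have hterm : ∀ y : α × Bool, ∑ l ∈ B.filter (fun l => l.head? = some y), lwt z l ≤
        2 * (z y.1 / (1 + z y.1)) := by
      intro y
      apply list_bound hz hh n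
      intro l hl
      rw [Finset.mem_filter] at hl
      exact ⟨(hBprop l hl.1).1, (hBprop l hl.1).2, hl.2⟩
    refine (Finset.sum_le_sum fun y _ => hterm y).trans ?_
    rw [sum_letters (fun i => 2 * (z i / (1 + z i)))]
    have : ∑ i, 2 * (z i / (1 + z i)) = ∑ i, 2 * z i / (1 + z i) :=
      Finset.sum_congr rfl fun i _ => by ring
    rw [this]; linarith

end Sphere

section Wp

variable {m : ℕ}

lemma sum_countP (l : List (Fin m × Bool)) :
    ∑ i : Fin m, l.countP (fun x => decide (x.1 = i)) = l.length := by
  induction l with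
  | nil => simp
  | cons a l ih =>
    simp only [List.countP_cons, Finset.sum_add_distrib, ih, List.length_cons]
    simp

lemma wp_nonneg (w : FreeGroup (Fin m)) (i : Fin m) : 0 ≤ wp w i := by
  unfold wp; positivity

lemma sum_wp (w : FreeGroup (Fin m)) : ∑ i, wp w i = w.toWord.length := by
  unfold wp
  rw [← Nat.cast_sum, sum_countP]

lemma l1_wp (w : FreeGroup (Fin m)) : l1 (wp w) = w.toWord.length := by
  unfold l1
  rw [← sum_wp]
  exact Finset.sum_congr rfl fun i _ => abs_of_nonneg (wp_nonneg w i)

lemma mon_exp (lam : Fin m → ℝ) (w : FreeGroup (Fin m)) :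
    mon (fun i => Real.exp (-lam i)) w = Real.exp (-∑ i, lam i * wp w i) := by
  unfold mon wp
  induction w.toWord with
  | nil => simp
  | cons a l ih =>
    rw [List.map_cons, List.prod_cons, ih, ← Real.exp_add]
    congr 1
    have : ∀ i, lam i * (((a :: l).countP (fun x => decide (x.1 = i)) : ℕ) : ℝ) =
        lam i * ((l.countP (fun x => decide (x.1 = i)) : ℕ) : ℝ) + (if a.1 = i then lam i else 0) := by
      intro i
      rw [List.countP_cons]
      by_cases h : a.1 = i
      · simp [h]; ring
      · simp [h]
    rw [Finset.sum_congr rfl (fun i _ => this i), Finset.sum_add_distrib, Finset.sum_ite_eq,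
      if_pos (Finset.mem_univ _)]
    ring

end Wp

end Pool.Agent.H26.Cogrowth
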