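import Pool.Agent.H26.CogrowthSphere

set_option linter.unusedSectionVars false

namespace Pool.Agent.H26.Cogrowth

open Finset Filter

variable {m : ℕ}

/-- finiteness from bounded finite subsets -/
lemma encard_le_of_finset {β : Type*} {S : Set β} {K : ℝ}
    (h : ∀ A : Finset β, (∀ w ∈ A, w ∈ S) → (A.card : ℝ) ≤ K) :
    ((Set.encard S : ENat) : ENNReal) ≤ ENNReal.ofReal K := by
  have hfin : S.Finite := by
    by_contra hinf
    have hinf : S.Infinite := hinf
    obtain ⟨n, hn⟩ := exists_nat_gt K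
    obtain ⟨t, ht, hc⟩ := hinf.exists_subset_card_eq n
    have := h t (fun w hw => ht hw)
    rw [hc] at this
    linarith
  have h1 := h hfin.toFinset (fun w hw => by simpa using hw)
  rw [hfin.encard_eq_coe_toFinset_card]
  simp only [ENat.toENNReal_coe]
  rw [← ENNReal.ofReal_natCast]
  exact ENNReal.ofReal_le_ofReal h1

lemma tau_le (H : Subgroup (FreeGroup (Fin m))) (C : Set (Fin m → ℝ)) (a K : ℝ) (hK : 0 < K)
    (h : ∀ R : ℝ, 0 < R → ∀ A : Finset (FreeGroup (Fin m)),
      (∀ w ∈ A, w ∈ H ∧ R ≤ w.toWord.length ∧ (w.toWord.length : ℝ) < R + 1 ∧ wp w ∈ C) →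
      (A.card : ℝ) ≤ K * Real.exp (a * R)) : tau H C ≤ a := by
  unfold tau
  have hlim : Tendsto (fun R : ℝ => (((Real.log K + a * R) / R : ℝ) : EReal)) atTop
      (nhds (a : EReal)) := by
    apply (continuous_coe_real_ereal.tendsto a).comp
    have h1 : Tendsto (fun R : ℝ => Real.log K / R + a) atTop (nhds (0 + a)) :=
      (tendsto_const_nhds.div_atTop tendsto_id).add_const a
    rw [zero_add] at h1
    apply h1.congr'
    filter_upwards [eventually_gt_atTop 0] with R hR
    field_simp
  rw [← hlim.limsup_eq]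
  apply limsup_le_limsup
  · filter_upwards [eventually_gt_atTop 0] with R hR
    have h1 : nu H ({x | R ≤ l1 x ∧ l1 x < R + 1} ∩ C) ≤
        ENNReal.ofReal (K * Real.exp (a * R)) := by
      unfold nu
      apply encard_le_of_finset
      intro A hA
      apply h R hR A
      intro w hw
      have := hA w hw
      simp only [Set.mem_ofPred_eq, Set.mem_inter_iff, l1_wp] at this
      exact ⟨this.1, this.2.1.1, this.2.1.2, this.2.2⟩
    have h2 : ENNReal.log (nu H ({x | R ≤ l1 x ∧ l1 x < R + 1} ∩ C)) ≤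
        ((Real.log K + a * R : ℝ) : EReal) := by
      refine (ENNReal.log_le_log h1).trans ?_
      rw [ENNReal.log_ofReal_of_pos (by positivity)]
      rw [Real.log_mul hK.ne' (Real.exp_pos _).ne', Real.log_exp]
    rw [EReal.coe_div]
    exact EReal.div_le_div_right_of_nonneg (by exact_mod_cast hR.le) h2
  · isBoundedDefault
  · isBoundedDefault

lemma eventually_card_le (H : Subgroup (FreeGroup (Fin m))) (C : Set (Fin m → ℝ)) (a : ℝ)
    (h : tau H C < a) : ∃ n₀ : ℕ, ∀ n : ℕ, n₀ ≤ n → ∀ A : Finset (FreeGroup (Fin m)),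
      (∀ w ∈ A, w ∈ H ∧ w.toWord.length = n ∧ wp w ∈ C) →
      (A.card : ℝ) ≤ Real.exp (a * n) := by
  unfold tau at h
  have h1 := eventually_lt_of_limsup_lt h
  rw [eventually_atTop] at h1
  obtain ⟨R₀, hR₀⟩ := h1
  obtain ⟨n₁, hn₁⟩ := exists_nat_gt (max R₀ 1)
  refine ⟨n₁, fun n hn A hA => ?_⟩
  have hnR : R₀ ≤ (n:ℝ) := by
    have h1 : (n₁:ℝ) ≤ n := by exact_mod_cast hn
    have h2 := le_max_left R₀ 1
    linarith
  have hn1 : (1:ℝ) < n := by
    have h1 : (n₁:ℝ) ≤ n := by exact_mod_cast hn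
    have h2 := le_max_right R₀ 1
    linarith
  have h2 := hR₀ n hnR
  have hn0 : (0:ℝ) < n := by linarith
  rw [EReal.div_lt_iff (by exact_mod_cast hn0) (EReal.coe_ne_top _)] at h2
  have h3 : ((A.card : ℕ) : ENNReal) ≤ nu H ({x | (n:ℝ) ≤ l1 x ∧ l1 x < (n:ℝ) + 1} ∩ C) := by
    unfold nu
    have hsub : (A : Set (FreeGroup (Fin m))) ⊆
        {w | w ∈ H ∧ wp w ∈ {x | (n:ℝ) ≤ l1 x ∧ l1 x < (n:ℝ) + 1} ∩ C} := by
      intro w hw
      obtain ⟨e1, e2, e3⟩ := hA w hw
      simp only [Set.mem_ofPred_eq, Set.mem_inter_iff, l1_wp, e2]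
      exact ⟨e1, ⟨le_rfl, by linarith⟩, e3⟩
    have := Set.encard_le_encard hsub
    rw [Set.encard_coe_eq_coe_finsetCard] at this
    exact_mod_cast this
  have h4 : ENNReal.log ((A.card : ℕ) : ENNReal) < ((a * n : ℝ) : EReal) := by
    refine lt_of_le_of_lt (ENNReal.log_le_log h3) ?_
    rw [EReal.coe_mul]
    exact h2
  have h5 : ((a * n : ℝ) : EReal) = ENNReal.log (ENNReal.ofReal (Real.exp (a * n))) := by
    rw [ENNReal.log_ofReal_of_pos (Real.exp_pos _), Real.log_exp]
  rw [h5, ENNReal.log_lt_log_iff] at h4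
  rw [← ENNReal.ofReal_natCast, ENNReal.ofReal_lt_ofReal_iff (Real.exp_pos _)] at h4
  exact h4.le

/-- The critical function. -/
noncomputable def hfun (z : Fin m → ℝ) : ℝ := ∑ i, 2 * z i / (1 + z i)

lemma lam_nonneg {lam : Fin m → ℝ} (hh : hfun (fun i => Real.exp (-lam i)) ≤ 1) (i : Fin m) :
    0 ≤ lam i := by
  have := z_le_one (fun i => Real.exp_pos (-lam i)) hh i
  rw [Real.exp_le_one_iff] at this
  linarith

/-- Upper bound for the growth of the whole group. -/
theorem psi_top_le (lam : Fin m → ℝ) (hh : hfun (fun i => Real.exp (-lam i)) ≤ 1)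
    (r : Fin m → ℝ) (hr : r ∈ stdSimplex ℝ (Fin m)) :
    psi ⊤ r ≤ ((∑ i, lam i * r i : ℝ) : EReal) := by
  set L : ℝ := ∑ i, lam i * r i with hL
  have hlam := lam_nonneg hh
  have hL0 : 0 ≤ L := Finset.sum_nonneg fun i _ => mul_nonneg (hlam i) (hr.1 i)
  have key : ∀ ε : ℝ, 0 < ε → psi ⊤ r ≤ ((L + ε : ℝ) : EReal) := by
    intro ε hε
    set C : Set (Fin m → ℝ) := {x | ∑ i, lam i * x i < (L + ε) * l1 x} with hC
    have hcone : IsOpenCone C := by
      constructor
      · apply isOpen_lt
        · fun_prop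
        · unfold l1; fun_prop
      · intro x hx c hc
        simp only [hC, Set.mem_ofPred_eq, Pi.smul_apply, smul_eq_mul] at hx ⊢
        have e1 : ∑ i, lam i * (c * x i) = c * ∑ i, lam i * x i := by
          rw [Finset.mul_sum]; exact Finset.sum_congr rfl fun i _ => by ring
        have e2 : l1 (c • x) = c * l1 x := by
          unfold l1
          rw [Finset.mul_sum]
          exact Finset.sum_congr rfl fun i _ => by
            rw [Pi.smul_apply, smul_eq_mul, abs_mul, abs_of_pos hc]
        rw [e1, e2]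
        nlinarith
    have hrC : r ∈ C := by
      simp only [hC, Set.mem_ofPred_eq]
      have : l1 r = 1 := by
        unfold l1
        rw [← hr.2]
        exact Finset.sum_congr rfl fun i _ => abs_of_nonneg (hr.1 i)
      rw [this]; linarith
    have h1 : psi ⊤ r ≤ tau ⊤ C := iInf₂_le C ⟨hcone, hrC⟩
    refine h1.trans ?_
    apply tau_le ⊤ C (L + ε) (2 * Real.exp (L + ε)) (by positivity)
    intro R hR A hA
    -- all elements of A have the same length
    have hlen : ∀ w ∈ A, w.toWord.length = ⌈R⌉₊ := by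
      intro w hw
      obtain ⟨_, h2, h3, _⟩ := hA w hw
      symm
      rw [Nat.ceil_eq_iff]
      · constructor
        · have : ((w.toWord.length - 1 : ℕ) : ℝ) ≤ (w.toWord.length : ℝ) - 1 ∨
            w.toWord.length = 0 := by
            rcases Nat.eq_zero_or_pos w.toWord.length with h | h
            · right; exact h
            · left; rw [Nat.cast_sub (by omega)]; simp
          rcases this with h | h
          · linarith
          · rw [h] at h2; simp at h2; linarith
        · exact h2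
      · intro h
        rw [h] at h2
        simp at h2
        linarith
    have hbd := sphere_bound (fun i => Real.exp_pos (-lam i)) hh _ A hlen
    have hlow : ∀ w ∈ A, Real.exp (-((L + ε) * (R + 1))) ≤ mon (fun i => Real.exp (-lam i)) w := by
      intro w hw
      obtain ⟨_, h2, h3, h4⟩ := hA w hw
      rw [mon_exp, Real.exp_le_exp]
      simp only [hC, Set.mem_ofPred_eq, l1_wp] at h4
      have : (L + ε) * (w.toWord.length : ℝ) ≤ (L + ε) * (R + 1) :=
        mul_le_mul_of_nonneg_left h3.le (by linarith)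
      linarith
    have h5 : (A.card : ℝ) * Real.exp (-((L + ε) * (R + 1))) ≤ 2 := by
      refine le_trans ?_ hbd
      rw [← nsmul_eq_mul]
      exact Finset.card_nsmul_le_sum A _ _ hlow
    have h6 : 2 * Real.exp (L + ε) * Real.exp ((L + ε) * R) =
        2 * Real.exp ((L + ε) * (R + 1)) := by
      rw [mul_assoc, ← Real.exp_add]; congr 2; ring
    rw [h6]
    rw [Real.exp_neg, ← div_eq_mul_inv, div_le_iff₀ (Real.exp_pos _)] at h5
    exact h5
  by_contra hcon
  push Not at hcon
  obtain ⟨q, hq1, hq2⟩ := EReal.lt_iff_exists_real_btwn.1 hcon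
  have h1 : L < q := by exact_mod_cast hq1
  have h2 := key (q - L) (by linarith)
  have h3 : L + (q - L) = q := by ring
  rw [h3] at h2
  exact absurd h2 (not_le.2 hq2)

end Pool.Agent.H26.Cogrowth
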