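import Pool.Agent.H26.SymGenRec

/-!
# Two subgroups generating the symmetric group, neither of them co-countably generated

Variant of `SymGenRec` and `SymGenMain` with countable sets in place of finite sets.
-/

namespace Pool.Agent.H26.SymGen

open Equiv Cardinal

lemma HL_notC (U : Set (Perm Om)) (hU : U.Countable) : HL ⊔ Subgroup.closure U ≠ ⊤ := by
  obtain ⟨u, hu⟩ := (hU.insert 1).exists_eq_range (Set.insert_nonempty 1 U)
  have hN : ∀ n, ∃ N, ∀ k ≤ n, ∀ p : Om, p.1 ≤ n → (u k p).1 ≤ N ∧ ((u k)⁻¹ p).1 ≤ N := by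
    intro n
    have hf : (⋃ k ∈ Set.Iic n, ((fun p : Om => (u k p).1) '' {p | p.1 ≤ n} ∪
        (fun p : Om => ((u k)⁻¹ p).1) '' {p | p.1 ≤ n})).Finite :=
      (Set.finite_Iic n).biUnion
        (fun k _ => ((lvl_finite n).image _).union ((lvl_finite n).image _))
    obtain ⟨N, hN⟩ := hf.bddAbove
    refine ⟨N, fun k hk p hp => ⟨?_, ?_⟩⟩
    · exact hN (Set.mem_biUnion (x := k) hk (Or.inl ⟨p, hp, rfl⟩))
    · exact hN (Set.mem_biUnion (x := k) hk (Or.inr ⟨p, hp, rfl⟩))
  choose N hN using hN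
  let φ : ℕ → ℕ := fun n => n + 1 + ∑ m ∈ Finset.range (n + 1), N m
  have hφ1 : ∀ n, n + 1 ≤ φ n := fun n => Nat.le_add_right _ _
  have hφ : ∀ n, n ≤ φ n := fun n => (Nat.le_succ n).trans (hφ1 n)
  have hm : Monotone φ := by
    intro m n hmn
    refine Nat.add_le_add (Nat.add_le_add_right hmn 1) ?_
    exact Finset.sum_le_sum_of_subset (Finset.range_mono (by omega))
  have hNφ : ∀ n, N n ≤ φ n := by
    intro n
    refine le_trans ?_ (Nat.le_add_left _ _)
    exact Finset.single_le_sum (f := N) (fun _ _ => Nat.zero_le _)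
      (Finset.mem_range.2 (Nat.lt_succ_self n))
  have hit : ∀ k n, n + k ≤ φ^[k] n := by
    intro k n
    induction k with
    | zero => simp
    | succ k ih =>
      rw [Function.iterate_succ_apply']
      have := hφ1 (φ^[k] n)
      omega
  have hkey : ∀ k n, N (n + k) ≤ φ^[k + 1] n := by
    intro k n
    rw [Function.iterate_succ_apply']
    exact (hNφ _).trans (hm (hit k n))
  intro htop
  apply GR_ne_top φ hφ hm
  rw [eq_top_iff, ← htop]
  refine sup_le ?_ ?_
  · intro h hh
    refine ⟨0, fun p => ⟨(hh p).le, ?_⟩⟩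
    exact (HL.inv_mem hh p).le
  · rw [Subgroup.closure_le]
    intro v hv
    obtain ⟨k, rfl⟩ : v ∈ Set.range u := by
      rw [← hu]
      exact Or.inr hv
    refine ⟨k + 1, fun p => ?_⟩
    have := hN (p.1 + k) k (Nat.le_add_left _ _) p (Nat.le_add_right _ _)
    exact ⟨this.1.trans (hkey _ _), this.2.trans (hkey _ _)⟩

variable {I : Type} [LinearOrder I] [WellFoundedLT I]

/-- the requirement at stage `i` -/
def ReqC (F : I → Set (Perm Om)) (s : I → Perm Om) (i : I)
    (prev : (j : I) → j < i → Perm Om × Perm Om) (v : Perm Om × Perm Om) : Prop :=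
  (∃ a, v.1 = xx (s i) a) ∧
  (∀ j (hj : j < i), Far (Subgroup.closure ({y | ∃ k, ∃ hk : k < i, y = (prev k hk).1} ∪ F j)
    ⊔ Subgroup.closure {v.1}) (prev j hj).2) ∧
  Far (Subgroup.closure ({y | ∃ k, ∃ hk : k < i, y = (prev k hk).1} ∪ F i)
    ⊔ Subgroup.closure {v.1}) v.2

/-- the recursively defined sequence -/
noncomputable def bldC (F : I → Set (Perm Om)) (s : I → Perm Om) : I → Perm Om × Perm Om :=
  WellFounded.fix (C := fun _ => Perm Om × Perm Om) (wellFounded_lt (α := I))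
    (fun i prev => Classical.epsilon (fun v => ReqC F s i prev v))

lemma bld_eqC (F : I → Set (Perm Om)) (s : I → Perm Om) (i : I) :
    bldC F s i = Classical.epsilon (fun v => ReqC F s i (fun j _ => bldC F s j) v) :=
  WellFounded.fix_eq _ _ _

/-- the finitary argument -/
lemma far_limitC (x : I → Perm Om × Perm Om) (F : I → Set (Perm Om)) (j : I) (P : Set I)
    (hj : j ∈ P) (h : ∀ k ∈ P, j ≤ k → Far (Subgroup.closure (Upt x k ∪ F j)) (x j).2) :
    Far (Subgroup.closure ({y | ∃ k ∈ P, y = (x k).1} ∪ F j)) (x j).2 := by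
  intro g hg
  have hne : Nonempty {k // k ∈ P ∧ j ≤ k} := ⟨⟨j, hj, le_rfl⟩⟩
  have hdir : Directed (· ≤ ·) (fun k : {k // k ∈ P ∧ j ≤ k} =>
      Subgroup.closure (Upt x k ∪ F j)) := by
    rintro ⟨k, hk⟩ ⟨l, hl⟩
    rcases le_total k l with h' | h'
    · refine ⟨⟨l, hl⟩, Subgroup.closure_mono ?_, le_rfl⟩
      exact Set.union_subset_union_left _ (Upt_mono x h')
    · refine ⟨⟨k, hk⟩, le_rfl, Subgroup.closure_mono ?_⟩
      exact Set.union_subset_union_left _ (Upt_mono x h')
  have hle : Subgroup.closure ({y | ∃ k ∈ P, y = (x k).1} ∪ F j) ≤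
      ⨆ k : {k // k ∈ P ∧ j ≤ k}, Subgroup.closure (Upt x k ∪ F j) := by
    rw [Subgroup.closure_le]
    rintro y (⟨k, hk, rfl⟩ | hy)
    · rcases le_total j k with h' | h'
      · exact Subgroup.mem_iSup_of_mem ⟨k, hk, h'⟩
          (Subgroup.subset_closure (Or.inl ⟨k, le_rfl, rfl⟩))
      · exact Subgroup.mem_iSup_of_mem ⟨j, hj, le_rfl⟩
          (Subgroup.subset_closure (Or.inl ⟨k, h', rfl⟩))
    · exact Subgroup.mem_iSup_of_mem ⟨j, hj, le_rfl⟩ (Subgroup.subset_closure (Or.inr hy))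
  obtain ⟨⟨k, hk⟩, hk2⟩ := (Subgroup.mem_iSup_of_directed hdir).1 (hle hg)
  exact h k hk.1 hk.2 g hk2

lemma bld_specC (hI : ∀ i : I, #(Set.Iio i) < 𝔠)
    (F : I → Set (Perm Om)) (hF : ∀ i, (F i).Countable) (s : I → Perm Om) (hs : ∀ i, s i ∈ Sub AA) (i : I) :
    ReqC F s i (fun j _ => bldC F s j) (bldC F s i) := by
  induction i using WellFoundedLT.induction with
  | ind i ih =>
  -- the inductive property in terms of `Upt`
  have ih1 : ∀ k < i, ∀ j ≤ k, Far (Subgroup.closure (Upt (bldC F s) k ∪ F j)) (bldC F s j).2 := by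
    intro k hk j hj
    obtain ⟨-, h2, h3⟩ := ih k hk
    have hU : Subgroup.closure (Upt (bldC F s) k ∪ F j) =
        Subgroup.closure (Pre (bldC F s) k ∪ F j) ⊔ Subgroup.closure {(bldC F s k).1} := by
      rw [← Subgroup.closure_union, Upt_eq, Set.union_right_comm]
    rw [hU]
    rcases hj.lt_or_eq with h | h
    · exact h2 j h
    · subst h; exact h3
  have ih2 : ∀ j < i, Far (Subgroup.closure (Pre (bldC F s) i ∪ F j)) (bldC F s j).2 := by
    intro j hj
    have := far_limitC (bldC F s) F j (Set.Iio i) hj (fun k hk hjk => ih1 k hk j hjk)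
    refine far_mono (Subgroup.closure_mono ?_) this
    refine Set.union_subset_union_left _ ?_
    rintro y ⟨k, hk, rfl⟩
    exact ⟨k, hk, rfl⟩
  -- cardinalities
  let lam : Cardinal := max ℵ₀ #(Set.Iio i)
  have hlam : lam < 𝔠 := max_lt aleph0_lt_continuum (hI i)
  have hlam0 : ℵ₀ ≤ lam := le_max_left _ _
  have hPre : #(Pre (bldC F s) i) ≤ lam := by
    have : Pre (bldC F s) i ⊆ (fun k => (bldC F s k).1) '' (Set.Iio i) := by
      rintro y ⟨k, hk, rfl⟩
      exact ⟨k, hk, rfl⟩
    exact ((mk_le_mk_of_subset this).trans mk_image_le).trans (le_max_right _ _)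
  have hcl : ∀ j, #(Subgroup.closure (Pre (bldC F s) i ∪ F j)) ≤ lam := by
    intro j
    refine (card_closure_le _).trans (max_le hlam0 ?_)
    refine (mk_union_le _ _).trans ?_
    refine (add_le_add hPre ((hF j).le_aleph0.trans hlam0)).trans ?_
    rw [add_eq_self hlam0]
  -- choose the branch
  have hbad : #(⋃ j ∈ Set.Iio i, {a | ¬ Far (Subgroup.closure (Pre (bldC F s) i ∪ F j)
      ⊔ Subgroup.closure {xx (s i) a}) (bldC F s j).2} : Set (ℕ → Bool)) ≤ lam := by
    refine (mk_biUnion_le _ _).trans ?_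
    refine (mul_le_mul' (le_max_right ℵ₀ _) (ciSup_le' (a := lam) ?_)).trans ?_
    · rintro ⟨j, hj⟩
      refine (bad_card (fun a => xx (s i) a) (fun a b hab => xx_ad (hs i) (hs i) hab) (ih2 j hj)).trans ?_
      exact max_le hlam0 (hcl j)
    · exact (mul_eq_self hlam0).le
  obtain ⟨a, ha⟩ : ∃ a, a ∉ (⋃ j ∈ Set.Iio i, {a | ¬ Far (Subgroup.closure (Pre (bldC F s) i ∪ F j)
      ⊔ Subgroup.closure {xx (s i) a}) (bldC F s j).2} : Set (ℕ → Bool)) := by
    by_contra hcon
    push Not at hcon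
    rw [← Set.eq_univ_iff_forall] at hcon
    rw [hcon, mk_univ, card_branches] at hbad
    exact absurd hbad (not_le.2 hlam)
  have ha' : ∀ j < i, Far (Subgroup.closure (Pre (bldC F s) i ∪ F j)
      ⊔ Subgroup.closure {xx (s i) a}) (bldC F s j).2 := by
    intro j hj
    by_contra hcon
    exact ha (Set.mem_biUnion (x := j) hj hcon)
  obtain ⟨t, ht⟩ := exists_far (Subgroup.closure (Pre (bldC F s) i ∪ F i)
      ⊔ Subgroup.closure {xx (s i) a}) (by
    rw [← Subgroup.closure_union]
    refine lt_of_le_of_lt ((card_closure_le _).trans (max_le hlam0 ?_)) hlam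
    refine (mk_union_le _ _).trans ?_
    refine (add_le_add (b := lam) (d := lam) ?_ ?_).trans_eq (add_eq_self hlam0)
    · refine (mk_union_le _ _).trans ?_
      refine (add_le_add hPre ((hF i).le_aleph0.trans hlam0)).trans ?_
      rw [add_eq_self hlam0]
    · rw [mk_singleton]
      exact one_le_aleph0.trans hlam0)
  have hex : ∃ v, ReqC F s i (fun j _ => bldC F s j) v :=
    ⟨(xx (s i) a, t), ⟨a, rfl⟩, ha', ht⟩
  rw [bld_eqC F s i]
  exact Classical.epsilon_spec hex

lemma main_recC (hI : ∀ i : I, #(Set.Iio i) < 𝔠)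
    (F : I → Set (Perm Om)) (hF : ∀ i, (F i).Countable) (s : I → Perm Om) (hs : ∀ i, s i ∈ Sub AA) :
    ∃ x : I → Perm Om, (∀ i, ∃ a, x i = xx (s i) a) ∧
      ∀ j, Subgroup.closure (Set.range x ∪ F j) ≠ ⊤ := by
  refine ⟨fun i => (bldC F s i).1, fun i => (bld_specC hI F hF s hs i).1, fun j htop => ?_⟩
  have h1 : ∀ k, j ≤ k → Far (Subgroup.closure (Upt (bldC F s) k ∪ F j)) (bldC F s j).2 := by
    intro k hj
    obtain ⟨-, h2, h3⟩ := bld_specC hI F hF s hs k
    have hU : Subgroup.closure (Upt (bldC F s) k ∪ F j) =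
        Subgroup.closure (Pre (bldC F s) k ∪ F j) ⊔ Subgroup.closure {(bldC F s k).1} := by
      rw [← Subgroup.closure_union, Upt_eq, Set.union_right_comm]
    rw [hU]
    rcases hj.lt_or_eq with h | h
    · exact h2 j h
    · subst h; exact h3
  have h2 := far_limitC (bldC F s) F j Set.univ (Set.mem_univ j) (fun k _ hjk => h1 k hjk)
  have h3 : Set.range (fun i => (bldC F s i).1) ∪ F j ⊆
      {y | ∃ k ∈ Set.univ, y = (bldC F s k).1} ∪ F j := by
    refine Set.union_subset_union_left _ ?_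
    rintro y ⟨k, rfl⟩
    exact ⟨k, Set.mem_univ _, rfl⟩
  have h4 := Subgroup.closure_mono h3
  rw [htop, top_le_iff] at h4
  rw [h4] at h2
  have := h2 (bldC F s j).2 (Subgroup.mem_top _)
  simp at this


theorem main_OmC : ∃ G H : Subgroup (Perm Om), G ⊔ H = ⊤ ∧
    ∀ U : Set (Perm Om), U.Countable → G ⊔ Subgroup.closure U ≠ ⊤ ∧
      H ⊔ Subgroup.closure U ≠ ⊤ := by
  classical
  let I : Type := (𝔠 : Cardinal.{0}).ord.ToType
  have hIc : #I = 𝔠 := mk_ord_toType _
  have hI : ∀ i : I, #(Set.Iio i) < 𝔠 := fun i => by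
    have := mk_Iio_lt i (by simp [I])
    rwa [hIc] at this
  -- enumeration
  have hperm : #(Perm Om) = 𝔠 := by
    rw [mk_perm_eq_two_power, mk_eq_aleph0, two_power_aleph0]
  have hne : Nonempty ((ℕ → Perm Om) × Sub (AA)) := ⟨(fun _ => 1, 1)⟩
  have hcard : #((ℕ → Perm Om) × Sub (AA)) ≤ #I := by
    rw [hIc, mk_prod, lift_id, lift_id, mk_pi, prod_const, lift_id, lift_id, hperm, mk_nat,
      continuum_power_aleph0]
    refine (mul_le_mul' le_rfl ((mk_subtype_le _).trans_eq hperm)).trans ?_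
    rw [continuum_mul_self]
  obtain ⟨f⟩ : Nonempty (((ℕ → Perm Om) × Sub (AA)) ↪ I) := hcard
  have hsurj : Function.Surjective (Function.invFun f) := Function.invFun_surjective f.injective
  obtain ⟨x, hx1, hx2⟩ := main_recC hI (fun i => Set.range (Function.invFun f i).1)
    (fun i => Set.countable_range _)
    (fun i => ((Function.invFun f i).2 : Perm Om)) (fun i => (Function.invFun f i).2.2)
  obtain ⟨η, hη⟩ := exists_eta AA AA_inf
  refine ⟨Subgroup.closure (Set.range x) ⊔ Subgroup.closure {η}, HL, ?_, fun U hU => ⟨?_, ?_⟩⟩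
  · rw [eq_top_iff, ← hη]
    refine sup_le ?_ ?_
    · intro s hs
      obtain ⟨i, hi⟩ := hsurj (fun _ => 1, ⟨s, hs⟩)
      obtain ⟨a, ha⟩ := hx1 i
      rw [hi] at ha
      refine mem_of_xx (a := a) ?_ le_sup_right
      rw [← ha]
      exact Subgroup.mem_sup_left (Subgroup.mem_sup_left (Subgroup.subset_closure ⟨i, rfl⟩))
    · exact le_sup_of_le_left le_sup_right
  · obtain ⟨u, hu⟩ := (hU.insert η).exists_eq_range (Set.insert_nonempty η U)
    obtain ⟨i, hi⟩ := hsurj (u, 1)
    have := hx2 i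
    rw [hi] at this
    intro htop
    apply this
    rw [← htop, ← Subgroup.closure_union, ← Subgroup.closure_union]
    congr 1
    show Set.range x ∪ Set.range u = Set.range x ∪ {η} ∪ U
    rw [← hu, Set.union_assoc, Set.singleton_union]
  · exact HL_notC _ hU

/-- For every countably infinite set there are two subgroups which together generate its symmetric
group, while none of them does so with the help of countably many further permutations. -/
theorem main_count (Ω : Type*) [Countable Ω] [Infinite Ω] :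
    ∃ G H : Subgroup (Perm Ω), Subgroup.closure ((G : Set (Perm Ω)) ∪ (H : Set (Perm Ω))) = ⊤ ∧
      ∀ F : Set (Perm Ω), F.Countable →
        Subgroup.closure ((G : Set (Perm Ω)) ∪ F) ≠ ⊤ ∧
          Subgroup.closure ((H : Set (Perm Ω)) ∪ F) ≠ ⊤ := by
  classical
  obtain ⟨G, H, hGH, hU⟩ := main_OmC
  obtain ⟨e⟩ : Nonempty (Om ≃ Ω) := nonempty_equiv_of_countable
  let φ : Perm Om ≃* Perm Ω := e.permCongrHom
  have key : ∀ (K : Subgroup (Perm Om)) (F : Set (Perm Ω)),
      Subgroup.closure ((K.map φ.toMonoidHom : Subgroup (Perm Ω)) ∪ F : Set (Perm Ω)) = ⊤ →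
      K ⊔ Subgroup.closure (φ.symm '' F) = ⊤ := by
    intro K F h
    rw [Subgroup.closure_union, Subgroup.closure_eq] at h
    have h1 := congrArg (Subgroup.map φ.symm.toMonoidHom) h
    rw [Subgroup.map_sup, Subgroup.map_map, MonoidHom.map_closure] at h1
    have h2 : φ.symm.toMonoidHom.comp φ.toMonoidHom = MonoidHom.id _ := by
      ext1 g
      exact φ.symm_apply_apply g
    rw [h2, Subgroup.map_id, Subgroup.map_top_of_surjective _ φ.symm.surjective] at h1
    rw [← h1]
    rfl
  refine ⟨G.map φ.toMonoidHom, H.map φ.toMonoidHom, ?_, fun F hF => ⟨?_, ?_⟩⟩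
  · rw [Subgroup.closure_union, Subgroup.closure_eq, Subgroup.closure_eq, ← Subgroup.map_sup, hGH,
      Subgroup.map_top_of_surjective _ φ.surjective]
  · intro h
    exact (hU _ (hF.image _)).1 (key G F h)
  · intro h
    exact (hU _ (hF.image _)).2 (key H F h)

end Pool.Agent.H26.SymGen
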