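import Mathlib

/-!
# Generation of a symmetric group by the permutations supported on two large sets
-/

namespace Pool.Agent.H26.SymGen

open Equiv

lemma inv_ap {Ω : Type} (e : Perm Ω) (p : Ω) : e⁻¹ (e p) = p := e.symm_apply_apply p

lemma ap_inv {Ω : Type} (e : Perm Ω) (p : Ω) : e (e⁻¹ p) = p := e.apply_symm_apply p

variable {Ω : Type}

/-- permutations supported on `A` -/
def Sub (A : Set Ω) : Subgroup (Perm Ω) where
  carrier := {s | ∀ p, p ∉ A → s p = p}
  one_mem' := fun _ _ => rfl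
  mul_mem' := by
    intro a b ha hb p hp
    rw [Perm.mul_apply, hb p hp, ha p hp]
  inv_mem' := by
    intro a ha p hp
    rw [Perm.inv_eq_iff_eq, ha p hp]

lemma mem_Sub {A : Set Ω} {s : Perm Ω} : s ∈ Sub A ↔ ∀ p, p ∉ A → s p = p := Iff.rfl

lemma Sub_maps {A : Set Ω} {s : Perm Ω} (hs : s ∈ Sub A) {p : Ω} (hp : p ∈ A) : s p ∈ A := by
  by_contra h
  have h1 := hs _ h
  exact h (by rw [s.injective h1]; exact hp)

variable [Countable Ω]

/-- Extension of an injection to a permutation supported on `B`. -/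
lemma ext_perm (B E : Set Ω) (f : Ω → Ω) (hE : E ⊆ B) (hfE : ∀ p ∈ E, f p ∈ B)
    (hinj : Set.InjOn f E) (h1 : (B \ E).Infinite) (h2 : (B \ f '' E).Infinite) :
    ∃ c ∈ Sub B, ∀ p ∈ E, c p = f p := by
  classical
  have i1 : Infinite ↥(B \ E) := h1.to_subtype
  have i2 : Infinite ↥(B \ f '' E) := h2.to_subtype
  obtain ⟨u⟩ : Nonempty (↥(B \ E) ≃ ↥(B \ f '' E)) := nonempty_equiv_of_countable
  let g : Ω → Ω := fun p => if hp : p ∈ E then f p else if hp' : p ∈ B then u ⟨p, hp', hp⟩ else p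
  have gE : ∀ p ∈ E, g p = f p := fun p hp => by simp [g, hp]
  have gB : ∀ p (hp : p ∉ E) (hp' : p ∈ B), g p = u ⟨p, hp', hp⟩ := fun p hp hp' => by
    simp [g, hp, hp']
  have gO : ∀ p, p ∉ B → g p = p := fun p hp => by
    have : p ∉ E := fun h => hp (hE h)
    simp [g, hp, this]
  have gB2 : ∀ p, p ∉ E → p ∈ B → g p ∈ B \ f '' E := fun p hp hp' => by
    rw [gB p hp hp']; exact (u _).2
  have ginj : Function.Injective g := by
    intro p q hpq
    by_cases hp : p ∈ E
    · by_cases hq : q ∈ E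
      · rw [gE p hp, gE q hq] at hpq
        exact hinj hp hq hpq
      · exfalso
        by_cases hq' : q ∈ B
        · have := (gB2 q hq hq').2
          rw [← hpq, gE p hp] at this
          exact this ⟨p, hp, rfl⟩
        · rw [gO q hq', gE p hp] at hpq
          exact hq' (hpq ▸ hfE p hp)
    · by_cases hp' : p ∈ B
      · by_cases hq : q ∈ E
        · exfalso
          have := (gB2 p hp hp').2
          rw [hpq, gE q hq] at this
          exact this ⟨q, hq, rfl⟩
        · by_cases hq' : q ∈ B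
          · rw [gB p hp hp', gB q hq hq'] at hpq
            have := u.injective (Subtype.ext hpq)
            exact congrArg Subtype.val this
          · exfalso
            rw [gO q hq'] at hpq
            exact hq' (hpq ▸ (gB2 p hp hp').1)
      · by_cases hq : q ∈ E
        · exfalso
          rw [gO p hp', gE q hq] at hpq
          exact hp' (hpq ▸ hfE q hq)
        · by_cases hq' : q ∈ B
          · exfalso
            rw [gO p hp'] at hpq
            exact hp' (hpq ▸ (gB2 q hq hq').1)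
          · rw [gO p hp', gO q hq'] at hpq
            exact hpq
  have gsurj : Function.Surjective g := by
    intro q
    by_cases hq : q ∈ B
    · by_cases hq2 : q ∈ f '' E
      · obtain ⟨p, hp, rfl⟩ := hq2
        exact ⟨p, gE p hp⟩
      · refine ⟨(u.symm ⟨q, hq, hq2⟩ : Ω), ?_⟩
        rw [gB _ (u.symm ⟨q, hq, hq2⟩).2.2 (u.symm ⟨q, hq, hq2⟩).2.1]
        exact congrArg Subtype.val (u.apply_symm_apply ⟨q, hq, hq2⟩)
    · exact ⟨q, gO q hq⟩
  refine ⟨Equiv.ofBijective g ⟨ginj, gsurj⟩, ?_, ?_⟩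
  · intro p hp
    exact gO p hp
  · intro p hp
    exact gE p hp

/-- An injection into an infinite set with infinite complement of the range in that set. -/
lemma exists_coinf (M : Set Ω) (hM : M.Infinite) :
    ∃ f : Ω → Ω, Function.Injective f ∧ (∀ p, f p ∈ M) ∧ (M \ Set.range f).Infinite := by
  have i : Infinite ↥M := hM.to_subtype
  obtain ⟨e⟩ : Nonempty (ℕ ≃ ↥M) := nonempty_equiv_of_countable
  obtain ⟨c, hc⟩ := Countable.exists_injective_nat Ω
  refine ⟨fun p => e (2 * c p), ?_, fun p => (e _).2, ?_⟩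
  · intro p q hpq
    have := e.injective (Subtype.ext hpq)
    exact hc (by omega)
  · have : (Set.range (fun n : ℕ => (e (2 * n + 1) : Ω))) ⊆ M \ Set.range (fun p => (e (2 * c p) : Ω)) := by
      rintro _ ⟨n, rfl⟩
      refine ⟨(e _).2, ?_⟩
      rintro ⟨p, hp⟩
      have := e.injective (Subtype.ext hp)
      omega
    refine Set.Infinite.mono this (Set.infinite_range_of_injective ?_)
    intro m n hmn
    have := e.injective (Subtype.ext hmn)
    omega

lemma gen_case1 (A C : Set Ω) (hAC : ∀ p, p ∈ A ∨ p ∈ C) (hM : (A ∩ C).Infinite)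
    (s : Perm Ω) (h : {p | p ∈ A ∧ s⁻¹ p ∈ A}.Infinite) : s ∈ Sub A ⊔ Sub C := by
  obtain ⟨f, hf, hfM, hfc⟩ := exists_coinf (A ∩ C) hM
  -- `E = s '' Aᶜ`
  have hEA : ∀ p, p ∈ A ∧ s⁻¹ p ∉ A → p ∈ A := fun p hp => hp.1
  obtain ⟨a, ha, haf⟩ := ext_perm A {p | p ∈ A ∧ s⁻¹ p ∉ A} f hEA (fun p _ => (hfM p).1)
    (hf.injOn) (by
      refine h.mono ?_
      rintro p ⟨hp, hp'⟩
      exact ⟨hp, fun hcon => hcon.2 hp'⟩) (by
      refine hfc.mono ?_
      rintro p ⟨hp, hp'⟩
      refine ⟨hp.1, ?_⟩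
      rintro ⟨q, _, rfl⟩
      exact hp' ⟨q, rfl⟩)
  have hC : ∀ p, s⁻¹ p ∉ A → a p ∈ C ∧ a p ∉ (A ∩ C) \ Set.range f := by
    intro p hp
    by_cases hpA : p ∈ A
    · rw [haf p ⟨hpA, hp⟩]
      exact ⟨(hfM p).2, fun hcon => hcon.2 ⟨p, rfl⟩⟩
    · rw [ha p hpA]
      exact ⟨(hAC p).resolve_left hpA, fun hcon => hpA hcon.1.1⟩
  obtain ⟨c, hc, hcf⟩ := ext_perm C {q | (a * s)⁻¹ q ∉ A} (fun q => (a * s)⁻¹ q) (by
      intro q hq
      have hq' : s⁻¹ (a⁻¹ q) ∉ A := by
        have : (a * s)⁻¹ q = s⁻¹ (a⁻¹ q) := by rw [mul_inv_rev]; rfl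
        rw [← this]; exact hq
      have := (hC (a⁻¹ q) hq').1
      simpa using this) (by
      intro q hq
      exact (hAC _).resolve_left hq) ((a * s)⁻¹).injective.injOn (by
      refine hfc.mono ?_
      rintro q hq
      refine ⟨hq.1.2, ?_⟩
      intro hcon
      have hq' : s⁻¹ (a⁻¹ q) ∉ A := by
        have : (a * s)⁻¹ q = s⁻¹ (a⁻¹ q) := by rw [mul_inv_rev]; rfl
        rw [← this]; exact hcon
      have := (hC (a⁻¹ q) hq').2
      rw [ap_inv] at this
      exact this hq) (by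
      refine hM.mono ?_
      rintro p ⟨hp, hp'⟩
      refine ⟨hp', ?_⟩
      rintro ⟨q, hq, rfl⟩
      exact hq hp)
  have h3 : c * (a * s) ∈ Sub A := by
    intro p hp
    have : (a * s)⁻¹ ((a * s) p) ∉ A := by rw [inv_ap]; exact hp
    have h4 := hcf ((a * s) p) this
    rw [inv_ap] at h4
    exact h4
  have h5 : s = a⁻¹ * (c⁻¹ * (c * (a * s))) := by group
  rw [h5]
  refine Subgroup.mul_mem _ (Subgroup.inv_mem _ (Subgroup.mem_sup_left ha)) ?_
  exact Subgroup.mul_mem _ (Subgroup.inv_mem _ (Subgroup.mem_sup_right hc))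
    (Subgroup.mem_sup_left h3)

lemma gen_all (A C : Set Ω) (hAC : ∀ p, p ∈ A ∨ p ∈ C) (hM : (A ∩ C).Infinite) :
    Sub A ⊔ Sub C = ⊤ := by
  rw [eq_top_iff]
  intro s _
  by_cases h : {p | p ∈ A ∧ s⁻¹ p ∈ A}.Infinite
  · exact gen_case1 A C hAC hM s h
  · rw [Set.not_infinite] at h
    have hR : {p | p ∉ A ∧ s⁻¹ p ∈ A}.Infinite := by
      have h1 : {p | s⁻¹ p ∈ A}.Infinite := by
        have hA : A.Infinite := hM.mono Set.inter_subset_left
        have : {p | s⁻¹ p ∈ A} = s '' A := by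
          ext p
          constructor
          · intro hp
            exact ⟨s⁻¹ p, hp, by simp⟩
          · rintro ⟨q, hq, rfl⟩
            simpa using hq
        rw [this]
        exact hA.image s.injective.injOn
      refine (h1.sdiff h).mono ?_
      rintro p ⟨hp, hp'⟩
      exact ⟨fun hcon => hp' ⟨hcon, hp⟩, hp⟩
    obtain ⟨f, hf, hfM, hfc⟩ := exists_coinf (A ∩ C) hM
    obtain ⟨u, hu, huf⟩ := ext_perm C {p | p ∉ A ∧ s⁻¹ p ∈ A} f
      (fun p hp => (hAC p).resolve_left hp.1) (fun p _ => (hfM p).2) hf.injOn (by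
        refine hM.mono ?_
        rintro p ⟨hp, hp'⟩
        exact ⟨hp', fun hcon => hcon.1 hp⟩) (by
        refine hfc.mono ?_
        rintro p ⟨hp, hp'⟩
        refine ⟨hp.2, ?_⟩
        rintro ⟨q, _, rfl⟩
        exact hp' ⟨q, rfl⟩)
    have h2 : {p | p ∈ A ∧ (u * s)⁻¹ p ∈ A}.Infinite := by
      refine (hR.image u.injective.injOn).mono ?_
      rintro _ ⟨p, hp, rfl⟩
      refine ⟨?_, ?_⟩
      · rw [huf p hp]; exact (hfM p).1
      · rw [mul_inv_rev, Perm.mul_apply, inv_ap]; exact hp.2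
    have h3 := gen_case1 A C hAC hM (u * s) h2
    have h4 : s = u⁻¹ * (u * s) := by group
    rw [h4]
    exact Subgroup.mul_mem _ (Subgroup.inv_mem _ (Subgroup.mem_sup_right hu)) h3

/-- The symmetric group is generated by `Sub A` and one more element. -/
lemma exists_eta (A : Set Ω) (hA : A.Infinite) :
    ∃ η : Perm Ω, Sub A ⊔ Subgroup.closure {η} = ⊤ := by
  obtain ⟨f, hf, hfM, hfc⟩ := exists_coinf A hA
  obtain ⟨η, -, hη⟩ := ext_perm Set.univ Aᶜ f (Set.subset_univ _) (fun _ _ => Set.mem_univ _)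
    hf.injOn (by
      refine hA.mono ?_
      intro p hp
      exact ⟨Set.mem_univ _, fun h => h hp⟩) (by
      refine hfc.mono ?_
      rintro p ⟨hp, hp'⟩
      refine ⟨Set.mem_univ _, ?_⟩
      rintro ⟨q, _, rfl⟩
      exact hp' ⟨q, rfl⟩)
  refine ⟨η, ?_⟩
  have h1 : Sub A ⊔ Sub (η '' A) = ⊤ := by
    apply gen_all
    · intro p
      by_cases hp : p ∈ A
      · exact Or.inl hp
      · right
        refine ⟨η⁻¹ p, ?_, by simp⟩
        by_contra h
        have := hη _ h
        rw [ap_inv] at this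
        exact hp (this ▸ hfM _)
    · refine hfc.mono ?_
      rintro p ⟨hp, hp'⟩
      refine ⟨hp, η⁻¹ p, ?_, by simp⟩
      by_contra h
      have := hη _ h
      rw [ap_inv] at this
      exact hp' ⟨_, this.symm⟩
  rw [eq_top_iff, ← h1]
  refine sup_le le_sup_left ?_
  intro s hs
  have h2 : η⁻¹ * s * η ∈ Sub A := by
    intro p hp
    have : η p ∉ η '' A := by
      rintro ⟨q, hq, hqp⟩
      exact hp (η.injective hqp ▸ hq)
    have h3 := hs _ this
    rw [Perm.mul_apply, Perm.mul_apply, h3, inv_ap]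
  have h4 : s = η * (η⁻¹ * s * η) * η⁻¹ := by group
  rw [h4]
  have h5 : η ∈ Sub A ⊔ Subgroup.closure {η} :=
    Subgroup.mem_sup_right (Subgroup.subset_closure rfl)
  exact Subgroup.mul_mem _ (Subgroup.mul_mem _ h5 (Subgroup.mem_sup_left h2))
    (Subgroup.inv_mem _ h5)

end Pool.Agent.H26.SymGen
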