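import Mathlib
import Pool.Agent.H26.SymGenMoiety

/-!
# The level structure and the group of level-preserving permutations
-/

namespace Pool.Agent.H26.SymGen

open Equiv

/-- points: level `n` consists of one extra point and the binary strings of length `n` -/
abbrev Om := Σ n : ℕ, Option (Fin n → Bool)

lemma lvl_finite (n : ℕ) : {p : Om | p.1 ≤ n}.Finite := by
  have : {p : Om | p.1 ≤ n} ⊆ ⋃ m ∈ Set.Iic n, Set.range (fun z : Option (Fin m → Bool) => (⟨m, z⟩ : Om)) := by
    rintro ⟨m, z⟩ h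
    exact Set.mem_biUnion (x := m) h ⟨z, rfl⟩
  exact ((Set.finite_Iic n).biUnion (fun m _ => Set.finite_range _)).subset this

/-- level-preserving permutations -/
def HL : Subgroup (Perm Om) where
  carrier := {h | ∀ p, (h p).1 = p.1}
  one_mem' := fun _ => rfl
  mul_mem' := by
    intro a b ha hb p
    rw [Perm.mul_apply, ha, hb]
  inv_mem' := by
    intro a ha p
    have := ha (a⁻¹ p)
    rw [ap_inv] at this
    exact this.symm

lemma iter_mono_left {φ : ℕ → ℕ} (hφ : ∀ n, n ≤ φ n) (hm : Monotone φ) {i j : ℕ} (hij : i ≤ j)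
    (n : ℕ) : φ^[i] n ≤ φ^[j] n := by
  obtain ⟨k, rfl⟩ := Nat.exists_eq_add_of_le hij
  rw [Function.iterate_add_apply]
  apply hm.iterate
  clear hij
  induction k with
  | zero => simp
  | succ k ih =>
    rw [Function.iterate_succ_apply']
    exact ih.trans (hφ _)

/-- permutations whose growth is bounded by an iterate of `φ` -/
def GR (φ : ℕ → ℕ) (hm : Monotone φ) : Subgroup (Perm Om) where
  carrier := {g | ∃ j, ∀ p, (g p).1 ≤ φ^[j] p.1 ∧ (g⁻¹ p).1 ≤ φ^[j] p.1}
  one_mem' := ⟨0, fun p => ⟨le_rfl, le_rfl⟩⟩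
  mul_mem' := by
    rintro a b ⟨i, ha⟩ ⟨j, hb⟩
    refine ⟨i + j, fun p => ⟨?_, ?_⟩⟩
    · rw [Perm.mul_apply, Function.iterate_add_apply]
      exact (ha _).1.trans (hm.iterate _ (hb _).1)
    · rw [mul_inv_rev, Perm.mul_apply, add_comm, Function.iterate_add_apply]
      exact (hb _).2.trans (hm.iterate _ (ha _).2)
  inv_mem' := by
    rintro a ⟨j, ha⟩
    refine ⟨j, fun p => ⟨(ha p).2, ?_⟩⟩
    rw [inv_inv]
    exact (ha p).1

/-- the permutation of `ℕ` exchanging `2n` and `2n+1` -/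
def swp : Perm ℕ := Function.Involutive.toPerm (fun n => if n % 2 = 0 then n + 1 else n - 1) (by
  intro n
  by_cases h : n % 2 = 0
  · have h2 : ¬ (n + 1) % 2 = 0 := by omega
    simp [h, h2]
  · have h2 : (n - 1) % 2 = 0 := by omega
    simp only [h, if_false, h2, if_true]
    omega)

lemma swp_even (n : ℕ) : swp (2 * n) = 2 * n + 1 := by
  show (if (2 * n) % 2 = 0 then 2 * n + 1 else 2 * n - 1) = 2 * n + 1
  simp

lemma GR_ne_top (φ : ℕ → ℕ) (hφ : ∀ n, n ≤ φ n) (hm : Monotone φ) : GR φ hm ≠ ⊤ := by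
  -- a fast sequence of levels
  let c : ℕ → ℕ := fun n => Nat.rec 0 (fun k x => φ^[k] x + 1) n
  have hc : ∀ n, c (n + 1) = φ^[n] (c n) + 1 := fun n => rfl
  have hc2 : StrictMono c := by
    apply strictMono_nat_of_lt_succ
    intro n
    rw [hc]
    have := iter_mono_left hφ hm (Nat.zero_le n) (c n)
    simp only [Function.iterate_zero, id] at this
    omega
  let e : ℕ ↪ Om := ⟨fun n => ⟨c n, none⟩, fun m n h => by
    apply hc2.injective
    exact congrArg Sigma.fst h⟩
  have he : ∀ n, (e n).1 = c n := fun n => rfl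
  intro htop
  have hs : swp.viaEmbedding e ∈ GR φ hm := by rw [htop]; trivial
  obtain ⟨j, hj⟩ := hs
  have h1 := (hj (e (2 * j))).1
  rw [Perm.viaEmbedding_apply, swp_even, he, he, hc] at h1
  have h2 := iter_mono_left hφ hm (show j ≤ 2 * j by omega) (c (2 * j))
  omega

lemma HL_not (U : Set (Perm Om)) (hU : U.Finite) : HL ⊔ Subgroup.closure U ≠ ⊤ := by
  have hN : ∀ n, ∃ N, ∀ u ∈ U, ∀ p : Om, p.1 ≤ n → (u p).1 ≤ N ∧ (u⁻¹ p).1 ≤ N := by
    intro n
    have hf : (⋃ u ∈ U, ((fun p : Om => (u p).1) '' {p | p.1 ≤ n} ∪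
        (fun p : Om => (u⁻¹ p).1) '' {p | p.1 ≤ n})).Finite :=
      hU.biUnion (fun u _ => ((lvl_finite n).image _).union ((lvl_finite n).image _))
    obtain ⟨N, hN⟩ := hf.bddAbove
    refine ⟨N, fun u hu p hp => ⟨?_, ?_⟩⟩
    · exact hN (Set.mem_biUnion hu (Or.inl ⟨p, hp, rfl⟩))
    · exact hN (Set.mem_biUnion hu (Or.inr ⟨p, hp, rfl⟩))
  choose N hN using hN
  let φ : ℕ → ℕ := fun n => n + ∑ m ∈ Finset.range (n + 1), N m
  have hφ : ∀ n, n ≤ φ n := fun n => Nat.le_add_right _ _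
  have hm : Monotone φ := by
    intro m n hmn
    refine Nat.add_le_add hmn ?_
    exact Finset.sum_le_sum_of_subset (Finset.range_mono (by omega))
  have hNφ : ∀ n, N n ≤ φ n := by
    intro n
    refine le_trans ?_ (Nat.le_add_left _ _)
    exact Finset.single_le_sum (f := N) (fun _ _ => Nat.zero_le _) (Finset.mem_range.2 (Nat.lt_succ_self n))
  intro htop
  apply GR_ne_top φ hφ hm
  rw [eq_top_iff, ← htop]
  refine sup_le ?_ ?_
  · intro h hh
    refine ⟨0, fun p => ⟨(hh p).le, ?_⟩⟩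
    exact (HL.inv_mem hh p).le
  · rw [Subgroup.closure_le]
    intro u hu
    refine ⟨1, fun p => ?_⟩
    have := hN p.1 u hu p le_rfl
    exact ⟨this.1.trans (hNφ _), this.2.trans (hNφ _)⟩

/-- the extra points -/
def AA : Set Om := {p | p.2 = none}

lemma AA_inf : AA.Infinite := by
  have : Set.range (fun n : ℕ => (⟨n, none⟩ : Om)) ⊆ AA := by
    rintro _ ⟨n, rfl⟩
    rfl
  refine (Set.infinite_range_of_injective ?_).mono this
  intro m n h
  exact congrArg Sigma.fst h

/-- exchange of the extra points with the points of a branch -/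
def hb (a : ℕ → Bool) : Perm Om :=
  Equiv.sigmaCongrRight (fun n => Equiv.swap none (some (fun i : Fin n => a i)))

lemma hb_mem (a : ℕ → Bool) : hb a ∈ HL := fun _ => rfl

/-- the transported permutation -/
def xx (s : Perm Om) (a : ℕ → Bool) : Perm Om := hb a * s * (hb a)⁻¹

lemma xx_supp {s : Perm Om} (hs : s ∈ Sub AA) {a : ℕ → Bool} {p : Om} (hp : xx s a p ≠ p) :
    p.2 = some (fun i : Fin p.1 => a i) := by
  have h1 : (hb a)⁻¹ p ∈ AA := by
    by_contra h
    apply hp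
    have := hs _ h
    rw [xx, Perm.mul_apply, Perm.mul_apply, this, ap_inv]
  have h2 : p = hb a ((hb a)⁻¹ p) := (ap_inv _ _).symm
  rcases hq : (hb a)⁻¹ p with ⟨n, z⟩
  rw [hq] at h1 h2
  have h3 : z = none := h1
  subst h3
  rw [h2]
  show Equiv.swap none (some (fun i : Fin n => a i)) none = _
  rw [Equiv.swap_apply_left]
  rfl

lemma xx_ad {s s' : Perm Om} (hs : s ∈ Sub AA) (hs' : s' ∈ Sub AA) {a b : ℕ → Bool} (hab : a ≠ b) :
    {p | xx s a p ≠ p ∧ xx s' b p ≠ p}.Finite := by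
  obtain ⟨i, hi⟩ := Function.ne_iff.1 hab
  refine (lvl_finite i).subset ?_
  rintro p ⟨h1, h2⟩
  have h3 := xx_supp hs h1
  have h4 := xx_supp hs' h2
  rw [h3] at h4
  by_contra hcon
  have hcon' : i < p.1 := not_le.1 hcon
  have h5 := congrFun (Option.some.inj h4) ⟨i, hcon'⟩
  exact hi h5

lemma mem_of_xx {s : Perm Om} {a : ℕ → Bool} {L : Subgroup (Perm Om)} (h : xx s a ∈ L)
    (hL : HL ≤ L) : s ∈ L := by
  have h1 : s = (hb a)⁻¹ * xx s a * hb a := by
    unfold xx
    group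
  rw [h1]
  exact L.mul_mem (L.mul_mem (L.inv_mem (hL (hb_mem a))) h) (hL (hb_mem a))

end Pool.Agent.H26.SymGen
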