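import Mathlib

/-!
# Words in one variable over a subgroup of a symmetric group, and almost disjoint supports
-/

namespace Pool.Agent.H26.SymGen

open Equiv Cardinal

variable {Ω : Type}

/-- `t` differs from each element of `K` at infinitely many points. -/
def Far (K : Subgroup (Perm Ω)) (t : Perm Ω) : Prop := ∀ g ∈ K, {p | g p ≠ t p}.Infinite

/-- value of a letter -/
def lt (K : Subgroup (Perm Ω)) (x : Perm Ω) : K ⊕ Bool → Perm Ω
  | Sum.inl c => c
  | Sum.inr true => x
  | Sum.inr false => x⁻¹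

/-- value of a word -/
def ev (K : Subgroup (Perm Ω)) (x : Perm Ω) (w : List (K ⊕ Bool)) : Perm Ω :=
  (w.map (lt K x)).prod

variable {K : Subgroup (Perm Ω)}

@[simp] lemma ev_nil (x : Perm Ω) : ev K x [] = 1 := rfl
@[simp] lemma ev_cons (x : Perm Ω) (l : K ⊕ Bool) (w) : ev K x (l :: w) = lt K x l * ev K x w := by
  simp [ev]
lemma ev_append (x : Perm Ω) (w w' : List (K ⊕ Bool)) : ev K x (w ++ w') = ev K x w * ev K x w' := by
  simp [ev]

/-- inverse letter -/
def invl : K ⊕ Bool → K ⊕ Bool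
  | Sum.inl c => Sum.inl c⁻¹
  | Sum.inr b => Sum.inr (!b)

lemma lt_invl (x : Perm Ω) (l : K ⊕ Bool) : lt K x (invl l) = (lt K x l)⁻¹ := by
  rcases l with c | b
  · rfl
  · cases b <;> simp [invl, lt]

lemma exists_inv (x : Perm Ω) (w : List (K ⊕ Bool)) : ∃ w', ev K x w' = (ev K x w)⁻¹ := by
  induction w with
  | nil => exact ⟨[], by simp⟩
  | cons l w ih =>
    obtain ⟨w', hw'⟩ := ih
    exact ⟨w' ++ [invl l], by rw [ev_append, hw', ev_cons, ev_nil, ev_cons, mul_one, lt_invl, mul_inv_rev]⟩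

lemma exists_word (K : Subgroup (Perm Ω)) (x g : Perm Ω) (hg : g ∈ K ⊔ Subgroup.closure {x}) :
    ∃ w, ev K x w = g := by
  let L : Subgroup (Perm Ω) :=
    { carrier := {g | ∃ w, ev K x w = g}
      one_mem' := ⟨[], rfl⟩
      mul_mem' := by
        rintro _ _ ⟨w, rfl⟩ ⟨w', rfl⟩
        exact ⟨w ++ w', ev_append x w w'⟩
      inv_mem' := by
        rintro _ ⟨w, rfl⟩
        exact exists_inv x w }
  have h1 : K ≤ L := fun c hc => ⟨[Sum.inl ⟨c, hc⟩], by simp [lt]⟩
  have h2 : Subgroup.closure {x} ≤ L := by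
    rw [Subgroup.closure_le]
    rintro _ rfl
    exact ⟨[Sum.inr true], by simp [lt]⟩
  exact (sup_le h1 h2) hg

lemma ev_one_mem (w : List (K ⊕ Bool)) : ev K 1 w ∈ K := by
  induction w with
  | nil => exact K.one_mem
  | cons l w ih =>
    rw [ev_cons]
    refine K.mul_mem ?_ ih
    rcases l with c | b
    · exact c.2
    · cases b <;> simp [lt]

/-- The points visited by the trajectory of `p` when the variable is set to `1`. -/
def vis (K : Subgroup (Perm Ω)) : List (K ⊕ Bool) → Ω → List Ω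
  | [], _ => []
  | (_ :: w), p => ev K 1 w p :: vis K w p

lemma vis_length (w : List (K ⊕ Bool)) (p : Ω) : (vis K w p).length = w.length := by
  induction w with
  | nil => rfl
  | cons l w ih => simp [vis, ih]

lemma ev_eq_of_vis (x : Perm Ω) (w : List (K ⊕ Bool)) (p : Ω) (h : ∀ q ∈ vis K w p, x q = q) :
    ev K x w p = ev K 1 w p := by
  induction w with
  | nil => rfl
  | cons l w ih =>
    have h1 : ev K x w p = ev K 1 w p := ih (fun q hq => h q (by simp [vis, hq]))
    have h2 : x (ev K 1 w p) = ev K 1 w p := h _ (by simp [vis])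
    rw [ev_cons, ev_cons, Perm.mul_apply, Perm.mul_apply, h1]
    rcases l with c | b
    · rfl
    · cases b
      · show x⁻¹ _ = (1 : Perm Ω)⁻¹ _
        rw [inv_one, Perm.one_apply, Perm.inv_eq_iff_eq, h2]
      · show x _ = (1 : Perm Ω) _
        rw [Perm.one_apply, h2]

lemma vis_finite (w : List (K ⊕ Bool)) (q : Ω) : {p | q ∈ vis K w p}.Finite := by
  induction w with
  | nil => simp [vis]
  | cons l w ih =>
    refine ((Set.finite_singleton ((ev K 1 w)⁻¹ q)).union ih).subset ?_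
    intro p hp
    simp only [vis, List.mem_cons, Set.mem_ofPred_eq] at hp
    rcases hp with hp | hp
    · left
      simp [hp]
    · right
      exact hp

lemma word_bad {ι : Type} (X : ι → Perm Ω)
    (hX : ∀ a b, a ≠ b → {p | X a p ≠ p ∧ X b p ≠ p}.Finite) {t : Perm Ω} (ht : Far K t)
    (w : List (K ⊕ Bool)) : {a | {p | ev K (X a) w p ≠ t p}.Finite}.Finite := by
  classical
  by_contra hinf
  obtain ⟨T, hT, hcard⟩ := (Set.not_finite.mp hinf).exists_subset_card_eq (w.length + 1)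
  have hD : {p | ev K 1 w p ≠ t p}.Infinite := ht _ (ev_one_mem w)
  have hZ : (⋃ a ∈ T, ⋃ b ∈ T, ⋃ (_ : a ≠ b), {p | X a p ≠ p ∧ X b p ≠ p}).Finite := by
    refine T.finite_toSet.biUnion (fun a _ => T.finite_toSet.biUnion (fun b _ => ?_))
    exact Set.finite_iUnion (fun hab => hX a b hab)
  have hV : (⋃ q ∈ (⋃ a ∈ T, ⋃ b ∈ T, ⋃ (_ : a ≠ b), {p | X a p ≠ p ∧ X b p ≠ p}),
      {p | q ∈ vis K w p}).Finite := hZ.biUnion (fun q _ => vis_finite w q)
  have hB : (⋃ a ∈ T, {p | ev K (X a) w p ≠ t p}).Finite :=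
    T.finite_toSet.biUnion (fun a ha => hT ha)
  obtain ⟨p, hp, hp'⟩ := (hD.sdiff (hV.union hB)).nonempty
  simp only [Set.mem_union, not_or] at hp'
  obtain ⟨hpV, hpB⟩ := hp'
  have key : ∀ a ∈ T, ∃ q ∈ (vis K w p).toFinset, X a q ≠ q := by
    intro a ha
    by_contra hcon
    push Not at hcon
    have h1 := ev_eq_of_vis (X a) w p (fun q hq => hcon q (by simpa using hq))
    have h2 : ev K (X a) w p = t p := by
      by_contra h3
      exact hpB (Set.mem_biUnion ha h3)
    exact hp (by rw [← h1, h2])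
  have hne : Nonempty Ω := ⟨p⟩
  choose! f hf hf' using key
  have hlt : (vis K w p).toFinset.card < T.card := by
    rw [hcard]
    exact lt_of_le_of_lt (List.toFinset_card_le _) (by rw [vis_length]; exact Nat.lt_succ_self _)
  obtain ⟨a, ha, b, hb, hab, hfab⟩ := Finset.exists_ne_map_eq_of_card_lt_of_maps_to hlt hf
  apply hpV
  refine Set.mem_biUnion (x := f a) ?_ ?_
  · refine Set.mem_biUnion ha (Set.mem_biUnion hb (Set.mem_iUnion.2 ⟨hab, ?_, ?_⟩))
    · exact hf' a ha
    · rw [hfab]; exact hf' b hb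
  · have := hf a ha
    simpa using this

lemma bad_card {ι : Type} (X : ι → Perm Ω)
    (hX : ∀ a b, a ≠ b → {p | X a p ≠ p ∧ X b p ≠ p}.Finite) {t : Perm Ω} (ht : Far K t) :
    #{a | ¬ Far (K ⊔ Subgroup.closure {X a}) t} ≤ max ℵ₀ #K := by
  have hsub : {a | ¬ Far (K ⊔ Subgroup.closure {X a}) t} ⊆
      ⋃ w : List (K ⊕ Bool), {a | {p | ev K (X a) w p ≠ t p}.Finite} := by
    intro a ha
    simp only [Set.mem_ofPred_eq, Far] at ha
    push Not at ha
    obtain ⟨g, hg, hfin⟩ := ha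
    obtain ⟨w, rfl⟩ := exists_word K (X a) g hg
    exact Set.mem_iUnion.2 ⟨w, hfin⟩
  have h1 : #(List (K ⊕ Bool)) ≤ max ℵ₀ #K := by
    refine (mk_list_le_max _).trans ?_
    refine max_le (le_max_left _ _) ?_
    rw [mk_sum, lift_id, lift_id]
    refine (add_le_add le_rfl (mk_le_aleph0 (α := Bool))).trans ?_
    rw [add_comm]
    exact add_le_max _ _ |>.trans (max_le (le_refl _) (le_max_left _ _))
  refine (mk_le_mk_of_subset hsub).trans ((mk_iUnion_le _).trans ?_)
  refine (mul_le_mul' h1 (ciSup_le' (fun w => ?_))).trans_eq (mul_eq_left (le_max_left _ _) (le_max_left ℵ₀ #K) aleph0_ne_zero)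
  exact (word_bad X hX ht w).lt_aleph0.le

end Pool.Agent.H26.SymGen
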