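import Mathlib
import Pool.Agent.H26.SymGenWords
import Pool.Agent.H26.SymGenLevel

/-!
# The transfinite construction
-/

namespace Pool.Agent.H26.SymGen

open Equiv Cardinal

lemma card_closure_le (s : Set (Perm Om)) : #(Subgroup.closure s) ≤ max ℵ₀ #s := by
  have h1 : (FreeGroup.lift (fun x : s => (x : Perm Om))).range = Subgroup.closure s := by
    rw [FreeGroup.range_lift_eq_closure, Subtype.range_coe]
  rw [← h1]
  refine (mk_le_of_surjective (MonoidHom.rangeRestrict_surjective _)).trans ?_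
  rcases isEmpty_or_nonempty s with h | h
  · have : Subsingleton (FreeGroup s) := inferInstance
    exact (le_one_iff_subsingleton.2 this).trans (one_le_aleph0.trans (le_max_left _ _))
  · rw [mk_freeGroup, max_comm]

/-- a permutation moving all the extra points -/
noncomputable def s0 : Perm Om :=
  swp.viaEmbedding ⟨fun n => (⟨n, none⟩ : Om), fun _ _ h => congrArg Sigma.fst h⟩

lemma s0_apply (n : ℕ) : s0 ⟨n, none⟩ = ⟨swp n, none⟩ :=
  Perm.viaEmbedding_apply swp ⟨fun n => (⟨n, none⟩ : Om), fun _ _ h => congrArg Sigma.fst h⟩ n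

lemma s0_mem : s0 ∈ Sub AA := by
  intro p hp
  apply Perm.viaEmbedding_apply_of_notMem
  rintro ⟨n, rfl⟩
  exact hp rfl

lemma swp_ne (n : ℕ) : swp n ≠ n := by
  show (if n % 2 = 0 then n + 1 else n - 1) ≠ n
  split_ifs <;> omega

lemma xx_s0_inf (a : ℕ → Bool) : {p | xx s0 a p ≠ p}.Infinite := by
  have : Set.range (fun n : ℕ => hb a ⟨n, none⟩) ⊆ {p | xx s0 a p ≠ p} := by
    rintro _ ⟨n, rfl⟩ h
    rw [xx, Perm.mul_apply, Perm.mul_apply, inv_ap, s0_apply] at h
    have := congrArg Sigma.fst ((hb a).injective h)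
    exact swp_ne n this
  refine (Set.infinite_range_of_injective ?_).mono this
  intro m n h
  exact congrArg Sigma.fst ((hb a).injective h)

lemma card_branches : #(ℕ → Bool) = 𝔠 := by simp

lemma exists_far (K : Subgroup (Perm Om)) (hK : #K < 𝔠) : ∃ t, Far K t := by
  by_contra hcon
  push Not at hcon
  have h1 : ∀ a : ℕ → Bool, ∃ g : K, {p | (g : Perm Om) p ≠ xx s0 a p}.Finite := by
    intro a
    have := hcon (xx s0 a)
    unfold Far at this
    push Not at this
    obtain ⟨g, hg, hfin⟩ := this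
    exact ⟨⟨g, hg⟩, hfin⟩
  choose g hg using h1
  have hinj : Function.Injective g := by
    intro a b hab
    by_contra hne
    have h2 : {p | xx s0 a p ≠ xx s0 b p}.Finite := by
      refine ((hg a).union (hg b)).subset ?_
      intro p hp
      by_contra hcon2
      simp only [Set.mem_union, Set.mem_ofPred_eq, not_or, not_not] at hcon2
      apply hp
      rw [← hcon2.1, ← hcon2.2, hab]
    refine xx_s0_inf a ((h2.union (xx_ad s0_mem s0_mem hne)).subset ?_)
    intro p hp
    by_cases hp2 : xx s0 b p = p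
    · left
      show xx s0 a p ≠ xx s0 b p
      rw [hp2]; exact hp
    · right
      exact ⟨hp, hp2⟩
  have := mk_le_of_injective hinj
  rw [card_branches] at this
  exact absurd this (not_le.2 hK)

variable {I : Type} [LinearOrder I] [WellFoundedLT I]

/-- the requirement at stage `i` -/
def Req (F : I → Finset (Perm Om)) (s : I → Perm Om) (i : I)
    (prev : (j : I) → j < i → Perm Om × Perm Om) (v : Perm Om × Perm Om) : Prop :=
  (∃ a, v.1 = xx (s i) a) ∧
  (∀ j (hj : j < i), Far (Subgroup.closure ({y | ∃ k, ∃ hk : k < i, y = (prev k hk).1} ∪ (F j : Set (Perm Om)))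
    ⊔ Subgroup.closure {v.1}) (prev j hj).2) ∧
  Far (Subgroup.closure ({y | ∃ k, ∃ hk : k < i, y = (prev k hk).1} ∪ (F i : Set (Perm Om)))
    ⊔ Subgroup.closure {v.1}) v.2

/-- the recursively defined sequence -/
noncomputable def bld (F : I → Finset (Perm Om)) (s : I → Perm Om) : I → Perm Om × Perm Om :=
  WellFounded.fix (C := fun _ => Perm Om × Perm Om) (wellFounded_lt (α := I))
    (fun i prev => Classical.epsilon (fun v => Req F s i prev v))

lemma bld_eq (F : I → Finset (Perm Om)) (s : I → Perm Om) (i : I) :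
    bld F s i = Classical.epsilon (fun v => Req F s i (fun j _ => bld F s j) v) :=
  WellFounded.fix_eq _ _ _

/-- set of generators used before stage `i` -/
def Pre (x : I → Perm Om × Perm Om) (i : I) : Set (Perm Om) := {y | ∃ k, ∃ _ : k < i, y = (x k).1}

/-- set of generators used up to stage `i` -/
def Upt (x : I → Perm Om × Perm Om) (i : I) : Set (Perm Om) := {y | ∃ k, ∃ _ : k ≤ i, y = (x k).1}

lemma Upt_eq (x : I → Perm Om × Perm Om) (i : I) : Upt x i = Pre x i ∪ {(x i).1} := by
  ext y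
  constructor
  · rintro ⟨k, hk, rfl⟩
    rcases hk.lt_or_eq with h | h
    · exact Or.inl ⟨k, h, rfl⟩
    · subst h; exact Or.inr rfl
  · rintro (⟨k, hk, rfl⟩ | h)
    · exact ⟨k, hk.le, rfl⟩
    · exact ⟨i, le_rfl, h⟩

lemma Upt_mono (x : I → Perm Om × Perm Om) {i j : I} (h : i ≤ j) : Upt x i ⊆ Upt x j := by
  rintro y ⟨k, hk, rfl⟩
  exact ⟨k, hk.trans h, rfl⟩

/-- the finitary argument -/
lemma far_limit (x : I → Perm Om × Perm Om) (F : I → Finset (Perm Om)) (j : I) (P : Set I)
    (hj : j ∈ P) (h : ∀ k ∈ P, j ≤ k → Far (Subgroup.closure (Upt x k ∪ (F j : Set (Perm Om)))) (x j).2) :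
    Far (Subgroup.closure ({y | ∃ k ∈ P, y = (x k).1} ∪ (F j : Set (Perm Om)))) (x j).2 := by
  intro g hg
  have hne : Nonempty {k // k ∈ P ∧ j ≤ k} := ⟨⟨j, hj, le_rfl⟩⟩
  have hdir : Directed (· ≤ ·) (fun k : {k // k ∈ P ∧ j ≤ k} =>
      Subgroup.closure (Upt x k ∪ (F j : Set (Perm Om)))) := by
    rintro ⟨k, hk⟩ ⟨l, hl⟩
    rcases le_total k l with h' | h'
    · refine ⟨⟨l, hl⟩, Subgroup.closure_mono ?_, le_rfl⟩
      exact Set.union_subset_union_left _ (Upt_mono x h')
    · refine ⟨⟨k, hk⟩, le_rfl, Subgroup.closure_mono ?_⟩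
      exact Set.union_subset_union_left _ (Upt_mono x h')
  have hle : Subgroup.closure ({y | ∃ k ∈ P, y = (x k).1} ∪ (F j : Set (Perm Om))) ≤
      ⨆ k : {k // k ∈ P ∧ j ≤ k}, Subgroup.closure (Upt x k ∪ (F j : Set (Perm Om))) := by
    rw [Subgroup.closure_le]
    rintro y (⟨k, hk, rfl⟩ | hy)
    · rcases le_total j k with h' | h'
      · exact Subgroup.mem_iSup_of_mem ⟨k, hk, h'⟩
          (Subgroup.subset_closure (Or.inl ⟨k, le_rfl, rfl⟩))
      · exact Subgroup.mem_iSup_of_mem ⟨j, hj, le_rfl⟩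
          (Subgroup.subset_closure (Or.inl ⟨k, h', rfl⟩))
    · exact Subgroup.mem_iSup_of_mem ⟨j, hj, le_rfl⟩ (Subgroup.subset_closure (Or.inr hy))
  obtain ⟨⟨k, hk⟩, hk2⟩ := (Subgroup.mem_iSup_of_directed hdir).1 (hle hg)
  exact h k hk.1 hk.2 g hk2

lemma far_mono {K L : Subgroup (Perm Om)} (h : K ≤ L) {t : Perm Om} (hL : Far L t) : Far K t :=
  fun g hg => hL g (h hg)

lemma bld_spec (hI : ∀ i : I, #(Set.Iio i) < 𝔠)
    (F : I → Finset (Perm Om)) (s : I → Perm Om) (hs : ∀ i, s i ∈ Sub AA) (i : I) :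
    Req F s i (fun j _ => bld F s j) (bld F s i) := by
  induction i using WellFoundedLT.induction with
  | ind i ih =>
  -- the inductive property in terms of `Upt`
  have ih1 : ∀ k < i, ∀ j ≤ k, Far (Subgroup.closure (Upt (bld F s) k ∪ (F j : Set (Perm Om)))) (bld F s j).2 := by
    intro k hk j hj
    obtain ⟨-, h2, h3⟩ := ih k hk
    have hU : Subgroup.closure (Upt (bld F s) k ∪ (F j : Set (Perm Om))) =
        Subgroup.closure (Pre (bld F s) k ∪ (F j : Set (Perm Om))) ⊔ Subgroup.closure {(bld F s k).1} := by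
      rw [← Subgroup.closure_union, Upt_eq, Set.union_right_comm]
    rw [hU]
    rcases hj.lt_or_eq with h | h
    · exact h2 j h
    · subst h; exact h3
  have ih2 : ∀ j < i, Far (Subgroup.closure (Pre (bld F s) i ∪ (F j : Set (Perm Om)))) (bld F s j).2 := by
    intro j hj
    have := far_limit (bld F s) F j (Set.Iio i) hj (fun k hk hjk => ih1 k hk j hjk)
    refine far_mono (Subgroup.closure_mono ?_) this
    refine Set.union_subset_union_left _ ?_
    rintro y ⟨k, hk, rfl⟩
    exact ⟨k, hk, rfl⟩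
  -- cardinalities
  let lam : Cardinal := max ℵ₀ #(Set.Iio i)
  have hlam : lam < 𝔠 := max_lt aleph0_lt_continuum (hI i)
  have hlam0 : ℵ₀ ≤ lam := le_max_left _ _
  have hPre : #(Pre (bld F s) i) ≤ lam := by
    have : Pre (bld F s) i ⊆ (fun k => (bld F s k).1) '' (Set.Iio i) := by
      rintro y ⟨k, hk, rfl⟩
      exact ⟨k, hk, rfl⟩
    exact ((mk_le_mk_of_subset this).trans mk_image_le).trans (le_max_right _ _)
  have hcl : ∀ j, #(Subgroup.closure (Pre (bld F s) i ∪ (F j : Set (Perm Om)))) ≤ lam := by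
    intro j
    refine (card_closure_le _).trans (max_le hlam0 ?_)
    refine (mk_union_le _ _).trans ?_
    refine (add_le_add hPre ((F j).finite_toSet.lt_aleph0.le.trans hlam0)).trans ?_
    rw [add_eq_self hlam0]
  -- choose the branch
  have hbad : #(⋃ j ∈ Set.Iio i, {a | ¬ Far (Subgroup.closure (Pre (bld F s) i ∪ (F j : Set (Perm Om)))
      ⊔ Subgroup.closure {xx (s i) a}) (bld F s j).2} : Set (ℕ → Bool)) ≤ lam := by
    refine (mk_biUnion_le _ _).trans ?_
    refine (mul_le_mul' (le_max_right ℵ₀ _) (ciSup_le' (a := lam) ?_)).trans ?_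
    · rintro ⟨j, hj⟩
      refine (bad_card (fun a => xx (s i) a) (fun a b hab => xx_ad (hs i) (hs i) hab) (ih2 j hj)).trans ?_
      exact max_le hlam0 (hcl j)
    · exact (mul_eq_self hlam0).le
  obtain ⟨a, ha⟩ : ∃ a, a ∉ (⋃ j ∈ Set.Iio i, {a | ¬ Far (Subgroup.closure (Pre (bld F s) i ∪ (F j : Set (Perm Om)))
      ⊔ Subgroup.closure {xx (s i) a}) (bld F s j).2} : Set (ℕ → Bool)) := by
    by_contra hcon
    push Not at hcon
    rw [← Set.eq_univ_iff_forall] at hcon
    rw [hcon, mk_univ, card_branches] at hbad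
    exact absurd hbad (not_le.2 hlam)
  have ha' : ∀ j < i, Far (Subgroup.closure (Pre (bld F s) i ∪ (F j : Set (Perm Om)))
      ⊔ Subgroup.closure {xx (s i) a}) (bld F s j).2 := by
    intro j hj
    by_contra hcon
    exact ha (Set.mem_biUnion (x := j) hj hcon)
  obtain ⟨t, ht⟩ := exists_far (Subgroup.closure (Pre (bld F s) i ∪ (F i : Set (Perm Om)))
      ⊔ Subgroup.closure {xx (s i) a}) (by
    rw [← Subgroup.closure_union]
    refine lt_of_le_of_lt ((card_closure_le _).trans (max_le hlam0 ?_)) hlam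
    refine (mk_union_le _ _).trans ?_
    refine (add_le_add (b := lam) (d := lam) ?_ ?_).trans_eq (add_eq_self hlam0)
    · refine (mk_union_le _ _).trans ?_
      refine (add_le_add hPre ((F i).finite_toSet.lt_aleph0.le.trans hlam0)).trans ?_
      rw [add_eq_self hlam0]
    · rw [mk_singleton]
      exact one_le_aleph0.trans hlam0)
  have hex : ∃ v, Req F s i (fun j _ => bld F s j) v :=
    ⟨(xx (s i) a, t), ⟨a, rfl⟩, ha', ht⟩
  rw [bld_eq F s i]
  exact Classical.epsilon_spec hex

lemma main_rec (hI : ∀ i : I, #(Set.Iio i) < 𝔠)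
    (F : I → Finset (Perm Om)) (s : I → Perm Om) (hs : ∀ i, s i ∈ Sub AA) :
    ∃ x : I → Perm Om, (∀ i, ∃ a, x i = xx (s i) a) ∧
      ∀ j, Subgroup.closure (Set.range x ∪ (F j : Set (Perm Om))) ≠ ⊤ := by
  refine ⟨fun i => (bld F s i).1, fun i => (bld_spec hI F s hs i).1, fun j htop => ?_⟩
  have h1 : ∀ k, j ≤ k → Far (Subgroup.closure (Upt (bld F s) k ∪ (F j : Set (Perm Om)))) (bld F s j).2 := by
    intro k hj
    obtain ⟨-, h2, h3⟩ := bld_spec hI F s hs k
    have hU : Subgroup.closure (Upt (bld F s) k ∪ (F j : Set (Perm Om))) =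
        Subgroup.closure (Pre (bld F s) k ∪ (F j : Set (Perm Om))) ⊔ Subgroup.closure {(bld F s k).1} := by
      rw [← Subgroup.closure_union, Upt_eq, Set.union_right_comm]
    rw [hU]
    rcases hj.lt_or_eq with h | h
    · exact h2 j h
    · subst h; exact h3
  have h2 := far_limit (bld F s) F j Set.univ (Set.mem_univ j) (fun k _ hjk => h1 k hjk)
  have h3 : Set.range (fun i => (bld F s i).1) ∪ (F j : Set (Perm Om)) ⊆
      {y | ∃ k ∈ Set.univ, y = (bld F s k).1} ∪ (F j : Set (Perm Om)) := by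
    refine Set.union_subset_union_left _ ?_
    rintro y ⟨k, rfl⟩
    exact ⟨k, Set.mem_univ _, rfl⟩
  have h4 := Subgroup.closure_mono h3
  rw [htop, top_le_iff] at h4
  rw [h4] at h2
  have := h2 (bld F s j).2 (Subgroup.mem_top _)
  simp at this

end Pool.Agent.H26.SymGen
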