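import Mathlib
import Pool.Agent.H26.SymGenRec

/-!
# Two subgroups generating the symmetric group, neither of them co-finitely generated
-/

namespace Pool.Agent.H26.SymGen

open Equiv Cardinal

theorem main_Om : ∃ G H : Subgroup (Perm Om), G ⊔ H = ⊤ ∧
    ∀ U : Finset (Perm Om), G ⊔ Subgroup.closure (U : Set (Perm Om)) ≠ ⊤ ∧
      H ⊔ Subgroup.closure (U : Set (Perm Om)) ≠ ⊤ := by
  classical
  let I : Type := (𝔠 : Cardinal.{0}).ord.ToType
  have hIc : #I = 𝔠 := mk_ord_toType _
  have hI : ∀ i : I, #(Set.Iio i) < 𝔠 := fun i => by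
    have := mk_Iio_lt i (by simp [I])
    rwa [hIc] at this
  -- enumeration
  have hperm : #(Perm Om) = 𝔠 := by
    rw [mk_perm_eq_two_power, mk_eq_aleph0, two_power_aleph0]
  have hne : Nonempty (Finset (Perm Om) × Sub (AA)) := ⟨(∅, 1)⟩
  have hinf : Infinite (Perm Om) := by
    rw [Cardinal.infinite_iff, hperm]; exact aleph0_le_continuum
  have hcard : #(Finset (Perm Om) × Sub (AA)) ≤ #I := by
    rw [hIc, mk_prod, lift_id, lift_id, mk_finset_of_infinite, hperm]
    refine (mul_le_mul' le_rfl ((mk_subtype_le _).trans_eq hperm)).trans ?_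
    rw [continuum_mul_self]
  obtain ⟨f⟩ : Nonempty ((Finset (Perm Om) × Sub (AA)) ↪ I) := hcard
  have hsurj : Function.Surjective (Function.invFun f) := Function.invFun_surjective f.injective
  obtain ⟨x, hx1, hx2⟩ := main_rec hI (fun i => (Function.invFun f i).1)
    (fun i => ((Function.invFun f i).2 : Perm Om)) (fun i => (Function.invFun f i).2.2)
  obtain ⟨η, hη⟩ := exists_eta AA AA_inf
  refine ⟨Subgroup.closure (Set.range x) ⊔ Subgroup.closure {η}, HL, ?_, fun U => ⟨?_, ?_⟩⟩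
  · rw [eq_top_iff, ← hη]
    refine sup_le ?_ ?_
    · intro s hs
      obtain ⟨i, hi⟩ := hsurj (∅, ⟨s, hs⟩)
      obtain ⟨a, ha⟩ := hx1 i
      rw [hi] at ha
      refine mem_of_xx (a := a) ?_ le_sup_right
      rw [← ha]
      exact Subgroup.mem_sup_left (Subgroup.mem_sup_left (Subgroup.subset_closure ⟨i, rfl⟩))
    · exact le_sup_of_le_left le_sup_right
  · obtain ⟨i, hi⟩ := hsurj (insert η U, 1)
    have := hx2 i
    rw [hi] at this
    intro htop
    apply this
    rw [← htop, ← Subgroup.closure_union, ← Subgroup.closure_union]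
    congr 1
    ext y
    simp only [Set.mem_union, Set.mem_singleton_iff, Finset.coe_insert, Set.mem_insert_iff]
    tauto
  · exact HL_not _ U.finite_toSet

theorem main_Nat : ∃ G H : Subgroup (Perm ℕ), G ⊔ H = ⊤ ∧
    ∀ U : Finset (Perm ℕ), G ⊔ Subgroup.closure (U : Set (Perm ℕ)) ≠ ⊤ ∧
      H ⊔ Subgroup.closure (U : Set (Perm ℕ)) ≠ ⊤ := by
  classical
  obtain ⟨G, H, hGH, hU⟩ := main_Om
  obtain ⟨e⟩ : Nonempty (Om ≃ ℕ) := nonempty_equiv_of_countable
  let φ : Perm Om ≃* Perm ℕ := e.permCongrHom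
  have key : ∀ (K : Subgroup (Perm Om)) (U : Finset (Perm ℕ)),
      K.map φ.toMonoidHom ⊔ Subgroup.closure (U : Set (Perm ℕ)) = ⊤ →
      K ⊔ Subgroup.closure ((U.image φ.symm : Finset (Perm Om)) : Set (Perm Om)) = ⊤ := by
    intro K U h
    have h1 := congrArg (Subgroup.map φ.symm.toMonoidHom) h
    rw [Subgroup.map_sup, Subgroup.map_map, MonoidHom.map_closure] at h1
    have h2 : φ.symm.toMonoidHom.comp φ.toMonoidHom = MonoidHom.id _ := by
      ext1 g
      exact φ.symm_apply_apply g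
    rw [h2, Subgroup.map_id, Subgroup.map_top_of_surjective _ φ.symm.surjective] at h1
    rw [← h1, Finset.coe_image]
    rfl
  refine ⟨G.map φ.toMonoidHom, H.map φ.toMonoidHom, ?_, fun U => ⟨?_, ?_⟩⟩
  · rw [← Subgroup.map_sup, hGH, Subgroup.map_top_of_surjective _ φ.surjective]
  · intro h
    exact (hU _).1 (key G U h)
  · intro h
    exact (hU _).2 (key H U h)

end Pool.Agent.H26.SymGen
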