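import Mathlib

namespace Pool.Agent.H26.Triple

open Module

section Dim

variable {K Y : Type*} [Field K] [AddCommGroup Y] [Module K Y] [FiniteDimensional K Y]

lemma finrank_sup_map_le (U I : Submodule K Y) (hUI : U ≤ I) (T : Y →ₗ[K] Y)
    (hT : ∀ u ∈ U, T u ∈ U) : finrank K (U ⊔ I.map T : Submodule K Y) ≤ finrank K I := by
  obtain ⟨U', hU'⟩ := Submodule.exists_isCompl U
  have h1 : U ⊔ (U' ⊓ I) = I := by
    rw [← sup_inf_assoc_of_le U' hUI, hU'.sup_eq_top, top_inf_eq]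
  have h2 : U ⊓ (U' ⊓ I) = ⊥ := by
    rw [← inf_assoc, hU'.inf_eq_bot, bot_inf_eq]
  have h3 : U ⊔ I.map T ≤ U ⊔ (U' ⊓ I).map T := by
    refine sup_le le_sup_left ?_
    rw [← h1, Submodule.map_sup, h1]
    refine sup_le ?_ le_sup_right
    refine le_trans ?_ le_sup_left
    rintro _ ⟨u, hu, rfl⟩
    exact hT u hu
  have h4 := Submodule.finrank_mono h3
  have h5 := Submodule.finrank_add_le_finrank_add_finrank U ((U' ⊓ I).map T)
  have h6 := Submodule.finrank_map_le T (U' ⊓ I)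
  have h7 := Submodule.finrank_sup_add_finrank_inf_eq U (U' ⊓ I)
  rw [h1, h2, finrank_bot] at h7
  omega

end Dim

section Pair

variable {K X Y : Type*} [Field K] [AddCommGroup X] [Module K X] [AddCommGroup Y] [Module K Y]

/-- Data of a regular element `A` (with quasi-inverse `B`) in a Jordan pair of spaces of linear
maps, at which the rank is a local maximum. -/
structure LocMax (V : Submodule K (X →ₗ[K] Y)) (W : Submodule K (Y →ₗ[K] X))
    (A : X →ₗ[K] Y) (B : Y →ₗ[K] X) : Prop where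
  hV : ∀ A ∈ V, ∀ B ∈ W, A ∘ₗ B ∘ₗ A ∈ V
  hW : ∀ A ∈ V, ∀ B ∈ W, B ∘ₗ A ∘ₗ B ∈ W
  hA : A ∈ V
  hB : B ∈ W
  hABA : ∀ x, A (B (A x)) = A x
  hBAB : ∀ y, B (A (B y)) = B y
  hloc : ∀ C ∈ V, ∀ x, A x = 0 → ∃ z, A z = C x

namespace LocMax

variable {V : Submodule K (X →ₗ[K] Y)} {W : Submodule K (Y →ₗ[K] X)}
  {A : X →ₗ[K] Y} {B : Y →ₗ[K] X} (h : LocMax V W A B)

include h

lemma polar {C D : X →ₗ[K] Y} (hC : C ∈ V) (hD : D ∈ V) {E : Y →ₗ[K] X} (hE : E ∈ W) :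
    C ∘ₗ E ∘ₗ D + D ∘ₗ E ∘ₗ C ∈ V := by
  have h1 := h.hV (C + D) (V.add_mem hC hD) E hE
  have h2 := h.hV C hC E hE
  have h3 := h.hV D hD E hE
  have h4 : C ∘ₗ E ∘ₗ D + D ∘ₗ E ∘ₗ C
      = (C + D) ∘ₗ E ∘ₗ (C + D) - C ∘ₗ E ∘ₗ C - D ∘ₗ E ∘ₗ D := by
    ext x
    simp only [LinearMap.add_apply, LinearMap.comp_apply, LinearMap.sub_apply, map_add]
    abel
  rw [h4]
  exact V.sub_mem (V.sub_mem h1 h2) h3

/-- The key identity `r Q = 0` for an element `Q + r A` of `V`. -/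
lemma key {Q : X →ₗ[K] Y} {r : Y →ₗ[K] Y} (hQr : Q + r ∘ₗ A ∈ V)
    (h1 : ∀ y, B (r y) = 0) (h2 : ∀ x, A (B (Q x)) = Q x) (h3 : ∀ y, Q (B y) = 0) (x : X) :
    r (Q x) = 0 := by
  have h4 : r ∘ₗ Q ∈ V := by
    have h5 := h.hV _ hQr B h.hB
    have h6 : (Q + r ∘ₗ A) ∘ₗ B ∘ₗ (Q + r ∘ₗ A) = r ∘ₗ Q := by
      ext x
      simp only [LinearMap.add_apply, LinearMap.comp_apply, map_add, h1, h2, h3,
        add_zero, zero_add]
    rwa [h6] at h5
  have h7 : ∀ x, A x = 0 → r (Q x) = 0 := by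
    intro x hx
    obtain ⟨z, hz⟩ := h.hloc _ h4 x hx
    have h8 : A (B (A z)) = A z := h.hABA z
    rw [hz] at h8
    simp only [LinearMap.comp_apply] at h8
    rw [h1, map_zero] at h8
    exact h8.symm
  have h9 : A (x - B (A x)) = 0 := by
    rw [map_sub, h.hABA, sub_self]
  have h10 := h7 _ h9
  rwa [map_sub, h3, sub_zero] at h10

theorem finrank_range_le [FiniteDimensional K Y] (h2 : (2 : K) ≠ 0) {C : X →ₗ[K] Y}
    (hC : C ∈ V) : finrank K (LinearMap.range C) ≤ finrank K (LinearMap.range A) := by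
  -- the blocks
  obtain ⟨Q, hQ⟩ : ∃ Q : X →ₗ[K] Y, ∀ x, Q x = C x - C (B (A x)) :=
    ⟨C - C ∘ₗ B ∘ₗ A, fun x => rfl⟩
  obtain ⟨r, hr⟩ : ∃ r : Y →ₗ[K] Y, ∀ y, r y = C (B y) - A (B (C (B y))) :=
    ⟨C ∘ₗ B - A ∘ₗ B ∘ₗ C ∘ₗ B, fun x => rfl⟩
  obtain ⟨p, hp⟩ : ∃ p : Y →ₗ[K] Y, ∀ y, p y = A (B (C (B y))) :=
    ⟨A ∘ₗ B ∘ₗ C ∘ₗ B, fun x => rfl⟩
  have F1 : ∀ x, A (B (Q x)) = Q x := by
    intro x
    have h9 : A (x - B (A x)) = 0 := by rw [map_sub, h.hABA, sub_self]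
    obtain ⟨z, hz⟩ := h.hloc C hC _ h9
    have : Q x = A z := by rw [hz, hQ, map_sub]
    rw [this, h.hABA]
  have F2 : ∀ x, C x = (p + r) (A x) + Q x := by
    intro x
    rw [LinearMap.add_apply, hp, hr, hQ]
    abel
  have F3 : ∀ y, Q (B y) = 0 := by
    intro y
    rw [hQ, h.hBAB, sub_self]
  have F4 : ∀ y, B (r y) = 0 := by
    intro y
    rw [hr, map_sub, h.hBAB, sub_self]
  have F5 : ∀ y, p (A (B y)) = p y := by
    intro y
    rw [hp, hp, h.hBAB]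
  have F5' : ∀ y, r (A (B y)) = r y := by
    intro y
    rw [hr, hr, h.hBAB]
  have F6 : ∀ y, A (B (p y)) = p y := by
    intro y
    rw [hp, h.hABA]
  have F7 : ∀ y, p (r y) = 0 := by
    intro y
    rw [hp, F4, map_zero, map_zero, map_zero]
  -- `P = p A ∈ V`
  have hP : p ∘ₗ A ∈ V := by
    have h5 := h.hV A h.hA (B ∘ₗ C ∘ₗ B) (h.hW C hC B h.hB)
    have h6 : A ∘ₗ (B ∘ₗ C ∘ₗ B) ∘ₗ A = p ∘ₗ A := by
      ext x
      simp only [LinearMap.comp_apply, hp]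
    rwa [h6] at h5
  -- the elements `p^j Q + r p^j A`
  have hj : ∀ j : ℕ, (p ^ j) ∘ₗ Q + (r ∘ₗ (p ^ j)) ∘ₗ A ∈ V := by
    intro j
    induction j with
    | zero =>
      have h5 : (p ^ 0) ∘ₗ Q + (r ∘ₗ (p ^ 0)) ∘ₗ A = C - p ∘ₗ A := by
        ext x
        simp only [pow_zero, LinearMap.add_apply, LinearMap.comp_apply, LinearMap.sub_apply,
          Module.End.one_apply, F2 x]
        abel
      rw [h5]
      exact V.sub_mem hC hP
    | succ j ih =>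
      have h5 := h.polar hP ih h.hB
      have h6 : (p ^ (j + 1)) ∘ₗ Q + (r ∘ₗ (p ^ (j + 1))) ∘ₗ A
          = (p ∘ₗ A) ∘ₗ B ∘ₗ ((p ^ j) ∘ₗ Q + (r ∘ₗ (p ^ j)) ∘ₗ A)
            + ((p ^ j) ∘ₗ Q + (r ∘ₗ (p ^ j)) ∘ₗ A) ∘ₗ B ∘ₗ (p ∘ₗ A) := by
        ext x
        simp only [LinearMap.add_apply, LinearMap.comp_apply, F5, map_add, F7, F6, F3, map_zero,
          add_zero, zero_add]
        have e1 : (p ^ (j + 1)) (Q x) = p ((p ^ j) (Q x)) := by rw [pow_succ']; rfl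
        have e2 : (p ^ (j + 1)) (A x) = (p ^ j) (p (A x)) := by rw [pow_succ]; rfl
        rw [e1, e2]
      rw [h6]
      exact h5
  have hcomm : ∀ (i j : ℕ) (y : Y), (p ^ i) ((p ^ j) y) = (p ^ (i + j)) y := by
    intro i j y
    rw [pow_add]
    rfl
  have hBp : ∀ (j : ℕ) (x : X), A (B ((p ^ j) (Q x))) = (p ^ j) (Q x) := by
    intro j x
    cases j with
    | zero => simpa using F1 x
    | succ j =>
      rw [pow_succ']
      exact F6 _
  have hpj : ∀ (j : ℕ) (x : X), r ((p ^ j) ((p ^ j) (Q x))) = 0 := by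
    intro j x
    exact h.key (hj j) (fun y => F4 _) (fun x => hBp j x)
      (fun y => by simp only [LinearMap.comp_apply, F3, map_zero]) x
  have hvan : ∀ (j : ℕ) (x : X), r ((p ^ j) (Q x)) = 0 := by
    intro j x
    have hsum : (Q + (p ^ j) ∘ₗ Q) + (r + r ∘ₗ (p ^ j)) ∘ₗ A ∈ V := by
      have h5 := V.add_mem (hj 0) (hj j)
      have h6 : (Q + (p ^ j) ∘ₗ Q) + (r + r ∘ₗ (p ^ j)) ∘ₗ A
          = ((p ^ 0) ∘ₗ Q + (r ∘ₗ (p ^ 0)) ∘ₗ A) + ((p ^ j) ∘ₗ Q + (r ∘ₗ (p ^ j)) ∘ₗ A) := by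
        ext x
        simp only [pow_zero, LinearMap.add_apply, LinearMap.comp_apply, Module.End.one_apply]
        abel
      rw [h6]
      exact h5
    have h7 := h.key hsum
      (fun y => by simp only [LinearMap.add_apply, LinearMap.comp_apply, map_add, F4, add_zero])
      (fun x => by simp only [LinearMap.add_apply, LinearMap.comp_apply, map_add, F1, hBp])
      (fun y => by simp only [LinearMap.add_apply, LinearMap.comp_apply, F3, map_zero, add_zero]) x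
    simp only [LinearMap.add_apply, LinearMap.comp_apply, map_add] at h7
    have h8 := hpj 0 x
    simp only [pow_zero, Module.End.one_apply] at h8
    rw [h8, hpj j x] at h7
    simp only [zero_add, add_zero] at h7
    have h9 : (2 : K) • r ((p ^ j) (Q x)) = 0 := by
      rw [two_smul]; exact h7
    exact (smul_eq_zero.1 h9).resolve_left h2
  -- the invariant subspace
  let U : Submodule K Y := LinearMap.range A ⊓ ⨅ j : ℕ, LinearMap.ker (r ∘ₗ (p ^ j))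
  have hU : ∀ u, u ∈ U ↔ (∃ x, A x = u) ∧ ∀ j : ℕ, r ((p ^ j) u) = 0 := by
    intro u
    simp only [U, Submodule.mem_inf, LinearMap.mem_range, Submodule.mem_iInf, LinearMap.mem_ker,
      LinearMap.comp_apply]
  have hQU : ∀ x, Q x ∈ U := by
    intro x
    rw [hU]
    exact ⟨⟨_, F1 x⟩, fun j => hvan j x⟩
  have hTU : ∀ u ∈ U, (p + r) u ∈ U := by
    intro u hu
    rw [hU] at hu ⊢
    have h0 := hu.2 0
    simp only [pow_zero, Module.End.one_apply] at h0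
    rw [LinearMap.add_apply, h0, add_zero]
    refine ⟨⟨_, F6 u⟩, fun j => ?_⟩
    have := hu.2 (j + 1)
    rw [pow_succ] at this
    exact this
  have hle : LinearMap.range C ≤ U ⊔ (LinearMap.range A).map (p + r) := by
    rintro _ ⟨x, rfl⟩
    rw [F2 x, add_comm ((p + r) (A x))]
    exact Submodule.add_mem_sup (hQU x)
      (Submodule.mem_map_of_mem (LinearMap.mem_range_self A x))
  exact (Submodule.finrank_mono hle).trans
    (finrank_sup_map_le U (LinearMap.range A) inf_le_left (p + r) hTU)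

end LocMax

end Pair

end Pool.Agent.H26.Triple
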