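import Pool.Agent.H26.TriplePair

namespace Pool.Agent.H26.Triple

open Matrix

section Poly

open Polynomial

variable {F : Type*} [Field F] {k : Type*} [Fintype k] [DecidableEq k]

lemma eq_zero_of_mulVec {F : Type*} [Field F] {m k : Type*} [Fintype k] [DecidableEq k]
    {M : Matrix m k F} (h : ∀ v, M *ᵥ v = 0) : M = 0 := by
  ext i j
  have := congrFun (h (Pi.single j 1)) i
  simpa using this

lemma exists_quasi_inv (S : Matrix k k F) (hS : ∀ v, S *ᵥ (S *ᵥ v) = 0 → S *ᵥ v = 0) :
    ∃ g : F[X], S * aeval S g * S = S := by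
  have key : ∀ (n : ℕ) (q : F[X]), q.natDegree ≤ n → q ≠ 0 → S * aeval S q = 0 →
      ∃ g : F[X], S * aeval S g * S = S := by
    intro n
    induction n with
    | zero =>
      intro q hq hq0 hSq
      have h1 := Polynomial.eq_C_of_natDegree_le_zero hq
      have hc : q.coeff 0 ≠ 0 := by
        intro h; rw [h, map_zero] at h1; exact hq0 h1
      rw [h1, aeval_C, Algebra.algebraMap_eq_smul_one, mul_smul_comm, mul_one] at hSq
      have hS0 : S = 0 := (smul_eq_zero.1 hSq).resolve_left hc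
      exact ⟨0, by rw [hS0]; simp⟩
    | succ n ih =>
      intro q hq hq0 hSq
      have h1 : aeval S q = aeval S q.divX * S + q.coeff 0 • (1 : Matrix k k F) := by
        conv_lhs => rw [← Polynomial.divX_mul_X_add q]
        rw [map_add, map_mul, aeval_X, aeval_C, Algebra.algebraMap_eq_smul_one]
      have hcomm : aeval S q.divX * S = S * aeval S q.divX := by
        have : aeval S (q.divX * X) = aeval S (X * q.divX) := by rw [mul_comm]
        rwa [map_mul, map_mul, aeval_X] at this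
      by_cases hc : q.coeff 0 = 0
      · refine ih q.divX ?_ ?_ ?_
        · rw [Polynomial.natDegree_divX_eq_natDegree_tsub_one]; omega
        · intro h
          apply hq0
          rw [← Polynomial.divX_mul_X_add q, h, hc, map_zero, zero_mul, add_zero]
        · rw [h1, hc, zero_smul, add_zero, hcomm] at hSq
          apply eq_zero_of_mulVec
          intro v
          rw [← Matrix.mulVec_mulVec]
          apply hS
          rw [Matrix.mulVec_mulVec, Matrix.mulVec_mulVec, Matrix.mul_assoc, hSq,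
            Matrix.zero_mulVec]
      · refine ⟨C (-(q.coeff 0)⁻¹) * q.divX, ?_⟩
        rw [h1, mul_add, mul_smul_comm, mul_one] at hSq
        rw [map_mul, aeval_C, Algebra.algebraMap_eq_smul_one, smul_mul_assoc, one_mul,
          mul_smul_comm, smul_mul_assoc, mul_assoc]
        have h2 : S * (aeval S q.divX * S) = - (q.coeff 0 • S) := eq_neg_of_add_eq_zero_left hSq
        rw [h2, smul_neg, neg_smul, neg_neg, smul_smul, inv_mul_cancel₀ hc, one_smul]
  exact key _ S.charpoly le_rfl (Matrix.charpoly_monic S).ne_zero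
    (by rw [Matrix.aeval_self_charpoly, mul_zero])

end Poly

section Pos

variable {F : Type*} [Field F] [LinearOrder F] [IsStrictOrderedRing F]

/-- Symmetric positive definite matrices over an ordered field. -/
def IsPosDef {n : Type*} [Fintype n] (G : Matrix n n F) : Prop :=
  Gᵀ = G ∧ ∀ v : n → F, v ≠ 0 → 0 < v ⬝ᵥ (G *ᵥ v)

variable {m k : Type*} [Fintype m] [Fintype k]

omit [IsStrictOrderedRing F] in
lemma IsPosDef.eq_zero {n : Type*} [Fintype n] {G : Matrix n n F} (hG : IsPosDef G) {v : n → F}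
    (h : v ⬝ᵥ (G *ᵥ v) = 0) : v = 0 := by
  by_contra hv
  exact absurd h (hG.2 v hv).ne'

omit [IsStrictOrderedRing F] in
lemma IsPosDef.eq_zero_of_mulVec {n : Type*} [Fintype n] {G : Matrix n n F} (hG : IsPosDef G)
    {v : n → F} (h : G *ᵥ v = 0) : v = 0 :=
  hG.eq_zero (by rw [h, dotProduct_zero])

omit [LinearOrder F] [IsStrictOrderedRing F] in
lemma dot_transpose (C : Matrix m k F) (v : k → F) (w : m → F) :
    v ⬝ᵥ (Cᵀ *ᵥ w) = (C *ᵥ v) ⬝ᵥ w := by
  rw [Matrix.dotProduct_mulVec, Matrix.vecMul_transpose]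

variable {G : Matrix k k F} {H : Matrix m m F}

omit [IsStrictOrderedRing F] in
lemma ker_of_form (hG : IsPosDef G) (hH : IsPosDef H) (C : Matrix m k F) (v : k → F)
    (h : (G * Cᵀ * H * C) *ᵥ v = 0) : C *ᵥ v = 0 := by
  have h1 : (G * Cᵀ * H * C) *ᵥ v = G *ᵥ (Cᵀ *ᵥ (H *ᵥ (C *ᵥ v))) := by
    simp only [Matrix.mulVec_mulVec, Matrix.mul_assoc]
  rw [h1] at h
  have h2 := hG.eq_zero_of_mulVec h
  apply hH.eq_zero
  rw [← dot_transpose, h2, dotProduct_zero]

omit [IsStrictOrderedRing F] in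
lemma ker_sq (hG : IsPosDef G) (hH : IsPosDef H) (C : Matrix m k F) (v : k → F)
    (h : (G * Cᵀ * H * C) *ᵥ ((G * Cᵀ * H * C) *ᵥ v) = 0) : (G * Cᵀ * H * C) *ᵥ v = 0 := by
  have h1 : (G * Cᵀ * H * C) *ᵥ v = G *ᵥ (Cᵀ *ᵥ (H *ᵥ (C *ᵥ v))) := by
    simp only [Matrix.mulVec_mulVec, Matrix.mul_assoc]
  have h2 := ker_of_form hG hH C _ h
  rw [h1] at h2 ⊢
  have h3 : Cᵀ *ᵥ (H *ᵥ (C *ᵥ v)) = 0 := by
    apply hG.eq_zero
    rw [dotProduct_comm, dot_transpose, h2, zero_dotProduct]
  rw [h3, Matrix.mulVec_zero]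

/-- Closure of a space of matrices under `C G Dᵀ H C`. -/
def TripleClosed (G : Matrix k k F) (H : Matrix m m F) (V : Submodule F (Matrix m k F)) : Prop :=
  ∀ C ∈ V, ∀ D ∈ V, C * G * Dᵀ * H * C ∈ V

omit [LinearOrder F] [IsStrictOrderedRing F] in
lemma pow_mem [DecidableEq k] (hGs : Gᵀ = G) (hHs : Hᵀ = H) {V : Submodule F (Matrix m k F)}
    (hV : TripleClosed G H V) {C : Matrix m k F} (hC : C ∈ V) (j : ℕ) :
    C * (G * Cᵀ * H * C) ^ j ∈ V ∧
      G * ((G * Cᵀ * H * C) ^ j)ᵀ = (G * Cᵀ * H * C) ^ j * G := by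
  induction j with
  | zero => simpa using hC
  | succ j ih =>
    have hS : G * (G * Cᵀ * H * C)ᵀ = (G * Cᵀ * H * C) * G := by
      simp only [Matrix.transpose_mul, Matrix.transpose_transpose, hGs, hHs, Matrix.mul_assoc]
    constructor
    · have h1 := hV C hC _ ih.1
      have h2 : C * G * (C * (G * Cᵀ * H * C) ^ j)ᵀ * H * C
          = C * (G * ((G * Cᵀ * H * C) ^ j)ᵀ) * Cᵀ * H * C := by
        simp only [Matrix.transpose_mul, Matrix.mul_assoc]
      rw [h2, ih.2] at h1
      have h3 : C * ((G * Cᵀ * H * C) ^ j * G) * Cᵀ * H * C = C * (G * Cᵀ * H * C) ^ (j + 1) := by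
        rw [pow_succ]
        simp only [Matrix.mul_assoc]
      rwa [h3] at h1
    · rw [pow_succ, Matrix.transpose_mul, ← Matrix.mul_assoc, hS, Matrix.mul_assoc, ih.2,
        ← Matrix.mul_assoc, ← pow_succ', pow_succ]

omit [LinearOrder F] [IsStrictOrderedRing F] in
lemma aeval_mem [DecidableEq k] (hGs : Gᵀ = G) (hHs : Hᵀ = H) {V : Submodule F (Matrix m k F)}
    (hV : TripleClosed G H V) {C : Matrix m k F} (hC : C ∈ V) (g : Polynomial F) :
    C * Polynomial.aeval (G * Cᵀ * H * C) g ∈ V ∧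
      G * (Polynomial.aeval (G * Cᵀ * H * C) g)ᵀ = Polynomial.aeval (G * Cᵀ * H * C) g * G := by
  induction g using Polynomial.induction_on' with
  | add p q hp hq =>
    rw [map_add, Matrix.mul_add, Matrix.transpose_add, Matrix.mul_add, Matrix.add_mul, hp.2, hq.2]
    exact ⟨V.add_mem hp.1 hq.1, rfl⟩
  | monomial j a =>
    have h1 := pow_mem hGs hHs hV hC j
    rw [Polynomial.aeval_monomial, Algebra.algebraMap_eq_smul_one, smul_mul_assoc, one_mul,
      Matrix.mul_smul, Matrix.transpose_smul, Matrix.mul_smul, Matrix.smul_mul, h1.2]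
    exact ⟨V.smul_mem a h1.1, rfl⟩

omit [IsStrictOrderedRing F] in
/-- In a triple closed space every matrix `C` has a quasi-inverse of the form `G Eᵀ H`. -/
lemma exists_regular [DecidableEq k] (hG : IsPosDef G) (hH : IsPosDef H)
    {V : Submodule F (Matrix m k F)} (hV : TripleClosed G H V) {C : Matrix m k F} (hC : C ∈ V) :
    ∃ E ∈ V, C * (G * Eᵀ * H) * C = C := by
  obtain ⟨g, hg⟩ := exists_quasi_inv (G * Cᵀ * H * C) (ker_sq hG hH C)
  obtain ⟨h1, h2⟩ := aeval_mem hG.1 hH.1 hV hC g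
  refine ⟨_, h1, ?_⟩
  set S := G * Cᵀ * H * C with hS
  have h3 : C * (G * (C * Polynomial.aeval S g)ᵀ * H) * C = C * (Polynomial.aeval S g * S) := by
    rw [Matrix.transpose_mul, ← Matrix.mul_assoc G, h2, hS]
    simp only [Matrix.mul_assoc]
  rw [h3]
  have h4 : C * (Polynomial.aeval S g * S - 1) = 0 := by
    apply eq_zero_of_mulVec
    intro v
    rw [← Matrix.mulVec_mulVec]
    apply ker_of_form hG hH
    rw [← hS, Matrix.mulVec_mulVec, Matrix.mul_sub, ← Matrix.mul_assoc, hg, Matrix.mul_one,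
      sub_self, Matrix.zero_mulVec]
  rw [Matrix.mul_sub, Matrix.mul_one, sub_eq_zero] at h4
  exact h4

/-- The space `G Vᵀ H`. -/
def dualSpace (G : Matrix k k F) (H : Matrix m m F) (V : Submodule F (Matrix m k F)) :
    Submodule F (Matrix k m F) where
  carrier := {B | ∃ D ∈ V, B = G * Dᵀ * H}
  add_mem' := by
    rintro _ _ ⟨D, hD, rfl⟩ ⟨E, hE, rfl⟩
    exact ⟨D + E, V.add_mem hD hE, by
      rw [Matrix.transpose_add, Matrix.mul_add, Matrix.add_mul]⟩
  zero_mem' := ⟨0, V.zero_mem, by simp⟩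
  smul_mem' := by
    rintro c _ ⟨D, hD, rfl⟩
    exact ⟨c • D, V.smul_mem c hD, by
      rw [Matrix.transpose_smul, Matrix.mul_smul, Matrix.smul_mul]⟩

end Pos

section RegPair

variable {F : Type*} [Field F] {m k : Type*} [Fintype m] [Fintype k]

/-- A pair of spaces of matrices closed under `C B C` and `B C B` in which every `C` of the first
space has a quasi-inverse in the second. -/
structure RegularPair (V : Submodule F (Matrix m k F)) (W : Submodule F (Matrix k m F)) :
    Prop where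
  left : ∀ C ∈ V, ∀ B ∈ W, C * B * C ∈ V
  right : ∀ C ∈ V, ∀ B ∈ W, B * C * B ∈ W
  regular : ∀ C ∈ V, ∃ B ∈ W, C * B * C = C

/-- Local maximum of the rank = global maximum in regular pairs. -/
theorem RegularPair.rank_le_of_local (h2 : (2 : F) ≠ 0)
    {V : Submodule F (Matrix m k F)} {W : Submodule F (Matrix k m F)} (h : RegularPair V W)
    {M : Matrix m k F} (hM : M ∈ V)
    (hloc : ∀ C ∈ V, ∀ v, M *ᵥ v = 0 → ∃ w, M *ᵥ w = C *ᵥ v) {C : Matrix m k F} (hC : C ∈ V) :
    C.rank ≤ M.rank := by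
  classical
  obtain ⟨E, hE, hE'⟩ := h.regular M hM
  have h : LocMax (V.map (Matrix.toLin' (R := F) (m := m) (n := k)).toLinearMap)
      (W.map (Matrix.toLin' (R := F) (m := k) (n := m)).toLinearMap)
      (Matrix.toLin' M) (Matrix.toLin' (E * M * E)) := by
    refine ⟨?_, ?_, ?_, ?_, ?_, ?_, ?_⟩
    · rintro _ ⟨C, hC, rfl⟩ _ ⟨D, hD, rfl⟩
      refine ⟨C * D * C, h.left C hC D hD, ?_⟩
      simp only [LinearEquiv.coe_coe, ← Matrix.toLin'_mul, Matrix.mul_assoc]
    · rintro _ ⟨C, hC, rfl⟩ _ ⟨D, hD, rfl⟩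
      refine ⟨D * C * D, h.right C hC D hD, ?_⟩
      simp only [LinearEquiv.coe_coe, ← Matrix.toLin'_mul, Matrix.mul_assoc]
    · exact ⟨M, hM, rfl⟩
    · exact ⟨_, h.right M hM E hE, rfl⟩
    · intro x
      rw [Matrix.toLin'_apply, Matrix.toLin'_apply, Matrix.toLin'_apply, Matrix.mulVec_mulVec,
        Matrix.mulVec_mulVec]
      congr 1
      have : M * (E * M * E) * M = (M * E * M) * E * M := by
        simp only [Matrix.mul_assoc]
      rw [this, hE', hE']
    · intro y
      rw [Matrix.toLin'_apply, Matrix.toLin'_apply, Matrix.toLin'_apply, Matrix.mulVec_mulVec,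
        Matrix.mulVec_mulVec]
      congr 1
      have : E * M * E * M * (E * M * E) = E * (M * E * M) * E * M * E := by
        simp only [Matrix.mul_assoc]
      rw [this, hE']
      have : E * M * E * M * E = E * (M * E * M) * E := by
        simp only [Matrix.mul_assoc]
      rw [this, hE']
    · rintro _ ⟨C, hC, rfl⟩ x hx
      exact hloc C hC x hx
  exact h.finrank_range_le h2 (C := Matrix.toLin' C) ⟨C, hC, rfl⟩

end RegPair

section Pos2

variable {F : Type*} [Field F] [LinearOrder F] {m k : Type*} [Fintype m] [Fintype k]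
  {G : Matrix k k F} {H : Matrix m m F}

/-- A triple closed space `V` and `G Vᵀ H` form a regular pair. -/
theorem TripleClosed.regularPair (hG : IsPosDef G) (hH : IsPosDef H)
    {V : Submodule F (Matrix m k F)} (hV : TripleClosed G H V) :
    RegularPair V (dualSpace G H V) := by
  classical
  refine ⟨?_, ?_, ?_⟩
  · rintro C hC _ ⟨D, hD, rfl⟩
    have := hV C hC D hD
    simpa only [Matrix.mul_assoc] using this
  · rintro C hC _ ⟨D, hD, rfl⟩
    refine ⟨D * G * Cᵀ * H * D, hV D hD C hC, ?_⟩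
    simp only [Matrix.transpose_mul, Matrix.transpose_transpose, hG.1, hH.1, Matrix.mul_assoc]
  · intro C hC
    obtain ⟨E, hE, hE'⟩ := exists_regular hG hH hV hC
    exact ⟨_, ⟨E, hE, rfl⟩, hE'⟩

end Pos2

end Pool.Agent.H26.Triple
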