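import Pool.Agent.H20.Edm.Minor

namespace Pool.Agent.H26.Triple

open Matrix Polynomial Pool.Agent.H20.Edm

variable {F : Type*} [Field F] {m k : Type*} [Fintype m] [Fintype k]

lemma exists_functional (M : Matrix m k F) (u : m → F) (hu : ∀ w, M *ᵥ w ≠ u) :
    ∃ φ : m → F, φ ⬝ᵥ u ≠ 0 ∧ ∀ w, φ ⬝ᵥ (M *ᵥ w) = 0 := by
  classical
  have h1 : u ∉ LinearMap.range M.mulVecLin := by
    rintro ⟨w, hw⟩
    exact hu w hw
  obtain ⟨ψ, hψ, hψ'⟩ := Submodule.exists_le_ker_of_notMem h1
  have key : ∀ x : m → F, (fun i => ψ (Pi.single i 1)) ⬝ᵥ x = ψ x := by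
    intro x
    rw [dotProduct, LinearMap.pi_apply_eq_sum_univ ψ x]
    refine Finset.sum_congr rfl fun i _ => ?_
    rw [smul_eq_mul, mul_comm]
    congr 2
    ext j
    simp [Pi.single_apply, eq_comm]
  refine ⟨fun i => ψ (Pi.single i 1), ?_, ?_⟩
  · rw [key]
    exact hψ
  · intro w
    rw [key]
    exact hψ' ⟨w, rfl⟩

/-- If `N` maps some vector of `ker M` outside `im M`, then some `M + t N` with `t` in a set `T`
of `rank M + 1` nonzero scalars has larger rank than `M`. -/
theorem exists_step (M N : Matrix m k F) (v : k → F) (hv : M *ᵥ v = 0)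
    (hN : ∀ w, M *ᵥ w ≠ N *ᵥ v) (T : Finset F) (hT : M.rank < T.card) (h0 : (0 : F) ∉ T) :
    ∃ t ∈ T, M.rank < (M + t • N).rank := by
  classical
  obtain ⟨f, g, hfg⟩ := exists_minor M (le_refl _)
  obtain ⟨φ, hφ, hφM⟩ := exists_functional M _ hN
  -- bordered minors
  let L : Matrix (Fin M.rank ⊕ Unit) m F :=
    Matrix.of (Sum.elim (fun i => Pi.single (f i) 1) (fun _ => φ))
  let R : Matrix (Fin M.rank ⊕ Unit) k F :=
    Matrix.of (Sum.elim (fun j => Pi.single (g j) 1) (fun _ => v))
  have hent : ∀ (P : Matrix m k F) (a b : Fin M.rank ⊕ Unit),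
      (L * P * Rᵀ) a b = L a ⬝ᵥ (P *ᵥ R b) := by
    intro P a b
    rw [Matrix.mul_assoc, Matrix.mul_apply_eq_vecMul, Matrix.vecMul, dotProduct]
    rfl
  have hb11 : ∀ (P : Matrix m k F) (i j : Fin M.rank),
      (L * P * Rᵀ) (Sum.inl i) (Sum.inl j) = P (f i) (g j) := by
    intro P i j
    rw [hent]
    change (Pi.single (f i) 1 : m → F) ⬝ᵥ (P *ᵥ (Pi.single (g j) 1 : k → F)) = _
    simp
  have hb12 : ∀ (P : Matrix m k F) (i : Fin M.rank) (u : Unit),
      (L * P * Rᵀ) (Sum.inl i) (Sum.inr u) = (P *ᵥ v) (f i) := by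
    intro P i u
    rw [hent]
    change (Pi.single (f i) 1 : m → F) ⬝ᵥ (P *ᵥ v) = _
    simp
  have hb21 : ∀ (P : Matrix m k F) (j : Fin M.rank) (u : Unit),
      (L * P * Rᵀ) (Sum.inr u) (Sum.inl j) = φ ⬝ᵥ (P *ᵥ (Pi.single (g j) 1 : k → F)) := by
    intro P j u
    rw [hent]
    rfl
  have hb22 : ∀ (P : Matrix m k F) (u u' : Unit),
      (L * P * Rᵀ) (Sum.inr u) (Sum.inr u') = φ ⬝ᵥ (P *ᵥ v) := by
    intro P u u'
    rw [hent]
    rfl
  -- the polynomial matrices
  let E : Matrix (Fin M.rank ⊕ Unit) (Fin M.rank ⊕ Unit) F[X] :=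
    (X : F[X]) • (L * N * Rᵀ).map C + (L * M * Rᵀ).map C
  let D : Matrix (Fin M.rank ⊕ Unit) (Fin M.rank ⊕ Unit) F[X] :=
    Matrix.of fun a b => Sum.elim (fun j => E a (Sum.inl j))
      (fun _ => C ((L * N * Rᵀ) a (Sum.inr ()))) b
  have hED : E = D * Matrix.diagonal (Sum.elim (fun _ => (1 : F[X])) (fun _ => X)) := by
    ext1 a b
    rw [Matrix.mul_diagonal]
    rcases b with j | ⟨⟩
    · simp [D]
    · have h1 : (L * M * Rᵀ) a (Sum.inr ()) = 0 := by
        rcases a with i | ⟨⟩
        · rw [hb12, hv]; rfl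
        · rw [hb22, hφM]
      simp only [D, E, Matrix.of_apply, Sum.elim_inr, Matrix.add_apply, Matrix.smul_apply,
        Matrix.map_apply, h1, map_zero, add_zero, smul_eq_mul]
      ring
  have hD0 : D.det ≠ 0 := by
    intro h
    have h1 : (D.map (Polynomial.evalRingHom (0 : F))).det = 0 := by
      have := RingHom.map_det (Polynomial.evalRingHom (0 : F)) D
      rw [h, map_zero] at this
      exact this.symm
    have h2 : D.map (Polynomial.evalRingHom (0 : F)) = Matrix.fromBlocks (M.submatrix f g)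
        (Matrix.of fun i (_ : Unit) => (N *ᵥ v) (f i)) 0 (Matrix.of fun _ _ => φ ⬝ᵥ (N *ᵥ v)) := by
      ext1 a b
      rcases a with i | ⟨⟩ <;> rcases b with j | ⟨⟩
      · simp only [D, E, Matrix.of_apply, Sum.elim_inl, Matrix.add_apply, Matrix.smul_apply,
          Matrix.map_apply, hb11, smul_eq_mul, Polynomial.coe_evalRingHom, Polynomial.eval_add,
          Polynomial.eval_mul, Polynomial.eval_X, Polynomial.eval_C, zero_mul, zero_add,
          Matrix.fromBlocks_apply₁₁, Matrix.submatrix_apply]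
      · simp only [D, E, Matrix.of_apply, Sum.elim_inr, hb12, Matrix.map_apply,
          Polynomial.coe_evalRingHom, Polynomial.eval_C, Matrix.fromBlocks_apply₁₂]
      · simp only [D, E, Matrix.of_apply, Sum.elim_inl, Matrix.add_apply, Matrix.smul_apply,
          Matrix.map_apply, hb21, hφM, smul_eq_mul, Polynomial.coe_evalRingHom,
          Polynomial.eval_add, Polynomial.eval_mul, Polynomial.eval_X, Polynomial.eval_C,
          zero_mul, zero_add, Matrix.fromBlocks_apply₂₁, Matrix.zero_apply]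
      · simp only [D, E, Matrix.of_apply, Sum.elim_inr, hb22, Matrix.map_apply,
          Polynomial.coe_evalRingHom, Polynomial.eval_C, Matrix.fromBlocks_apply₂₂]
    rw [h2, Matrix.det_fromBlocks_zero₂₁] at h1
    rcases mul_eq_zero.1 h1 with h3 | h3
    · exact hfg h3
    · rw [Matrix.det_unique] at h3
      exact hφ h3
  have hE0 : E.det ≠ 0 := by
    rw [hED, Matrix.det_mul, Matrix.det_diagonal]
    refine mul_ne_zero hD0 ?_
    simp [Fintype.prod_sum_type]
  by_contra hcon
  push Not at hcon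
  apply hE0
  have hEeval : ∀ t : F, E.det.eval t = (L * (M + t • N) * Rᵀ).det := by
    intro t
    have h1 := RingHom.map_det (Polynomial.evalRingHom t) E
    rw [Polynomial.coe_evalRingHom] at h1
    rw [h1]
    congr 1
    ext a b
    have h2 : L * (M + t • N) * Rᵀ = L * M * Rᵀ + t • (L * N * Rᵀ) := by
      rw [Matrix.mul_add, Matrix.add_mul, Matrix.mul_smul, Matrix.smul_mul]
    rw [h2]
    simp only [E, RingHom.mapMatrix_apply, Matrix.map_apply, Matrix.add_apply, Matrix.smul_apply,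
      smul_eq_mul, Polynomial.coe_evalRingHom, Polynomial.eval_add, Polynomial.eval_mul,
      Polynomial.eval_X, Polynomial.eval_C]
    ring
  have hzero : ∀ t : F, (M + t • N).rank ≤ M.rank → E.det.eval t = 0 := by
    intro t ht
    rw [hEeval]
    by_contra hne
    have h1 : (L * (M + t • N) * Rᵀ).rank = M.rank + 1 := by
      rw [Matrix.rank_of_det_ne_zero hne]
      simp
    have h2 : (L * (M + t • N) * Rᵀ).rank ≤ (M + t • N).rank := by
      refine (Matrix.rank_mul_le_left _ _).trans ?_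
      exact Matrix.rank_mul_le_right _ _
    omega
  refine Polynomial.eq_zero_of_natDegree_lt_card_of_eval_eq_zero' E.det (insert 0 T) ?_ ?_
  · intro t ht
    rcases Finset.mem_insert.1 ht with rfl | ht
    · apply hzero
      rw [zero_smul, add_zero]
    · exact hzero t (hcon t ht)
  · rw [Finset.card_insert_of_notMem h0]
    have := natDegree_det_X_add_C_le (L * N * Rᵀ) (L * M * Rᵀ)
    rw [Fintype.card_sum, Fintype.card_fin, Fintype.card_unit] at this
    exact lt_of_le_of_lt this (by omega)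

end Pool.Agent.H26.Triple
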